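import Mathlib

/-! # Supramenability and exponential boundedness: the definitions -/

set_option autoImplicit false

namespace Pool.Agent.J6H4.Supra

open scoped ENNReal Pointwise Topology
open Filter

/-- A group `G` is supramenable if for every nonempty `A ⊆ G` there is a finitely additive
left-invariant measure on all subsets of `G`, with values in `[0,∞]`, which gives `A` the
measure `1`. -/
def Supramenable (G : Type*) [Group G] : Prop :=
  ∀ A : Set G, A.Nonempty → ∃ μ : Set G → ℝ≥0∞,
    μ ∅ = 0 ∧ (∀ B C : Set G, Disjoint B C → μ (B ∪ C) = μ B + μ C) ∧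
    (∀ (g : G) (B : Set G), μ (g • B) = μ B) ∧ μ A = 1

/-- An action of the group `Γ` on the set `X` is supramenable if for every nonempty `A ⊆ X` there is
a finitely additive `Γ`-invariant measure on all subsets of `X`, with values in `[0,∞]`, which gives
`A` the measure `1`. -/
def ActSupramenable (Γ X : Type*) [Group Γ] [MulAction Γ X] : Prop :=
  ∀ A : Set X, A.Nonempty → ∃ μ : Set X → ℝ≥0∞,
    μ ∅ = 0 ∧ (∀ B C : Set X, Disjoint B C → μ (B ∪ C) = μ B + μ C) ∧
    (∀ (g : Γ) (B : Set X), μ (g • B) = μ B) ∧ μ A = 1

/-- A group `G` is two-sidedly supramenable if for every nonempty `A ⊆ G` there is a finitely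
additive measure on all subsets of `G`, with values in `[0,∞]`, which is invariant under all left
translations and under all right translations and gives `A` the measure `1`. -/
def TwoSidedSupramenable (G : Type*) [Group G] : Prop :=
  ∀ A : Set G, A.Nonempty → ∃ μ : Set G → ℝ≥0∞,
    μ ∅ = 0 ∧ (∀ B C : Set G, Disjoint B C → μ (B ∪ C) = μ B + μ C) ∧
    (∀ (g : G) (B : Set G), μ ((fun x => g * x) '' B) = μ B) ∧
    (∀ (g : G) (B : Set G), μ ((fun x => x * g) '' B) = μ B) ∧ μ A = 1

/-- The ball of radius `n` of the finite set `S`: the products of at most `n` elements of `S` and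
inverses of elements of `S`. -/
def ball {G : Type*} [Group G] (S : Finset G) (n : ℕ) : Set G :=
  {g : G | ∃ l : List G, l.length ≤ n ∧ (∀ x ∈ l, x ∈ S ∨ x⁻¹ ∈ S) ∧ l.prod = g}

/-- `G` is exponentially bounded: `γ_S(n)^(1/n) → 1` for every finite subset `S` of `G`, where
`γ_S(n)` is the number of elements of the ball of radius `n`. -/
def ExponentiallyBounded (G : Type*) [Group G] : Prop :=
  ∀ S : Finset G, Tendsto (fun n : ℕ => ((Nat.card (ball S n) : ℕ) : ℝ) ^ (1 / (n : ℝ)))
    atTop (𝓝 1)

end Pool.Agent.J6H4.Supra
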