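import Pool.Agent.Helper241_Spread.Criterion
import Pool.Agent.J6H4.Supra.Defs

set_option autoImplicit false

namespace Pool.Agent.J6H4.Supra

open scoped ENNReal Pointwise
open Pool.Agent.Helper241Spread Pool.Agent.Helper241Spread.TTree

section

variable {Γ X : Type*} [Group Γ] [MulAction Γ X]

/-- An injective binary tree with bounded steps obstructs supramenability. -/
theorem not_act_of_tree (K : Finset Γ) (τ : List Bool → X)
    (hinj : Function.Injective τ)
    (hstep : ∀ b w, ∃ k ∈ K, τ (b :: w) = k • τ w) : ¬ ActSupramenable Γ X := by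
  classical
  intro hS
  obtain ⟨μ, h0, h1, h2, hA⟩ := hS (Set.range τ) ⟨τ [], [], rfl⟩
  choose κ hκ hκ' using hstep
  have half : ∀ b : Bool, μ (Set.range fun w => τ (b :: w)) = 1 := by
    intro b
    have e1 : (Set.range fun w => τ (b :: w)) =
        ⋃ k ∈ K, k • {x | ∃ w, τ w = x ∧ κ b w = k} := by
      ext y
      simp only [Set.mem_range, Set.mem_iUnion, Set.mem_smul_set, Set.mem_ofPred_eq, exists_prop]
      constructor
      · rintro ⟨w, rfl⟩
        exact ⟨κ b w, hκ b w, τ w, ⟨w, rfl, rfl⟩, (hκ' b w).symm⟩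
      · rintro ⟨k, hk, x, ⟨w, hw, h⟩, rfl⟩
        exact ⟨w, by rw [hκ' b w, h, hw]⟩
    have e2 : Set.range τ = ⋃ k ∈ K, {x | ∃ w, τ w = x ∧ κ b w = k} := by
      ext y
      simp only [Set.mem_range, Set.mem_iUnion, Set.mem_ofPred_eq, exists_prop]
      constructor
      · rintro ⟨w, rfl⟩
        exact ⟨κ b w, hκ b w, w, rfl, rfl⟩
      · rintro ⟨k, hk, w, hw, h⟩
        exact ⟨w, hw⟩
    have d2 : (K : Set Γ).PairwiseDisjoint (fun k => {x | ∃ w, τ w = x ∧ κ b w = k}) := by
      intro k hk k' hk' hne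
      rw [Function.onFun, Set.disjoint_left]
      rintro x ⟨w, hw, h⟩ ⟨w', hw', h'⟩
      have : w = w' := hinj (hw.trans hw'.symm)
      subst this
      exact hne (h.symm.trans h')
    have d1 : (K : Set Γ).PairwiseDisjoint
        (fun k => k • {x | ∃ w, τ w = x ∧ κ b w = k}) := by
      intro k hk k' hk' hne
      rw [Function.onFun, Set.disjoint_left]
      intro y hy hy'
      rw [Set.mem_smul_set] at hy hy'
      obtain ⟨x, ⟨w, hw, h⟩, rfl⟩ := hy
      obtain ⟨x', ⟨w', hw', h'⟩, hy⟩ := hy'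
      have e3 : τ (b :: w) = τ (b :: w') := by
        rw [hκ' b w, hκ' b w', h, h', hw, hw', hy]
      have : (b :: w) = (b :: w') := hinj e3
      have hww : w = w' := by simpa using this
      subst hww
      exact hne (h.symm.trans h')
    rw [e1, add_finset h0 h1 K _ d1, ← hA, e2, add_finset h0 h1 K _ d2]
    exact Finset.sum_congr rfl fun k _ => h2 k _
  have hd : Disjoint (Set.range fun w => τ (true :: w)) (Set.range fun w => τ (false :: w)) := by
    rw [Set.disjoint_left]
    rintro x ⟨w, rfl⟩ ⟨w', h⟩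
    have := hinj h
    simp at this
  have := h1 _ _ hd
  rw [half true, half false] at this
  have hle : μ ((Set.range fun w => τ (true :: w)) ∪ (Set.range fun w => τ (false :: w))) ≤
      μ (Set.range τ) := by
    apply mono_of_add h1
    rintro x (⟨w, rfl⟩ | ⟨w, rfl⟩) <;> exact ⟨_, rfl⟩
  rw [this, hA] at hle
  norm_num at hle

/-- Compactness: injective binary trees with steps in `K` and a fixed root, of all finite depths,
give an infinite one. -/
theorem exists_act_tree_of_depth (K : Finset Γ) (x₀ : X)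
    (h : ∀ D : ℕ, ∃ τ : List Bool → X, τ [] = x₀ ∧
      (∀ w w', w.length ≤ D → w'.length ≤ D → τ w = τ w' → w = w') ∧
      (∀ b w, w.length < D → ∃ k ∈ K, τ (b :: w) = k • τ w)) :
    ∃ τ : List Bool → X, τ [] = x₀ ∧ Function.Injective τ ∧
      ∀ b w, ∃ k ∈ K, τ (b :: w) = k • τ w := by
  classical
  choose T h1 h2 h3 using h
  set U : Ultrafilter ℕ := Filter.hyperfilter ℕ with hU
  have ev : ∀ n : ℕ, ∀ᶠ D in (U : Filter ℕ), n ≤ D := by
    intro n
    have : ∀ᶠ D in Filter.atTop, n ≤ D := Filter.eventually_ge_atTop n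
    rw [← Nat.cofinite_eq_atTop] at this
    exact this.filter_mono (Filter.hyperfilter_le_cofinite)
  have key : ∀ w : List Bool, ∃ g : X, ∀ᶠ D in (U : Filter ℕ), T D w = g := by
    intro w
    induction w with
    | nil => exact ⟨x₀, Filter.Eventually.of_forall h1⟩
    | cons b w ih =>
      obtain ⟨g, hg⟩ := ih
      have : ∀ᶠ D in (U : Filter ℕ), ∃ k ∈ K, T D (b :: w) = k • g := by
        filter_upwards [hg, ev (w.length + 1)] with D hD hD'
        obtain ⟨k, hk, h⟩ := h3 D b w (by omega)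
        exact ⟨k, hk, by rw [h, hD]⟩
      have h4 : (⋃ k ∈ (K : Set Γ), {D | T D (b :: w) = k • g}) ∈ U := by
        filter_upwards [this] with D hD
        simpa using hD
      rw [Ultrafilter.finite_biUnion_mem_iff K.finite_toSet] at h4
      obtain ⟨k, hk, h5⟩ := h4
      exact ⟨k • g, h5⟩
  choose τ hτ using key
  refine ⟨τ, ?_, ?_, ?_⟩
  · obtain ⟨D, hD⟩ := (hτ []).exists
    rw [← hD, h1]
  · intro w w' he
    have := (((hτ w).and (hτ w')).and ((ev w.length).and (ev w'.length))).exists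
    obtain ⟨D, ⟨e1, e2⟩, e3, e4⟩ := this
    exact h2 D w w' e3 e4 (e1.trans (he.trans e2.symm))
  · intro b w
    have := (((hτ w).and (hτ (b :: w))).and (ev (w.length + 1))).exists
    obtain ⟨D, ⟨e1, e2⟩, e3⟩ := this
    obtain ⟨k, hk, h⟩ := h3 D b w (by omega)
    exact ⟨k, hk, by rw [← e2, h, e1]⟩

lemma law_support_act [DecidableEq Γ] {V : Type*} (pos : V → X) (step : V → PMF V) (K : Finset Γ)
    (hK : ∀ u, ∀ v ∈ (step u).support, ∃ k ∈ K, pos v = k • pos u) (n : ℕ) (u v : V)
    (hv : v ∈ (law step n u).support) : ∃ k ∈ K ^ n, pos v = k • pos u := by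
  induction n generalizing u with
  | zero =>
    simp only [law, PMF.mem_support_pure_iff] at hv
    exact ⟨1, by simp, by simp [hv]⟩
  | succ n ih =>
    simp only [law, PMF.mem_support_bind_iff] at hv
    obtain ⟨w, hw, hv⟩ := hv
    obtain ⟨k, hk, h1⟩ := hK u w hw
    obtain ⟨k', hk', h2⟩ := ih w hv
    refine ⟨k' * k, ?_, by rw [h2, h1, mul_smul]⟩
    rw [pow_succ]
    exact Finset.mul_mem_mul hk' hk

end

end Pool.Agent.J6H4.Supra
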