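import Pool.Agent.J6H4.Supra.Defs

/-! # Branch groups: the definitions -/

set_option autoImplicit false

namespace Pool.Agent.J6H4.Supra

/-- `T` with the order `v ≤ w` (`v` is an ancestor of `w` or `v = w`) and the function `level` is
the vertex set of a rooted tree with finite levels in which every vertex has at least two
children. -/
structure IsRootedTree (T : Type*) [PartialOrder T] (level : T → ℕ) : Prop where
  /-- there is exactly one vertex of level `0`, the root -/
  root : ∃! v : T, level v = 0
  /-- every vertex has, for each `n` up to its level, exactly one ancestor of level `n` -/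
  ancestor : ∀ (w : T) (n : ℕ), n ≤ level w → ∃! v : T, v ≤ w ∧ level v = n
  /-- the level of an ancestor is not larger -/
  mono : ∀ v w : T, v ≤ w → level v ≤ level w
  /-- the levels are finite -/
  finite_level : ∀ n, {v : T | level v = n}.Finite
  /-- every vertex has at least two children -/
  children : ∀ v : T, ∃ w w' : T, w ≠ w' ∧ v ≤ w ∧ v ≤ w' ∧ level w = level v + 1 ∧
    level w' = level v + 1

/-- The rigid stabiliser of the vertex `v`: the elements of `G` that fix every vertex outside the
subtree of the descendants of `v`. -/
def rigidStabilizer (G : Type*) {T : Type*} [Group G] [MulAction G T] [PartialOrder T] (v : T) :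
    Subgroup G where
  carrier := {g | ∀ w : T, ¬ v ≤ w → g • w = w}
  one_mem' := fun w _ => one_smul G w
  mul_mem' := fun {a b} ha hb w hw => by rw [mul_smul, hb w hw, ha w hw]
  inv_mem' := fun {a} ha w hw => by rw [inv_smul_eq_iff, ha w hw]

/-- `G` is a branch group: it acts faithfully by automorphisms on a rooted tree with finite levels
in which every vertex has at least two children, transitively on every level, and for each `n` the
subgroup generated by the rigid stabilisers of the vertices of level `n` has finite index. -/
def IsBranchGroup (G : Type*) [Group G] : Prop :=
  ∃ (T : Type) (_ : PartialOrder T) (level : T → ℕ) (_ : MulAction G T),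
    IsRootedTree T level ∧ FaithfulSMul G T ∧
    (∀ (g : G) (v w : T), v ≤ w → g • v ≤ g • w) ∧
    (∀ (g : G) (v : T), level (g • v) = level v) ∧
    (∀ v w : T, level v = level w → ∃ g : G, g • v = w) ∧
    ∀ n : ℕ, (⨆ v : {v : T // level v = n}, rigidStabilizer G (v : T)).FiniteIndex

end Pool.Agent.J6H4.Supra
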