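import Pool.Agent.J6H4.Supra.Families
import Pool.Agent.J6H4.Supra.BranchDefs

set_option autoImplicit false

namespace Pool.Agent.J6H4.Supra

open scoped ENNReal Pointwise Topology
open Filter

section

variable {Γ : Type*} [Group Γ]

/-- exponential boundedness passes from a subgroup of finite index to the group -/
lemma expBounded_of_finiteIndex (N : Subgroup Γ) (hfi : N.FiniteIndex)
    (h : ExponentiallyBounded N) : ExponentiallyBounded Γ := by
  classical
  intro S
  have := hfi
  have : Fintype (Γ ⧸ N) := Fintype.ofFinite _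
  set r : Γ → Γ := fun g => (QuotientGroup.mk g : Γ ⧸ N).out with hr
  have hrN : ∀ g : Γ, (r g)⁻¹ * g ∈ N := by
    intro g
    rw [← QuotientGroup.eq]
    exact Quotient.out_eq' _
  set R : Finset Γ := Finset.univ.image (fun q : Γ ⧸ N => q.out) with hR
  have hrR : ∀ g, r g ∈ R := fun g => Finset.mem_image_of_mem _ (Finset.mem_univ _)
  set U : Finset Γ := S ∪ S⁻¹ with hU
  set S' : Finset N := (U ×ˢ (insert 1 R)).image
    (fun p => ⟨(r (p.1 * p.2))⁻¹ * (p.1 * p.2), hrN _⟩) ∪ {⟨(r 1)⁻¹ * 1, hrN 1⟩} with hS'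
  -- every element of the ball is `r * n` with `n` in a ball of `N`
  have key : ∀ (l : List Γ), (∀ x ∈ l, x ∈ S ∨ x⁻¹ ∈ S) →
      ∃ (n : N), n ∈ ball S' (l.length + 1) ∧ l.prod = r l.prod * (n : Γ) := by
    intro l
    induction l with
    | nil =>
      intro _
      refine ⟨⟨(r 1)⁻¹ * 1, hrN 1⟩, ⟨[⟨(r 1)⁻¹ * 1, hrN 1⟩], by simp, ?_, by simp⟩, by simp⟩
      intro x hx
      left
      simp only [List.mem_singleton] at hx
      rw [hx, hS']
      simp
    | cons x l ih =>
      intro hl
      obtain ⟨n, ⟨l', h1, h2, h3⟩, h4⟩ := ih (fun y hy => hl y (by simp [hy]))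
      have hx : x ∈ U := by
        rcases hl x (by simp) with h | h
        · simp [hU, h]
        · simp [hU, h]
      set p := l.prod with hp
      have hq : r (x * r p) = r (x * p) := by
        have : (QuotientGroup.mk (x * r p) : Γ ⧸ N) = QuotientGroup.mk (x * p) := by
          rw [QuotientGroup.eq]
          have h5 : (x * r p)⁻¹ * (x * p) = (r p)⁻¹ * p := by group
          rw [h5]
          exact hrN p
        exact congrArg (fun q : Γ ⧸ N => q.out) this
      refine ⟨⟨(r (x * r p))⁻¹ * (x * r p), hrN _⟩ * n, ?_, ?_⟩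
      · refine ⟨⟨(r (x * r p))⁻¹ * (x * r p), hrN _⟩ :: l', by simp; omega, ?_, ?_⟩
        · intro y hy
          rw [List.mem_cons] at hy
          rcases hy with rfl | hy
          · left
            rw [hS']
            apply Finset.mem_union_left
            rw [Finset.mem_image]
            exact ⟨(x, r p), by simp [hx, hrR], rfl⟩
          · exact h2 y hy
        · rw [List.prod_cons, h3]
      · rw [List.prod_cons, ← hp]
        simp only [Subgroup.coe_mul]
        rw [hq]
        have h6 : (n : Γ) = (r p)⁻¹ * p := by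
          rw [eq_inv_mul_iff_mul_eq]
          exact h4.symm
        rw [h6]
        group
  have hle : ∀ n : ℕ, Nat.card (ball S n) ≤ R.card * Nat.card (ball S' (n + 1)) := by
    intro n
    rw [Nat.card_coe_set_eq, Nat.card_coe_set_eq]
    have h1 : ball S n ⊆ (fun q : Γ × N => q.1 * (q.2 : Γ)) '' ((R : Set Γ) ×ˢ ball S' (n + 1)) := by
      rintro g ⟨l, hl1, hl2, rfl⟩
      obtain ⟨m, ⟨l', h1, h2, h3⟩, h4⟩ := key l hl2
      exact ⟨(r l.prod, m), ⟨hrR _, ⟨l', by omega, h2, h3⟩⟩, h4.symm⟩
    have hf : ((R : Set Γ) ×ˢ ball S' (n + 1)).Finite :=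
      (Finset.finite_toSet R).prod (ball_finite _ _)
    calc (ball S n).ncard ≤ _ := Set.ncard_le_ncard h1 (hf.image _)
      _ ≤ ((R : Set Γ) ×ˢ ball S' (n + 1)).ncard := Set.ncard_image_le hf
      _ = R.card * (ball S' (n + 1)).ncard := by rw [Set.ncard_prod, Set.ncard_coe_finset]
  -- submultiplicativity: `ball (n+1)` is at most `ball 1` times `ball n`
  have hsub : ∀ n : ℕ, Nat.card (ball S' (n + 1)) ≤ Nat.card (ball S' n) * Nat.card (ball S' 1) := by
    intro n
    rw [Nat.card_coe_set_eq, Nat.card_coe_set_eq, Nat.card_coe_set_eq, ball_eq, ball_eq, ball_eq,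
      Set.ncard_coe_finset, Set.ncard_coe_finset, Set.ncard_coe_finset, pow_add]
    exact Finset.card_mul_le
  set M : ℝ := (R.card : ℝ) * (Nat.card (ball S' 1) : ℕ) with hM
  have hM1 : 1 ≤ M := by
    have h1 : 1 ≤ R.card := Finset.card_pos.2 ⟨r 1, hrR 1⟩
    have h2 := one_le_card_ball S' 1
    have h3 : (1 : ℝ) ≤ R.card := by exact_mod_cast h1
    nlinarith
  have hlim : Tendsto (fun n : ℕ => M ^ (1 / (n : ℝ))) atTop (𝓝 1) := by
    have h1 : Tendsto (fun n : ℕ => (1 / (n : ℝ))) atTop (𝓝 0) := tendsto_one_div_atTop_nhds_zero_nat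
    have h2 := (Real.continuous_const_rpow (show M ≠ 0 by linarith)).tendsto 0
    rw [Real.rpow_zero] at h2
    exact h2.comp h1
  have h3 := (h S').mul hlim
  rw [mul_one] at h3
  refine tendsto_of_tendsto_of_tendsto_of_le_of_le tendsto_const_nhds h3 ?_ ?_
  · intro n
    exact Real.one_le_rpow (one_le_card_ball S n) (by positivity)
  · intro n
    simp only
    rw [← Real.mul_rpow (by positivity) (by linarith)]
    refine Real.rpow_le_rpow (by positivity) ?_ (by positivity)
    have h4 : Nat.card (ball S n) ≤ Nat.card (ball S' n) * (R.card * Nat.card (ball S' 1)) := by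
      calc Nat.card (ball S n) ≤ R.card * Nat.card (ball S' (n + 1)) := hle n
        _ ≤ R.card * (Nat.card (ball S' n) * Nat.card (ball S' 1)) := by
            gcongr
            exact hsub n
        _ = _ := by ring
    rw [hM]
    exact_mod_cast h4

/-- **Virtual commuting products of isomorphic groups.** -/
theorem supramenable_iff_of_virtual {ι : Type*} [Nontrivial ι] (H : ι → Subgroup Γ)
    (hcomm : ∀ i j, i ≠ j → ∀ x ∈ H i, ∀ y ∈ H j, x * y = y * x)
    (hiso : ∀ i j, ∃ f : H i →* H j, Function.Injective f)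
    (hfi : (⨆ i, H i : Subgroup Γ).FiniteIndex) :
    Supramenable Γ ↔ ExponentiallyBounded Γ := by
  constructor
  · intro h
    obtain ⟨i, j, hij⟩ := exists_pair_ne ι
    have hall : ∀ k, ExponentiallyBounded (H k) := by
      intro k
      rcases expBounded_or_of_supramenable (H i) (H j) (hcomm i j hij) h with h1 | h1
      · obtain ⟨f, hf⟩ := hiso k i
        exact expBounded_of_injective f hf h1
      · obtain ⟨f, hf⟩ := hiso k j
        exact expBounded_of_injective f hf h1
    exact expBounded_of_finiteIndex _ hfi (expBounded_iSup H hcomm hall)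
  · exact supramenable_of_expBounded

/-- **Groups containing a copy of their square.** -/
theorem supramenable_iff_of_square (f : Γ × Γ →* Γ) (hf : Function.Injective f) :
    Supramenable Γ ↔ ExponentiallyBounded Γ :=
  ⟨fun h => supramenable_square_iff.1 (supramenable_of_injective f hf h),
    supramenable_of_expBounded⟩

/-- **Branch groups.** -/
theorem supramenable_iff_of_branch (h : IsBranchGroup Γ) :
    Supramenable Γ ↔ ExponentiallyBounded Γ := by
  obtain ⟨T, _, level, _, hT, hfaith, hmon, hlev, htrans, hfi⟩ := h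
  -- two vertices of level one
  obtain ⟨v0, hv0, _⟩ := hT.root
  obtain ⟨w, w', hne, _, _, hw, hw'⟩ := hT.children v0
  rw [hv0] at hw hw'
  have : Nontrivial {v : T // level v = 1} := ⟨⟨⟨w, hw⟩, ⟨w', hw'⟩, fun h => hne (by simpa using h)⟩⟩
  -- vertices of the same level have no common descendants
  have hdis : ∀ v v' x : T, level v = level v' → v ≤ x → v' ≤ x → v = v' := by
    intro v v' x he h1 h2
    obtain ⟨u, _, hu⟩ := hT.ancestor x (level v) (hT.mono v x h1)
    rw [hu v ⟨h1, rfl⟩, hu v' ⟨h2, he.symm⟩]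
  -- an element of the rigid stabiliser of `v` fixes `v`
  have hfix : ∀ (v : T) (g : Γ), g ∈ rigidStabilizer Γ v → g • v = v := by
    intro v g hg
    by_contra hcon
    have h1 : ¬ v ≤ g • v := by
      intro h2
      exact hcon (hdis v (g • v) (g • v) (hlev g v).symm h2 le_rfl).symm
    have h2 : g • (g • v) = g • v := hg _ h1
    exact hcon (smul_left_cancel g h2)
  refine supramenable_iff_of_virtual (fun v : {v : T // level v = 1} => rigidStabilizer Γ (v : T))
    ?_ ?_ (hfi 1)
  · -- rigid stabilisers commute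
    have hone : ∀ (v v' : T) (g g' : Γ), level v = level v' → v ≠ v' → g ∈ rigidStabilizer Γ v →
        g' ∈ rigidStabilizer Γ v' → ∀ x : T, v ≤ x → g • g' • x = g' • g • x := by
      intro v v' g g' he hne hg hg' x hx
      have h1 : ¬ v' ≤ x := fun h2 => hne (hdis v v' x he hx h2)
      have h2 : v ≤ g • x := by
        have := hmon g v x hx
        rwa [hfix v g hg] at this
      have h3 : ¬ v' ≤ g • x := fun h4 => hne (hdis v v' _ he h2 h4)
      rw [hg' x h1, hg' _ h3]
    rintro ⟨v, hv⟩ ⟨v', hv'⟩ hne' g hg g' hg'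
    have hne2 : v ≠ v' := fun h => hne' (Subtype.ext h)
    apply hfaith.eq_of_smul_eq_smul (α := T)
    intro x
    rw [mul_smul, mul_smul]
    by_cases h1 : v ≤ x
    · exact hone v v' g g' (hv.trans hv'.symm) hne2 hg hg' x h1
    · by_cases h2 : v' ≤ x
      · exact (hone v' v g' g (hv'.trans hv.symm) hne2.symm hg' hg x h2).symm
      · rw [hg' x h2, hg x h1, hg' x h2]
  · -- and are conjugate
    rintro ⟨v, hv⟩ ⟨v', hv'⟩
    obtain ⟨a, ha⟩ := htrans v v' (hv.trans hv'.symm)
    have hmem : ∀ g : rigidStabilizer Γ v, a * (g : Γ) * a⁻¹ ∈ rigidStabilizer Γ v' := by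
      intro g x hx
      rw [mul_smul, mul_smul]
      have h1 : ¬ v ≤ a⁻¹ • x := by
        intro h2
        apply hx
        have := hmon a _ _ h2
        rwa [ha, smul_inv_smul] at this
      rw [g.2 _ h1, smul_inv_smul]
    refine ⟨{ toFun := fun g => ⟨a * (g : Γ) * a⁻¹, hmem g⟩
              map_one' := by ext1; simp
              map_mul' := fun g g' => by ext1; simp }, ?_⟩
    intro g g' hgg
    have := congrArg Subtype.val hgg
    simp only [MonoidHom.coe_mk, OneHom.coe_mk] at this
    ext1
    exact mul_left_cancel (mul_right_cancel this)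

end

end Pool.Agent.J6H4.Supra
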