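import Pool.Agent.J6H4.Supra.ActTree

set_option autoImplicit false

namespace Pool.Agent.J6H4.Supra

open scoped ENNReal Pointwise
open Pool.Agent.Helper241Spread Pool.Agent.Helper241Spread.TTree

section prod

variable {V W : Type*}

/-- Product of two independent kernels. -/
noncomputable def prodStep (s : V → PMF V) (t : W → PMF W) (u : V × W) : PMF (V × W) :=
  (s u.1).bind fun v => (t u.2).map fun w => (v, w)

lemma law_prodStep (s : V → PMF V) (t : W → PMF W) (n : ℕ) (u : V × W) :
    law (prodStep s t) n u =
      (law s n u.1).bind fun v => (law t n u.2).map fun w => (v, w) := by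
  induction n generalizing u with
  | zero => simp [law, PMF.pure_map, PMF.pure_bind]
  | succ n ih =>
    rw [law, prodStep, law, law]
    simp only [PMF.bind_bind, PMF.map_bind, PMF.bind_map, Function.comp_def, ih]
    congr 1
    funext v
    rw [PMF.bind_comm]

/-- The random bit stream. -/
noncomputable def boolStep (l : List Bool) : PMF (List Bool) :=
  (PMF.uniformOfFintype Bool).map fun b => b :: l

lemma boolStep_apply (l l' : List Bool) : boolStep l l' ≤ if l = l'.tail then 2⁻¹ else 0 := by
  classical
  rw [boolStep, PMF.map_apply]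
  rcases l' with _ | ⟨b, l'⟩
  · simp
  · rw [tsum_eq_single b]
    · by_cases h : l' = l
      · subst h; simp
      · simp [h]
    · intro b' hb'
      simp [Ne.symm hb']

lemma law_one (s : V → PMF V) (u : V) : law s 1 u = s u := by
  simp [law]

lemma law_boolStep (n : ℕ) (l l' : List Bool) : law boolStep n l l' ≤ (2⁻¹ : ℝ≥0∞) ^ n := by
  classical
  induction n generalizing l' with
  | zero => simpa using PMF.coe_le_one _ _
  | succ n ih =>
    rw [law_add, PMF.bind_apply]
    calc ∑' a, law boolStep n l a * law boolStep 1 a l'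
        ≤ ∑' a, if a = l'.tail then (2⁻¹ : ℝ≥0∞) ^ n * 2⁻¹ else 0 := by
          apply ENNReal.tsum_le_tsum
          intro a
          rw [law_one]
          split_ifs with h
          · gcongr
            · exact ih a
            · exact (boolStep_apply a l').trans (by simp [h])
          · have := boolStep_apply a l'
            rw [if_neg h] at this
            simp [le_antisymm this bot_le]
      _ = (2⁻¹ : ℝ≥0∞) ^ (n + 1) := by
          rw [tsum_ite_eq, pow_succ]

end prod

section crit

variable {V : Type*} {G : Type*}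

lemma law_time (tm : V → ℕ) (step : V → PMF V)
    (htm : ∀ u, ∀ v ∈ (step u).support, tm v = tm u + 1) (n : ℕ) (u v : V)
    (hv : v ∈ (law step n u).support) : tm v = tm u + n := by
  induction n generalizing u with
  | zero =>
    simp only [law, PMF.mem_support_pure_iff] at hv
    simp [hv]
  | succ n ih =>
    simp only [law, PMF.mem_support_bind_iff] at hv
    obtain ⟨w, hw, hv⟩ := hv
    rw [ih w hv, htm u w hw]; ring

/-- The position in the extended process. -/
def extPos (pos : V → G) (tm : V → ℕ) (H : ℕ) (u : V × List Bool) : G ⊕ List Bool :=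
  if tm u.1 ≤ H then Sum.inl (pos u.1) else Sum.inr u.2

lemma ext_spread (pos : V → G) (step : V → PMF V) (tm : V → ℕ)
    (htm : ∀ u, ∀ v ∈ (step u).support, tm v = tm u + 1) (H : ℕ) (c : ℕ → ℝ≥0∞)
    (hc : ∀ n, (2⁻¹ : ℝ≥0∞) ^ n ≤ c n)
    (hs : ∀ (n : ℕ) (u : V) (y : G), tm u + n ≤ H → ((law step n u).map pos) y ≤ c n)
    (n : ℕ) (u : V × List Bool) (y : G ⊕ List Bool) :
    ((law (prodStep step boolStep) n u).map (extPos pos tm H)) y ≤ c n := by
  classical
  rw [law_prodStep]
  by_cases h : tm u.1 + n ≤ H
  · -- inside the horizon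
    have e1 : (((law step n u.1).bind fun v => (law boolStep n u.2).map fun w => (v, w)).map
        (extPos pos tm H)) = ((law step n u.1).map pos).map Sum.inl := by
      rw [PMF.map_bind, PMF.map_comp, PMF.map]
      apply PMF.ext
      intro z
      rw [PMF.bind_apply, PMF.bind_apply]
      apply tsum_congr
      intro v
      by_cases hv : v ∈ (law step n u.1).support
      · have ht := law_time tm step htm n u.1 v hv
        congr 1
        rw [PMF.map_comp]
        have : (extPos pos tm H ∘ fun w => (v, w)) = Function.const _ (Sum.inl (pos v)) := by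
          funext w
          simp [extPos, ht, h]
        rw [this, PMF.map_const]
        rfl
      · rw [PMF.apply_eq_zero_iff _ _ |>.2 hv]
        simp
    rw [e1]
    rcases y with y | y
    · rw [PMF.map_apply]
      rw [tsum_eq_single y]
      · simpa using hs n u.1 y h
      · intro b hb
        simp [Ne.symm hb]
    · rw [PMF.map_apply]
      simp
  · -- beyond the horizon
    have e1 : (((law step n u.1).bind fun v => (law boolStep n u.2).map fun w => (v, w)).map
        (extPos pos tm H)) = (law boolStep n u.2).map Sum.inr := by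
      rw [PMF.map_bind]
      have e2 : ∀ v ∈ (law step n u.1).support, ((law boolStep n u.2).map fun w => (v, w)).map
          (extPos pos tm H) = (law boolStep n u.2).map Sum.inr := by
        intro v hv
        have ht := law_time tm step htm n u.1 v hv
        rw [PMF.map_comp]
        congr 1
        funext w
        simp only [Function.comp, extPos, ht]
        rw [if_neg h]
      apply PMF.ext
      intro z
      rw [PMF.bind_apply]
      calc ∑' v, (law step n u.1) v * (((law boolStep n u.2).map fun w => (v, w)).map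
            (extPos pos tm H)) z
          = ∑' v, (law step n u.1) v * ((law boolStep n u.2).map Sum.inr) z := by
            apply tsum_congr
            intro v
            by_cases hv : v ∈ (law step n u.1).support
            · rw [e2 v hv]
            · rw [PMF.apply_eq_zero_iff _ _ |>.2 hv]
              simp
        _ = _ := by rw [ENNReal.tsum_mul_right, PMF.tsum_coe, one_mul]
    rw [e1]
    rcases y with y | y
    · rw [PMF.map_apply]
      simp
    · rw [PMF.map_apply]
      rw [tsum_eq_single y]
      · simpa using (law_boolStep n u.2 y).trans (hc n)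
      · intro b hb
        simp [Ne.symm hb]

/-- **Finite horizon spreading criterion.** If for every horizon `H` there is a process, started at
the point `x₀`, with bounded steps (in a fixed finite set) whose positions spread exponentially
until time `H`, then there is an injective binary tree in `X` with bounded steps, rooted at `x₀`. -/
theorem exists_tree_of_finite_spread {Γ X : Type*} [Group Γ] [MulAction Γ X] (x₀ : X)
    (K : Finset Γ) (C θ : NNReal) (hθ : θ < 1)
    (h : ∀ H : ℕ, ∃ (V : Type) (pos : V → X) (step : V → PMF V) (tm : V → ℕ) (u₀ : V),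
      pos u₀ = x₀ ∧ tm u₀ = 0 ∧ (∀ u, ∀ v ∈ (step u).support, tm v = tm u + 1) ∧
      (∀ u, ∀ v ∈ (step u).support, ∃ k ∈ K, pos v = k • pos u) ∧
      (∀ (n : ℕ) (u : V) (y : X), tm u + n ≤ H →
        ((law step n u).map pos) y ≤ C * (θ : ℝ≥0∞) ^ n)) :
    ∃ (K' : Finset Γ) (τ : List Bool → X), τ [] = x₀ ∧ Function.Injective τ ∧
      ∀ b w, ∃ k ∈ K', τ (b :: w) = k • τ w := by
  classical
  -- enlarge the constants
  set C' : NNReal := max C 1 with hC'
  set θ' : NNReal := max θ 2⁻¹ with hθ'd
  have hθ' : θ' < 1 := by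
    rw [hθ'd, max_lt_iff]
    refine ⟨hθ, ?_⟩
    rw [← NNReal.coe_lt_coe]
    norm_num
  have hc : ∀ n : ℕ, (2⁻¹ : ℝ≥0∞) ^ n ≤ C' * (θ' : ℝ≥0∞) ^ n := by
    intro n
    have h1 : (1 : ℝ≥0∞) ≤ (C' : ℝ≥0∞) := by exact_mod_cast le_max_right C 1
    have h2 : (2⁻¹ : ℝ≥0∞) ≤ (θ' : ℝ≥0∞) := by
      have : (2⁻¹ : NNReal) ≤ θ' := le_max_right _ _
      calc (2⁻¹ : ℝ≥0∞) = ((2⁻¹ : NNReal) : ℝ≥0∞) := by
            rw [ENNReal.coe_inv (by norm_num)]; simp
        _ ≤ θ' := by exact_mod_cast this
    calc (2⁻¹ : ℝ≥0∞) ^ n ≤ (θ' : ℝ≥0∞) ^ n := by gcongr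
      _ = 1 * (θ' : ℝ≥0∞) ^ n := by rw [one_mul]
      _ ≤ _ := by gcongr
  have hc2 : ∀ n : ℕ, (C : ℝ≥0∞) * (θ : ℝ≥0∞) ^ n ≤ C' * (θ' : ℝ≥0∞) ^ n := by
    intro n
    gcongr
    · exact le_max_left _ _
    · exact le_max_left _ _
  -- choose `N`
  obtain ⟨N, hN⟩ : ∃ N : ℕ, (θ' : ℝ) ^ N < min (1 / 54) (1 / (216 * ((C' : ℝ) + 1))) :=
    exists_pow_lt_of_lt_one (by positivity) (by exact_mod_cast hθ')
  set Θ : ℝ≥0∞ := (θ' : ℝ≥0∞) ^ N with hΘd
  have hΘr : Θ = ENNReal.ofReal ((θ' : ℝ) ^ N) := by
    rw [hΘd, ENNReal.ofReal_pow (by positivity)]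
    simp
  have h54 : (θ' : ℝ) ^ N ≤ 1 / 54 := (hN.trans_le (min_le_left _ _)).le
  have h216 : (θ' : ℝ) ^ N ≤ 1 / (216 * ((C' : ℝ) + 1)) := (hN.trans_le (min_le_right _ _)).le
  have hΘ : 27 * Θ ≤ 2⁻¹ := by
    have h1 : (27 : ℝ≥0∞) = ENNReal.ofReal 27 := by simp
    have h2 : (2⁻¹ : ℝ≥0∞) = ENNReal.ofReal (1 / 2) := by
      rw [ENNReal.ofReal_div_of_pos (by norm_num)]; simp
    rw [hΘr, h1, h2, ← ENNReal.ofReal_mul (by norm_num)]
    apply ENNReal.ofReal_le_ofReal
    linarith
  have hC : 2 * ((C' : ℝ≥0∞) * Θ) ≤ 108⁻¹ := by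
    have h1 : (2 : ℝ≥0∞) = ENNReal.ofReal 2 := by simp
    have h2 : (108⁻¹ : ℝ≥0∞) = ENNReal.ofReal (1 / 108) := by
      rw [ENNReal.ofReal_div_of_pos (by norm_num)]; simp
    have h3 : (C' : ℝ≥0∞) = ENNReal.ofReal (C' : ℝ) := by simp
    rw [hΘr, h1, h2, h3, ← ENNReal.ofReal_mul (by positivity), ← ENNReal.ofReal_mul (by norm_num)]
    apply ENNReal.ofReal_le_ofReal
    have hC0 : (0 : ℝ) ≤ C' := C'.2
    calc 2 * ((C' : ℝ) * (θ' : ℝ) ^ N) ≤ 2 * (C' * (1 / (216 * ((C' : ℝ) + 1)))) := by gcongr
      _ = (C' / ((C' : ℝ) + 1)) * (1 / 108) := by field_simp; ring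
      _ ≤ 1 * (1 / 108) := by
          gcongr
          rw [div_le_one (by positivity)]
          linarith
      _ = 1 / 108 := by norm_num
  -- trees of every depth
  have hD : ∀ D : ℕ, ∃ τ : List Bool → X, τ [] = x₀ ∧
      (∀ w w', w.length ≤ D → w'.length ≤ D → τ w = τ w' → w = w') ∧
      (∀ b w, w.length < D → ∃ k ∈ K ^ N, τ (b :: w) = k • τ w) := by
    intro D
    obtain ⟨V, pos, step, tm, u₀, hx, h0, htm, hK, hs⟩ := h (N * D)
    set step' := prodStep step boolStep with hstep'
    set pos' := extPos pos tm (N * D) with hpos'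
    have hspread : Spread pos' (law step' N) (C' : ℝ≥0∞) Θ := by
      intro n u y
      rw [law_law, hΘd, ← pow_mul]
      exact ext_spread pos step tm htm (N * D) (fun n => C' * (θ' : ℝ≥0∞) ^ n) hc
        (fun n u y hn => (hs n u y hn).trans (hc2 n)) (N * n) u y
    have hb := good_bound pos' (law step' N) hspread hΘ hC D (u₀, [])
    have : ∃ t ∈ (rt (law step' N) D (u₀, [])).support, Good pos' D t := by
      by_contra hcon
      push Not at hcon
      have h1 : (rt (law step' N) D (u₀, [])).toOuterMeasure Set.univ ≤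
          (rt (law step' N) D (u₀, [])).toOuterMeasure {t | ¬ Good pos' D t} := by
        apply outer_compl_support
        rintro t ⟨ht, _⟩
        exact hcon t ht
      have h2 : (rt (law step' N) D (u₀, [])).toOuterMeasure Set.univ = 1 := by
        rw [PMF.toOuterMeasure_apply]
        simp
      rw [h2] at h1
      have h3 := h1.trans hb
      have : (6 : ℝ≥0∞) ≤ 1 := by
        rw [ENNReal.le_inv_iff_mul_le] at h3
        simp at h3
      norm_num at this
    obtain ⟨t, ht, hg⟩ := this
    -- steps of the extended process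
    have hstepV : ∀ u : V × List Bool, ∀ v ∈ (law step' N u).support,
        tm v.1 = tm u.1 + N ∧ ∃ k ∈ K ^ N, pos v.1 = k • pos u.1 := by
      intro u v hv
      rw [hstep', law_prodStep] at hv
      simp only [PMF.mem_support_bind_iff, PMF.mem_support_map_iff] at hv
      obtain ⟨w, hw, l, hl, rfl⟩ := hv
      exact ⟨law_time tm step htm N u.1 w hw, law_support_act pos step K hK N u.1 w hw⟩
    have hv := valid_of_mem (law step' N)
      (fun u v => tm v.1 = tm u.1 + N ∧ ∃ k ∈ K ^ N, pos v.1 = k • pos u.1) hstepV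
      D (u₀, []) t ht
    have hroot : t.root = (u₀, []) := root_of_mem (law step' N) D (u₀, []) t ht
    obtain ⟨σ, s0, s1, s2, s3⟩ := exists_binary pos' _ D t hg hv
    have htime : ∀ w : List Bool, w.length ≤ D → tm (σ w).1 = N * w.length := by
      intro w
      induction w using List.reverseRecOn with
      | nil => intro _; rw [s0, hroot]; simp [h0]
      | append_singleton w b ih =>
        intro hw
        simp only [List.length_append, List.length_singleton] at hw
        rw [(s2 b w (by omega)).1, ih (by omega)]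
        simp only [List.length_append, List.length_singleton]
        ring
    have hinl : ∀ w : List Bool, w.length ≤ D → pos' (σ w) = Sum.inl (pos (σ w).1) := by
      intro w hw
      rw [hpos', extPos, if_pos]
      rw [htime w hw]
      exact Nat.mul_le_mul_left _ hw
    refine ⟨fun w => pos (σ w.reverse).1, ?_, ?_, ?_⟩
    · simp only [List.reverse_nil]
      rw [s0, hroot]
      exact hx
    · intro w w' hw hw' he
      have := s1 w.reverse w'.reverse (by simpa using hw) (by simpa using hw')
        (by rw [hinl _ (by simpa using hw), hinl _ (by simpa using hw')]; exact congrArg _ he)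
      simpa using this
    · intro b w hw
      obtain ⟨_, k, hk, h⟩ := s2 b w.reverse (by simpa using hw)
      refine ⟨k, hk, ?_⟩
      simp only [List.reverse_cons]
      rw [h]
  obtain ⟨τ, h1, h2, h3⟩ := exists_act_tree_of_depth (K ^ N) x₀ hD
  exact ⟨K ^ N, τ, h1, h2, h3⟩

end crit

end Pool.Agent.J6H4.Supra
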