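import Pool.Agent.J6H4.Supra.Stack

set_option autoImplicit false

namespace Pool.Agent.J6H4.Supra

open scoped ENNReal Pointwise
open Pool.Agent.Helper241Spread Pool.Agent.Helper241Spread.TTree

section fibre

lemma card_mod_fibre (C e j : ℕ) (he : e ≤ C) :
    (Finset.univ.filter fun a : Fin (2 ^ C) => (a : ℕ) % 2 ^ e = j).card ≤ 2 ^ (C - e) := by
  have : (Finset.univ.filter fun a : Fin (2 ^ C) => (a : ℕ) % 2 ^ e = j).card ≤
      (Finset.range (2 ^ (C - e))).card := by
    apply Finset.card_le_card_of_injOn (fun a : Fin (2 ^ C) => (a : ℕ) / 2 ^ e)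
    · intro a ha
      simp only [Finset.coe_range, Set.mem_Iio]
      rw [Nat.div_lt_iff_lt_mul (by positivity), ← pow_add, Nat.sub_add_cancel he]
      exact a.2
    · intro a ha b hb hab
      simp only [Finset.coe_filter, Finset.mem_univ, true_and, Set.mem_ofPred_eq] at ha hb
      simp only at hab
      apply Fin.ext
      rw [← Nat.div_add_mod (a : ℕ) (2 ^ e), ← Nat.div_add_mod (b : ℕ) (2 ^ e), hab, ha, hb]
  simpa using this

lemma unif_mod {Γ : Type*} (C e : ℕ) (he : e ≤ C) (f : ℕ → Γ)
    (hf : ∀ i j, i < 2 ^ e → j < 2 ^ e → f i = f j → i = j) (g : Γ) :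
    ((PMF.uniformOfFintype (Fin (2 ^ C))).map fun a : Fin (2 ^ C) => f ((a : ℕ) % 2 ^ e)) g ≤
      (2⁻¹ : ℝ≥0∞) ^ e := by
  classical
  rw [PMF.map_apply, tsum_fintype]
  by_cases hg : ∃ j, j < 2 ^ e ∧ f j = g
  · obtain ⟨j, hj, rfl⟩ := hg
    have h1 : ∀ a : Fin (2 ^ C), (f j = f ((a : ℕ) % 2 ^ e)) ↔ (a : ℕ) % 2 ^ e = j := by
      intro a
      constructor
      · intro h
        exact (hf _ _ hj (Nat.mod_lt _ (by positivity)) h).symm
      · intro h; rw [h]
    simp only [h1, PMF.uniformOfFintype_apply, Fintype.card_fin]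
    rw [← Finset.sum_filter, Finset.sum_const, nsmul_eq_mul]
    calc ((Finset.univ.filter fun a : Fin (2 ^ C) => (a : ℕ) % 2 ^ e = j).card : ℝ≥0∞) *
          ((2 ^ C : ℕ) : ℝ≥0∞)⁻¹ ≤ ((2 ^ (C - e) : ℕ) : ℝ≥0∞) * ((2 ^ C : ℕ) : ℝ≥0∞)⁻¹ := by
          gcongr
          exact card_mod_fibre C e j he
      _ = (2⁻¹ : ℝ≥0∞) ^ e := by
          push_cast
          rw [ENNReal.inv_pow]
          have : (2 : ℝ≥0∞) ^ C = 2 ^ (C - e) * 2 ^ e := by
            rw [← pow_add, Nat.sub_add_cancel he]
          rw [← ENNReal.inv_pow, this, ENNReal.mul_inv (by simp) (by simp), ← mul_assoc,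
            ENNReal.mul_inv_cancel (by simp) (by simp), one_mul, ENNReal.inv_pow]
  · have : ∀ a : Fin (2 ^ C), ¬ (g = f ((a : ℕ) % 2 ^ e)) := by
      intro a h
      exact hg ⟨_, Nat.mod_lt _ (by positivity), h.symm⟩
    simp [this]

end fibre

section tree

variable {Γ : Type*} [Group Γ] [DecidableEq Γ]

/-- An encoding tree of depth `k`. -/
structure ETree (C r : ℕ) (B : Finset Γ) (k : ℕ) (X : Finset Γ) (e : ℕ → ℕ)
    (enc : List (Fin (2 ^ C)) → Γ) : Prop where
  nil : enc [] = 1
  leaf : ∀ w, w.length = k → enc w ∈ X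
  step : ∀ a w, w.length < k → ∃ b ∈ B, enc (a :: w) = enc w * b
  par : ∀ i, i < k → ∃ par : Γ → Γ, ∀ a w, w.length = i → par (enc (a :: w)) = enc w
  prob : ∀ w, w.length < k → ∀ g,
    ((PMF.uniformOfFintype (Fin (2 ^ C))).map fun a => enc (a :: w)) g ≤
      (2⁻¹ : ℝ≥0∞) ^ (e w.length)
  le : ∀ i, e i ≤ r
  card : X.card ≤ (2 * (r + 1)) ^ k * 2 ^ (∑ i ∈ Finset.range k, e i)

theorem exists_etree (C r : ℕ) (hrC : r ≤ C) (B : Finset Γ) (hr : Nat.log 2 B.card ≤ r) (k : ℕ)
    (X : Finset Γ) (hX : X ⊆ B ^ k) (hne : X.Nonempty) :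
    ∃ e enc, ETree C r B k X e enc := by
  classical
  induction k generalizing X with
  | zero =>
    rw [pow_zero] at hX
    have hX1 : X = {1} := by
      rcases Finset.subset_singleton_iff.1 hX with h | h
      · exact absurd h hne.ne_empty
      · exact h
    refine ⟨fun _ => 0, fun _ => 1, ?_⟩
    constructor
    · rfl
    · intro w _; rw [hX1]; simp
    · intro a w h; omega
    · intro i h; omega
    · intro w h; omega
    · intro i; omega
    · simp [hX1]
  | succ k ih =>
    -- parents
    have hpar : ∀ g : Γ, ∃ p : Γ, g ∈ X → p ∈ B ^ k ∧ ∃ b ∈ B, g = p * b := by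
      intro g
      by_cases hg : g ∈ X
      · have := hX hg
        rw [pow_succ, Finset.mem_mul] at this
        obtain ⟨p, hp, b, hb, h⟩ := this
        exact ⟨p, fun _ => ⟨hp, b, hb, h.symm⟩⟩
      · exact ⟨1, fun h => absurd h hg⟩
    choose par hpar using hpar
    -- number of children
    set N : Γ → ℕ := fun v => (X.filter fun g => par g = v).card with hN
    have hNB : ∀ v, N v ≤ B.card := by
      intro v
      rw [hN]
      apply Finset.card_le_card_of_injOn (fun g => v⁻¹ * g)
      · intro g hg
        simp only [Finset.coe_filter, Set.mem_ofPred_eq] at hg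
        obtain ⟨_, b, hb, h⟩ := hpar g hg.1
        rw [hg.2] at h
        simp only [Finset.mem_coe]
        rw [h]
        simpa using hb
      · intro g _ g' _ h
        exact mul_left_cancel h
    set f : Γ → ℕ := fun g => Nat.log 2 (N (par g)) with hf
    have hfr : ∀ g, f g ≤ r := fun g => (Nat.log_mono_right (hNB _)).trans hr
    -- pigeonhole
    obtain ⟨e0, he0, hcard⟩ : ∃ e0 ≤ r, X.card ≤ (r + 1) * (X.filter fun g => f g = e0).card := by
      by_contra hcon
      push Not at hcon
      have h1 : X.card = ∑ e0 ∈ Finset.range (r + 1), (X.filter fun g => f g = e0).card :=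
        Finset.card_eq_sum_card_fiberwise (fun g _ => by
          simp only [Finset.coe_range, Set.mem_Iio]; have := hfr g; omega)
      have h2 : ∑ e0 ∈ Finset.range (r + 1), (r + 1) * (X.filter fun g => f g = e0).card <
          ∑ e0 ∈ Finset.range (r + 1), X.card := by
        apply Finset.sum_lt_sum_of_nonempty (by simp)
        intro e0 he0
        exact hcon e0 (by simp at he0; omega)
      rw [← Finset.mul_sum, ← h1] at h2
      simp at h2
    set F := X.filter fun g => f g = e0 with hF
    set X' := F.image par with hX'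
    have hFne : F.Nonempty := by
      rw [← Finset.card_pos]
      have := hne.card_pos
      by_contra hcon
      have h0 : F.card = 0 := by omega
      rw [h0] at hcard
      omega
    have hX'sub : X' ⊆ B ^ k := by
      intro v hv
      simp only [hX', Finset.mem_image] at hv
      obtain ⟨g, hg, rfl⟩ := hv
      exact (hpar g (Finset.mem_filter.1 hg).1).1
    obtain ⟨e', enc', T⟩ := ih X' hX'sub (hFne.image _)
    have hXv : ∀ v ∈ X', Nat.log 2 (N v) = e0 ∧ N v ≠ 0 := by
      intro v hv
      simp only [hX', Finset.mem_image] at hv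
      obtain ⟨g, hg, rfl⟩ := hv
      have hg' := Finset.mem_filter.1 hg
      refine ⟨hg'.2, ?_⟩
      rw [hN]
      simp only
      rw [Finset.card_ne_zero]
      exact ⟨g, by simp [hg'.1]⟩
    have hFcard : F.card ≤ 2 ^ (e0 + 1) * X'.card := by
      apply Finset.card_le_mul_card_image
      intro v hv
      have h1 := hXv v hv
      have h2 : (F.filter fun g => par g = v).card ≤ N v := by
        rw [hN]
        apply Finset.card_le_card
        intro g hg
        simp only [Finset.mem_filter, hF] at hg ⊢
        exact ⟨hg.1.1, hg.2⟩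
      have h3 : N v < 2 ^ (e0 + 1) := by
        rw [← h1.1]
        exact Nat.lt_pow_succ_log_self (by norm_num) _
      omega
    -- children
    have hch : ∀ v : Γ, ∃ c : ℕ → Γ, v ∈ X' →
        (∀ i, i < 2 ^ e0 → c i ∈ X ∧ par (c i) = v) ∧
        (∀ i j, i < 2 ^ e0 → j < 2 ^ e0 → c i = c j → i = j) := by
      intro v
      by_cases hv : v ∈ X'
      · have h1 := hXv v hv
        have h2 : 2 ^ e0 ≤ (X.filter fun g => par g = v).card := by
          have : 2 ^ e0 ≤ N v := by
            rw [← h1.1]
            exact Nat.pow_log_le_self 2 h1.2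
          exact this
        obtain ⟨t, ht, htc⟩ := Finset.exists_subset_card_eq h2
        have eqv := (Finset.equivFinOfCardEq htc).symm
        refine ⟨fun i => if h : i < 2 ^ e0 then (eqv ⟨i, h⟩ : Γ) else 1, fun _ => ⟨?_, ?_⟩⟩
        · intro i hi
          simp only [hi, dite_true]
          have := ht (eqv ⟨i, hi⟩).2
          simpa using this
        · intro i j hi hj hij
          simp only [hi, hj, dite_true] at hij
          have := eqv.injective (Subtype.ext hij)
          simpa using this
      · exact ⟨fun _ => 1, fun h => absurd h hv⟩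
    choose ch hch using hch
    -- the new encoder
    set enc : List (Fin (2 ^ C)) → Γ := fun w => match w with
      | [] => 1
      | a :: w => if w.length = k then ch (enc' w) ((a : ℕ) % 2 ^ e0) else enc' (a :: w) with henc
    have enc_le : ∀ w : List (Fin (2 ^ C)), w.length ≤ k → enc w = enc' w := by
      intro w hw
      rcases w with _ | ⟨a, w⟩
      · simp [henc, T.nil]
      · simp only [List.length_cons] at hw
        simp only [henc]
        rw [if_neg (by omega)]
    have enc_k : ∀ a (w : List (Fin (2 ^ C))), w.length = k →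
        enc (a :: w) = ch (enc' w) ((a : ℕ) % 2 ^ e0) := by
      intro a w hw
      simp only [henc]
      rw [if_pos hw]
    have hmod : ∀ a : ℕ, a % 2 ^ e0 < 2 ^ e0 := fun a => Nat.mod_lt _ (by positivity)
    refine ⟨Function.update e' k e0, enc, ?_⟩
    constructor
    · simp [henc]
    · intro w hw
      rcases w with _ | ⟨a, w⟩
      · simp at hw
      · simp only [List.length_cons, Nat.add_right_cancel_iff] at hw
        rw [enc_k a w hw]
        exact ((hch _ (T.leaf w hw)).1 _ (hmod _)).1
    · intro a w hw
      rcases Nat.lt_or_ge w.length k with h | h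
      · rw [enc_le (a :: w) (by simp only [List.length_cons]; omega), enc_le _ h.le]
        exact T.step a w h
      · have hk : w.length = k := by omega
        rw [enc_k a w hk, enc_le _ hk.le]
        have h1 := (hch _ (T.leaf w hk)).1 _ (hmod a)
        obtain ⟨_, b, hb, h2⟩ := hpar _ h1.1
        rw [h1.2] at h2
        exact ⟨b, hb, h2⟩
    · intro i hi
      rcases Nat.lt_or_ge i k with h | h
      · obtain ⟨p, hp⟩ := T.par i h
        refine ⟨p, fun a w hw => ?_⟩
        rw [enc_le (a :: w) (by simp only [List.length_cons]; omega), enc_le w (by omega)]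
        exact hp a w hw
      · have hk : i = k := by omega
        refine ⟨par, fun a w hw => ?_⟩
        rw [hk] at hw
        rw [enc_k a w hw, enc_le _ hw.le]
        exact ((hch _ (T.leaf w hw)).1 _ (hmod a)).2
    · intro w hw g
      rcases Nat.lt_or_ge w.length k with h | h
      · rw [Function.update_of_ne (by omega)]
        have : (fun a => enc (a :: w)) = fun a => enc' (a :: w) := by
          funext a
          exact enc_le (a :: w) (by simp only [List.length_cons]; omega)
        rw [this]
        exact T.prob w h g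
      · have hk : w.length = k := by omega
        rw [hk, Function.update_self]
        have : (fun a : Fin (2 ^ C) => enc (a :: w)) =
            fun a : Fin (2 ^ C) => ch (enc' w) ((a : ℕ) % 2 ^ e0) := by
          funext a
          exact enc_k a w hk
        rw [this]
        exact unif_mod C e0 (he0.trans hrC) _ (hch _ (T.leaf w hk)).2 g
    · intro i
      by_cases h : i = k
      · rw [h, Function.update_self]; exact he0
      · rw [Function.update_of_ne h]; exact T.le i
    · have hsum : ∑ i ∈ Finset.range (k + 1), Function.update e' k e0 i =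
          (∑ i ∈ Finset.range k, e' i) + e0 := by
        rw [Finset.sum_range_succ, Function.update_self]
        congr 1
        apply Finset.sum_congr rfl
        intro i hi
        simp only [Finset.mem_range] at hi
        rw [Function.update_of_ne (by omega)]
      rw [hsum]
      calc X.card ≤ (r + 1) * F.card := hcard
        _ ≤ (r + 1) * (2 ^ (e0 + 1) * X'.card) := by gcongr
        _ ≤ (r + 1) * (2 ^ (e0 + 1) *
            ((2 * (r + 1)) ^ k * 2 ^ (∑ i ∈ Finset.range k, e' i))) := by
            gcongr
            exact T.card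
        _ = _ := by ring

/-- spreading inside an encoding tree -/
lemma ETree.spread {C r : ℕ} {B : Finset Γ} {k : ℕ} {X : Finset Γ} {e : ℕ → ℕ}
    {enc : List (Fin (2 ^ C)) → Γ} (T : ETree C r B k X e enc) (n : ℕ)
    (w : List (Fin (2 ^ C))) (hw : w.length + n ≤ k) (g : Γ) :
    ((ext n w).map enc) g ≤ (2⁻¹ : ℝ≥0∞) ^ (∑ i ∈ Finset.range n, e (w.length + i)) := by
  induction n generalizing g with
  | zero =>
    simp only [Finset.range_zero, Finset.sum_empty, pow_zero]
    exact PMF.coe_le_one _ _
  | succ n ih =>
    obtain ⟨p, hp⟩ := T.par (w.length + n) (by omega)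
    rw [ext, PMF.map_bind, PMF.bind_apply]
    calc ∑' w', (ext n w) w' * ((((PMF.uniformOfFintype (Fin (2 ^ C))).map
            fun a => a :: w').map enc) g)
        ≤ ∑' w', (ext n w) w' * (if p g = enc w' then (2⁻¹ : ℝ≥0∞) ^ (e (w.length + n)) else 0) := by
          apply ENNReal.tsum_le_tsum
          intro w'
          by_cases hw' : w' ∈ (ext n w).support
          · have hlen := ext_length n w w' hw'
            gcongr
            rw [PMF.map_comp]
            split_ifs with h
            · have := T.prob w' (by omega) g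
              rw [hlen] at this
              exact this
            · rw [nonpos_iff_eq_zero, PMF.apply_eq_zero_iff]
              intro hmem
              simp only [PMF.mem_support_map_iff, Function.comp] at hmem
              obtain ⟨a, _, rfl⟩ := hmem
              exact h (hp a w' hlen)
          · rw [(PMF.apply_eq_zero_iff _ _).2 hw']
            simp
      _ = ((ext n w).map enc) (p g) * (2⁻¹ : ℝ≥0∞) ^ (e (w.length + n)) := by
          rw [PMF.map_apply, ← ENNReal.tsum_mul_right]
          apply tsum_congr
          intro w'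
          split_ifs <;> simp
      _ ≤ (2⁻¹ : ℝ≥0∞) ^ (∑ i ∈ Finset.range n, e (w.length + i)) *
            (2⁻¹ : ℝ≥0∞) ^ (e (w.length + n)) := by
          gcongr
          exact ih (by omega) _
      _ = _ := by rw [← pow_add, Finset.sum_range_succ]

end tree

section window

lemma half_pow_anti {a b : ℕ} (h : a ≤ b) : (2⁻¹ : ℝ≥0∞) ^ b ≤ (2⁻¹ : ℝ≥0∞) ^ a := by
  apply pow_le_pow_right_of_le_one' _ h
  rw [ENNReal.inv_le_one]
  norm_num

/-- a window of an encoding tree is a segment -/
noncomputable def segOf {Γ : Type*} [Group Γ] [DecidableEq Γ] {C r : ℕ} {B : Finset Γ} {k : ℕ}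
    {X : Finset Γ} {e : ℕ → ℕ} {enc : List (Fin (2 ^ C)) → Γ} (T : ETree C r B k X e enc)
    (p L : ℕ) (hpL : p + L ≤ k) : Seg Γ (insert 1 B) (Fin (2 ^ C)) where
  enc := fun w => (enc (List.replicate p default))⁻¹ *
    enc (w.drop (w.length - L) ++ List.replicate p default)
  D := fun j => ∑ i ∈ Finset.range (min j L), e (p + i)
  enc_nil := by simp
  enc_cons := by
    intro a w
    rcases Nat.lt_or_ge w.length L with h | h
    · have h1 : (a :: w).length - L = 0 := by simp; omega
      have h2 : w.length - L = 0 := by omega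
      simp only [h1, h2, List.drop_zero, List.cons_append]
      obtain ⟨b, hb, h3⟩ := T.step a (w ++ List.replicate p default) (by simp; omega)
      exact ⟨b, by simp [hb], by rw [h3, mul_assoc]⟩
    · have h1 : (a :: w).length - L = (w.length - L) + 1 := by simp; omega
      rw [h1, List.drop_succ_cons]
      exact ⟨1, by simp, by simp⟩
  spread := by
    intro n w g
    set w0 : List (Fin (2 ^ C)) := List.replicate p default with hw0
    have hw0l : w0.length = p := by simp [hw0]
    rcases Nat.lt_or_ge L w.length with h | h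
    · -- beyond the end
      have h1 : min (w.length + n) L = min w.length L := by omega
      rw [h1, Nat.sub_self, pow_zero]
      exact PMF.coe_le_one _ _
    · -- number of effective letters
      set n1 := min n (L - w.length) with hn1
      obtain ⟨n2, hn2⟩ : ∃ n2, n = n1 + n2 := ⟨n - n1, by omega⟩
      have e1 : (ext n w).map (fun w' : List (Fin (2 ^ C)) => w'.drop (w'.length - L)) =
          ext n1 w := by
        have h2 : (ext n w).map (fun w' : List (Fin (2 ^ C)) => w'.drop (w'.length - L)) =
            (ext n w).map (fun w' : List (Fin (2 ^ C)) => w'.drop n2) := by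
          apply pmf_map_congr
          intro w' hw'
          have := ext_length n w w' hw'
          congr 1
          omega
        rw [h2, hn2, ext_drop]
      have e2 : (ext n w).map (fun w' : List (Fin (2 ^ C)) => (enc w0)⁻¹ *
          enc (w'.drop (w'.length - L) ++ w0)) =
          (ext n1 (w ++ w0)).map (fun w' => (enc w0)⁻¹ * enc w') := by
        have h3 : ext n1 (w ++ w0) = (ext n1 w).map (fun v => v ++ w0) := by
          rw [← ext_append n1 (w ++ w0), ← ext_append n1 w, PMF.map_comp]
          congr 1
          funext v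
          simp
        rw [h3, ← e1, PMF.map_comp, PMF.map_comp]
        rfl
      rw [e2, pmf_map_mul_left]
      refine (T.spread n1 (w ++ w0) (by simp [hw0l]; omega) _).trans ?_
      apply half_pow_anti
      have h4 : min (w.length + n) L = w.length + n1 := by omega
      have h5 : min w.length L = w.length := by omega
      rw [h4, h5, Finset.sum_range_add]
      simp only [List.length_append, hw0l, Nat.add_sub_cancel_left]
      apply le_of_eq
      apply Finset.sum_congr rfl
      intro i _
      congr 1
      ring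

end window

section choice

/-- the maximal window -/
lemma exists_window (e : ℕ → ℕ) (n : ℕ) (h : 4 * n ≤ ∑ i ∈ Finset.range n, e i) :
    ∃ p L, p + L ≤ n ∧
      (∀ x ≤ L, 2 * x ≤ ∑ i ∈ Finset.range x, e (p + i)) ∧
      (∀ x ≤ L, (∑ i ∈ Finset.range x, e (p + i)) + 2 * (L - x) ≤
        ∑ i ∈ Finset.range L, e (p + i)) ∧
      2 * n ≤ ∑ i ∈ Finset.range L, e (p + i) := by
  set S : ℕ → ℤ := fun i => (∑ j ∈ Finset.range i, (e j : ℤ)) - 2 * i with hS
  obtain ⟨⟨p, L⟩, hpL, hmax⟩ := Finset.exists_max_image
    ((Finset.range (n + 1) ×ˢ Finset.range (n + 1)).filter fun q => q.1 + q.2 ≤ n)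
    (fun q => S (q.1 + q.2) - S q.1) ⟨(0, 0), by simp⟩
  simp only [Finset.mem_filter, Finset.mem_product, Finset.mem_range] at hpL hmax
  have hsum : ∀ x, ((∑ i ∈ Finset.range x, e (p + i) : ℕ) : ℤ) = S (p + x) - S p + 2 * x := by
    intro x
    simp only [hS]
    rw [Finset.sum_range_add]
    push_cast
    ring
  refine ⟨p, L, hpL.2, ?_, ?_, ?_⟩
  · intro x hx
    have h1 := hmax (p + x, L - x) ⟨⟨by omega, by omega⟩, by omega⟩
    simp only at h1
    rw [show p + x + (L - x) = p + L by omega] at h1
    have h2 := hsum x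
    zify
    push_cast at h2 ⊢
    linarith
  · intro x hx
    have h1 := hmax (p, x) ⟨⟨by omega, by omega⟩, by omega⟩
    simp only at h1
    have h2 := hsum x
    have h3 := hsum L
    zify [hx]
    push_cast at h2 h3 ⊢
    linarith
  · have h1 := hmax (0, n) ⟨⟨by omega, by omega⟩, by omega⟩
    simp only at h1
    have h3 := hsum L
    have h4 : S (0 + n) - S 0 = (∑ j ∈ Finset.range n, (e j : ℤ)) - 2 * n := by
      simp [hS]
    rw [h4] at h1
    have h5 : (4 * (n : ℤ)) ≤ ∑ j ∈ Finset.range n, (e j : ℤ) := by exact_mod_cast h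
    zify
    push_cast at h3 ⊢
    have h6 : (0 : ℤ) ≤ L := by positivity
    linarith

/-- **Segments from growth.** -/
theorem exists_segments {Γ : Type*} [Group Γ] [DecidableEq Γ] (B : Finset Γ) (C r : ℕ)
    (hrC : r ≤ C) (hr : Nat.log 2 B.card ≤ r)
    (hB : ∀ n, (32 * (r + 1)) ^ n ≤ (B ^ n).card) (m : ℕ) (hm : 1 ≤ m) :
    ∃ (S : Seg Γ (insert 1 B) (Fin (2 ^ C))) (L : ℕ), S.D 0 = 0 ∧ Monotone S.D ∧
      (∀ i, S.D (i + 1) ≤ S.D i + C) ∧ (∀ i ≤ L, 2 * i ≤ S.D i) ∧
      (∀ i ≤ L, S.D i + 2 * (L - i) ≤ S.D L) ∧ m ≤ L ∧ L ≤ C * m := by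
  set k := r * m with hk
  have hne : (B ^ k).Nonempty := by
    rw [← Finset.card_pos]
    exact lt_of_lt_of_le (by positivity) (hB k)
  obtain ⟨e, enc, T⟩ := exists_etree C r hrC B hr k (B ^ k) (Finset.Subset.refl _) hne
  have hsum : 4 * k ≤ ∑ i ∈ Finset.range k, e i := by
    have h1 := (hB k).trans T.card
    have h2 : (32 * (r + 1)) ^ k = (2 * (r + 1)) ^ k * 2 ^ (4 * k) := by
      rw [pow_mul 2 4 k, ← mul_pow]
      congr 1
      ring
    rw [h2] at h1
    have h3 := Nat.le_of_mul_le_mul_left h1 (by positivity)
    exact (Nat.pow_le_pow_iff_right (by norm_num)).1 h3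
  have hr1 : 1 ≤ r := by
    by_contra hcon
    have h0 : r = 0 := by omega
    have h1 := hB 1
    rw [h0] at h1 hr
    simp only [Nat.zero_add, mul_one, pow_one] at h1
    have h2 : 5 ≤ Nat.log 2 B.card := Nat.le_log_of_pow_le (by norm_num) (by omega)
    omega
  obtain ⟨p, L, hpL, hpre, hsuf, htot⟩ := exists_window e k hsum
  have hmono : Monotone fun j => ∑ i ∈ Finset.range (min j L), e (p + i) := by
    intro a b hab
    apply Finset.sum_le_sum_of_subset
    intro i hi
    simp only [Finset.mem_range] at hi ⊢
    omega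
  have hLm : m ≤ L := by
    have h1 : ∑ i ∈ Finset.range L, e (p + i) ≤ L * r := by
      calc ∑ i ∈ Finset.range L, e (p + i) ≤ ∑ i ∈ Finset.range L, r :=
            Finset.sum_le_sum fun i _ => T.le _
        _ = L * r := by simp
    have h2 : 2 * (r * m) ≤ L * r := by rw [← hk]; exact htot.trans h1
    have h3 : r * (2 * m) ≤ r * L := by linarith
    have h4 := Nat.le_of_mul_le_mul_left h3 (by omega)
    omega
  refine ⟨segOf T p L hpL, L, ?_, hmono, ?_, ?_, ?_, hLm, ?_⟩
  · simp [segOf]
  · intro i
    simp only [segOf]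
    rcases Nat.lt_or_ge i L with h | h
    · rw [show min (i + 1) L = i + 1 by omega, show min i L = i by omega, Finset.sum_range_succ]
      have := T.le (p + i)
      omega
    · rw [show min (i + 1) L = L by omega, show min i L = L by omega]
      omega
  · intro i hi
    simp only [segOf]
    rw [min_eq_left hi]
    exact hpre i hi
  · intro i hi
    simp only [segOf]
    rw [min_eq_left hi, min_self]
    exact hsuf i hi
  · calc L ≤ k := by omega
      _ ≤ C * m := by rw [hk]; exact Nat.mul_le_mul_right _ hrC

end choice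

end Pool.Agent.J6H4.Supra
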