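import Pool.Agent.J6H4.Supra.Products

set_option autoImplicit false

namespace Pool.Agent.J6H4.Supra

open scoped ENNReal Pointwise Topology
open Filter

section

variable {Γ Δ : Type*} [Group Γ] [Group Δ]

lemma one_le_card_ball (S : Finset Γ) (n : ℕ) : (1 : ℝ) ≤ ((Nat.card (ball S n) : ℕ) : ℝ) := by
  classical
  have : 1 ≤ Nat.card (ball S n) := by
    rw [Nat.card_coe_set_eq, ball_eq, Set.ncard_coe_finset, Nat.one_le_iff_ne_zero,
      Finset.card_ne_zero]
    exact ⟨1, Finset.one_mem_pow (by simp)⟩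
  exact_mod_cast this

lemma ball_finite (S : Finset Γ) (n : ℕ) : (ball S n).Finite := by
  classical
  rw [ball_eq]; exact Finset.finite_toSet _

lemma ball_map (π : Γ →* Δ) [DecidableEq Δ] (S : Finset Γ) (n : ℕ) (g : Γ) (hg : g ∈ ball S n) :
    π g ∈ ball (S.image π) n := by
  obtain ⟨l, h1, h2, rfl⟩ := hg
  refine ⟨l.map π, by simpa using h1, ?_, by rw [map_list_prod]⟩
  intro x hx
  rw [List.mem_map] at hx
  obtain ⟨y, hy, rfl⟩ := hx
  rcases h2 y hy with h | h
  · left; exact Finset.mem_image_of_mem _ h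
  · right; rw [← map_inv]; exact Finset.mem_image_of_mem _ h

/-- lifting of balls along a homomorphism that covers the generators -/
lemma ball_lift (π : Γ →* Δ) [DecidableEq Γ] (S : Finset Δ) (S' : Finset Γ)
    (hS : ∀ s ∈ S, ∃ s' ∈ S', π s' = s) (n : ℕ) : ball S n ⊆ π '' ball S' n := by
  rintro g ⟨l, h1, h2, rfl⟩
  induction l generalizing n with
  | nil => exact ⟨1, ⟨[], by simp, by simp, by simp⟩, by simp⟩
  | cons x l ih =>
    simp only [List.length_cons] at h1
    obtain ⟨m, rfl⟩ : ∃ m, n = m + 1 := ⟨n - 1, by omega⟩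
    obtain ⟨g, ⟨l', h3, h4, rfl⟩, h5⟩ := ih m (by omega) (fun y hy => h2 y (by simp [hy]))
    rcases h2 x (by simp) with h | h
    · obtain ⟨s', hs', h6⟩ := hS x h
      refine ⟨(s' :: l').prod, ⟨s' :: l', by simp; omega, ?_, rfl⟩, ?_⟩
      · intro y hy
        rw [List.mem_cons] at hy
        rcases hy with rfl | hy
        · exact Or.inl hs'
        · exact h4 y hy
      · rw [List.prod_cons, map_mul, h5, h6, List.prod_cons]
    · obtain ⟨s', hs', h6⟩ := hS x⁻¹ h
      refine ⟨(s'⁻¹ :: l').prod, ⟨s'⁻¹ :: l', by simp; omega, ?_, rfl⟩, ?_⟩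
      · intro y hy
        rw [List.mem_cons] at hy
        rcases hy with rfl | hy
        · exact Or.inr (by rwa [inv_inv])
        · exact h4 y hy
      · rw [List.prod_cons, map_mul, map_inv, h5, h6, List.prod_cons, inv_inv]

lemma tendsto_of_card_le {S : Finset Γ} {S' : Finset Δ}
    (h : Tendsto (fun n : ℕ => ((Nat.card (ball S' n) : ℕ) : ℝ) ^ (1 / (n : ℝ))) atTop (𝓝 1))
    (hle : ∀ n, Nat.card (ball S n) ≤ Nat.card (ball S' n)) :
    Tendsto (fun n : ℕ => ((Nat.card (ball S n) : ℕ) : ℝ) ^ (1 / (n : ℝ))) atTop (𝓝 1) := by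
  refine tendsto_of_tendsto_of_tendsto_of_le_of_le tendsto_const_nhds h ?_ ?_
  · intro n
    exact Real.one_le_rpow (one_le_card_ball S n) (by positivity)
  · intro n
    exact Real.rpow_le_rpow (by positivity) (by exact_mod_cast hle n) (by positivity)

lemma expBounded_of_surjective (π : Γ →* Δ) (hπ : Function.Surjective π)
    (h : ExponentiallyBounded Γ) : ExponentiallyBounded Δ := by
  classical
  intro S
  choose f hf using hπ
  refine tendsto_of_card_le (h (S.image f)) fun n => ?_
  have h1 := ball_lift π S (S.image f)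
    (fun s hs => ⟨f s, Finset.mem_image_of_mem _ hs, hf s⟩) n
  rw [Nat.card_coe_set_eq, Nat.card_coe_set_eq]
  exact (Set.ncard_le_ncard h1 ((ball_finite _ n).image _)).trans
    (Set.ncard_image_le (ball_finite _ n))

lemma expBounded_prod {G H : Type*} [Group G] [Group H] (hG : ExponentiallyBounded G)
    (hH : ExponentiallyBounded H) : ExponentiallyBounded (G × H) := by
  classical
  intro S
  have h1 := hG (S.image (MonoidHom.fst G H))
  have h2 := hH (S.image (MonoidHom.snd G H))
  have h3 := h1.mul h2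
  rw [mul_one] at h3
  refine tendsto_of_tendsto_of_tendsto_of_le_of_le tendsto_const_nhds h3 ?_ ?_
  · intro n
    exact Real.one_le_rpow (one_le_card_ball S n) (by positivity)
  · intro n
    simp only
    rw [← Real.mul_rpow (by positivity) (by positivity)]
    refine Real.rpow_le_rpow (by positivity) ?_ (by positivity)
    have h4 : Nat.card (ball S n) ≤ Nat.card (ball (S.image (MonoidHom.fst G H)) n) *
        Nat.card (ball (S.image (MonoidHom.snd G H)) n) := by
      rw [Nat.card_coe_set_eq, Nat.card_coe_set_eq, Nat.card_coe_set_eq, ← Set.ncard_prod]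
      refine Set.ncard_le_ncard ?_ ((ball_finite _ n).prod (ball_finite _ n))
      intro g hg
      exact ⟨ball_map (MonoidHom.fst G H) S n g hg, ball_map (MonoidHom.snd G H) S n g hg⟩
    exact_mod_cast h4

lemma expBounded_of_local (h : ∀ S : Finset Γ, ∃ K : Subgroup Γ, (S : Set Γ) ⊆ K ∧
    ExponentiallyBounded K) : ExponentiallyBounded Γ := by
  classical
  intro S
  obtain ⟨K, hK, h1⟩ := h S
  set S' : Finset K := S.subtype (· ∈ K) with hS'
  refine tendsto_of_card_le (h1 S') fun n => ?_
  have h2 := ball_lift K.subtype S S'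
    (fun s hs => ⟨⟨s, hK hs⟩, by simp [hS', hs], rfl⟩) n
  rw [Nat.card_coe_set_eq, Nat.card_coe_set_eq]
  exact (Set.ncard_le_ncard h2 ((ball_finite _ n).image _)).trans
    (Set.ncard_image_le (ball_finite _ n))

/-- the homomorphism of two commuting subgroups -/
lemma exists_hom_sup (A B : Subgroup Γ) (hcomm : ∀ a ∈ A, ∀ b ∈ B, a * b = b * a) :
    ∃ π : A × B →* (A ⊔ B : Subgroup Γ), Function.Surjective π := by
  have hc : ∀ (a : A) (b : B), Commute (A.subtype a) (B.subtype b) :=
    fun a b => hcomm a a.2 b b.2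
  have hr : (A.subtype.noncommCoprod B.subtype hc).range = A ⊔ B := by
    rw [MonoidHom.noncommCoprod_range, Subgroup.range_subtype, Subgroup.range_subtype]
  refine ⟨(MulEquiv.subgroupCongr hr).toMonoidHom.comp
    (A.subtype.noncommCoprod B.subtype hc).rangeRestrict, ?_⟩
  exact (MulEquiv.subgroupCongr hr).surjective.comp
    (MonoidHom.rangeRestrict_surjective _)

lemma expBounded_sup (A B : Subgroup Γ) (hcomm : ∀ a ∈ A, ∀ b ∈ B, a * b = b * a)
    (hA : ExponentiallyBounded A) (hB : ExponentiallyBounded B) :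
    ExponentiallyBounded (A ⊔ B : Subgroup Γ) := by
  obtain ⟨π, hπ⟩ := exists_hom_sup A B hcomm
  exact expBounded_of_surjective π hπ (expBounded_prod hA hB)

lemma comm_biSup {ι : Type*} (H : ι → Subgroup Γ) (A : Subgroup Γ) (p : ι → Prop)
    (h : ∀ i, p i → ∀ a ∈ A, ∀ x ∈ H i, a * x = x * a) :
    ∀ a ∈ A, ∀ x ∈ (⨆ i, ⨆ _ : p i, H i : Subgroup Γ), a * x = x * a := by
  intro a ha x hx
  have : (⨆ i, ⨆ _ : p i, H i : Subgroup Γ) ≤ Subgroup.centralizer {a} := by
    refine iSup₂_le fun i hi => ?_
    intro y hy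
    rw [Subgroup.mem_centralizer_singleton_iff]
    exact (h i hi a ha y hy).symm
  exact (Subgroup.mem_centralizer_singleton_iff.1 (this hx)).symm

lemma expBounded_bot : ExponentiallyBounded (⊥ : Subgroup Γ) := by
  intro S
  have : ∀ n : ℕ, ((Nat.card (ball S n) : ℕ) : ℝ) = 1 := by
    intro n
    have h1 : Nat.card (ball S n) ≤ 1 := by
      rw [Nat.card_coe_set_eq]
      exact Set.ncard_le_one_of_subsingleton _
    have h2 := one_le_card_ball S n
    have h3 : ((Nat.card (ball S n) : ℕ) : ℝ) ≤ 1 := by exact_mod_cast h1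
    linarith
  simp only [this, Real.one_rpow]
  exact tendsto_const_nhds

/-- subgroups generated by pairwise commuting exponentially bounded subgroups -/
lemma expBounded_iSup {ι : Type*} (H : ι → Subgroup Γ)
    (hcomm : ∀ i j, i ≠ j → ∀ x ∈ H i, ∀ y ∈ H j, x * y = y * x)
    (hH : ∀ i, ExponentiallyBounded (H i)) : ExponentiallyBounded (⨆ i, H i : Subgroup Γ) := by
  classical
  have hfin : ∀ J : Finset ι, ExponentiallyBounded (⨆ i ∈ J, H i : Subgroup Γ) := by
    intro J
    induction J using Finset.induction_on with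
    | empty =>
      have : (⨆ i ∈ (∅ : Finset ι), H i : Subgroup Γ) = ⊥ := by simp
      rw [this]
      exact expBounded_bot
    | insert i J hi ih =>
      rw [Finset.iSup_insert]
      refine expBounded_sup _ _ ?_ (hH i) ih
      refine comm_biSup H (H i) (fun j => j ∈ J) ?_
      intro j hj a ha x hx
      exact hcomm i j (by rintro rfl; exact hi hj) a ha x hx
  have hdir : Directed (· ≤ ·) (fun J : Finset ι => (⨆ i ∈ J, H i : Subgroup Γ)) := by
    intro J J'
    refine ⟨J ∪ J', ?_, ?_⟩
    · exact biSup_mono fun i hi => Finset.mem_union_left _ hi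
    · exact biSup_mono fun i hi => Finset.mem_union_right _ hi
  apply expBounded_of_local
  intro S
  have hex : ∀ x : (⨆ i, H i : Subgroup Γ), ∃ J : Finset ι, (x : Γ) ∈ (⨆ i ∈ J, H i : Subgroup Γ) := by
    have h0 : ∀ y : Γ, y ∈ (⨆ i, H i : Subgroup Γ) →
        ∃ J : Finset ι, y ∈ (⨆ i ∈ J, H i : Subgroup Γ) := by
      intro y hy
      rw [iSup_eq_iSup_finset, Subgroup.mem_iSup_of_directed hdir] at hy
      exact hy
    exact fun x => h0 x x.2
  choose J hJ using hex
  set J' : Finset ι := S.biUnion J with hJ'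
  have hle : (⨆ i ∈ J', H i : Subgroup Γ) ≤ ⨆ i, H i :=
    iSup₂_le fun i _ => le_iSup H i
  refine ⟨(⨆ i ∈ J', H i : Subgroup Γ).subgroupOf (⨆ i, H i), ?_, ?_⟩
  · intro x hx
    rw [SetLike.mem_coe, Subgroup.mem_subgroupOf]
    have h1 : (⨆ i ∈ J x, H i : Subgroup Γ) ≤ ⨆ i ∈ J', H i :=
      biSup_mono fun i hi => Finset.mem_biUnion.2 ⟨x, hx, hi⟩
    exact h1 (hJ x)
  · exact expBounded_of_injective (Subgroup.subgroupOfEquivOfLe hle).toMonoidHom
      (Subgroup.subgroupOfEquivOfLe hle).injective (hfin J')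

/-- **Groups generated by pairwise commuting subgroups.** -/
theorem supramenable_iff_of_commuting_family {ι : Type*} (H : ι → Subgroup Γ)
    (hcomm : ∀ i j, i ≠ j → ∀ x ∈ H i, ∀ y ∈ H j, x * y = y * x) (hgen : ⨆ i, H i = ⊤) :
    Supramenable Γ ↔ (∀ i, Supramenable (H i)) ∧
      ∀ i j, i ≠ j → ExponentiallyBounded (H i) ∨ ExponentiallyBounded (H j) := by
  classical
  constructor
  · intro h
    refine ⟨fun i => supramenable_of_injective (H i).subtype (H i).subtype_injective h, ?_⟩
    intro i j hij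
    exact expBounded_or_of_supramenable (H i) (H j) (hcomm i j hij) h
  · rintro ⟨h1, h2⟩
    by_cases h : ∃ i, ¬ ExponentiallyBounded (H i)
    · obtain ⟨i, hi⟩ := h
      have h3 : ∀ j, j ≠ i → ExponentiallyBounded (H j) := by
        intro j hj
        rcases h2 i j (Ne.symm hj) with h | h
        · exact absurd h hi
        · exact h
      set C : Subgroup Γ := ⨆ j : {j // j ≠ i}, H j with hC
      have hCb : ExponentiallyBounded C := by
        refine expBounded_iSup (fun j : {j // j ≠ i} => H j) ?_ fun j => h3 j j.2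
        intro j k hjk
        exact hcomm j k (fun he => hjk (Subtype.ext he))
      have hcC : ∀ a ∈ H i, ∀ x ∈ C, a * x = x * a := by
        intro a ha x hx
        rw [hC, iSup_subtype] at hx
        exact comm_biSup H (H i) (fun j => j ≠ i)
          (fun j hj a ha x hx => hcomm i j (Ne.symm hj) a ha x hx) a ha x hx
      have hsup : H i ⊔ C = ⊤ := by
        rw [eq_top_iff, ← hgen]
        refine iSup_le fun j => ?_
        by_cases hj : j = i
        · subst hj; exact le_sup_left
        · exact le_trans (le_iSup (fun j : {j // j ≠ i} => H j) ⟨j, hj⟩) le_sup_right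
      obtain ⟨π, hπ⟩ := exists_hom_sup (H i) C hcC
      have h4 := supramenable_of_surjective π hπ (supramenable_prod_right (h1 i) hCb)
      rw [hsup] at h4
      exact supramenable_of_surjective (Subgroup.topEquiv (G := Γ)).toMonoidHom
        (Subgroup.topEquiv (G := Γ)).surjective h4
    · push Not at h
      have h4 := supramenable_of_expBounded (expBounded_iSup H hcomm h)
      rw [hgen] at h4
      exact supramenable_of_surjective (Subgroup.topEquiv (G := Γ)).toMonoidHom
        (Subgroup.topEquiv (G := Γ)).surjective h4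

end

end Pool.Agent.J6H4.Supra
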