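import Pool.Agent.J6H4.Supra.Main
import Pool.Agent.N485.BT.Product

set_option autoImplicit false

namespace Pool.Agent.J6H4.Supra

open scoped ENNReal Pointwise Topology
open Filter

section

variable {G : Type*} [Group G]

lemma ball_eq [DecidableEq G] (S : Finset G) (n : ℕ) :
    ball S n = (((insert 1 (S ∪ S⁻¹)) ^ n : Finset G) : Set G) := by
  induction n with
  | zero =>
    ext g
    simp only [ball, Set.mem_ofPred_eq, pow_zero, Finset.coe_one, Set.mem_one]
    constructor
    · rintro ⟨l, h1, _, rfl⟩
      have : l = [] := List.length_eq_zero_iff.mp (by omega)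
      simp [this]
    · rintro rfl
      exact ⟨[], by simp, by simp, by simp⟩
  | succ n ih =>
    ext g
    rw [pow_succ, Finset.coe_mul, Set.mem_mul]
    constructor
    · rintro ⟨l, h1, h2, rfl⟩
      rcases List.eq_nil_or_concat l with rfl | ⟨l', x, rfl⟩
      · refine ⟨1, ?_, 1, by simp, by simp⟩
        rw [← ih]
        exact ⟨[], by simp, by simp, by simp⟩
      · simp only [List.concat_eq_append] at h1 h2 ⊢
        refine ⟨l'.prod, ?_, x, ?_, by simp⟩
        · rw [← ih]
          refine ⟨l', ?_, fun y hy => h2 y (by simp [hy]), rfl⟩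
          simp only [List.length_append, List.length_singleton] at h1
          omega
        · rcases h2 x (by simp) with h | h
          · simp [h]
          · simp only [Finset.coe_insert, Finset.coe_union, Finset.coe_inv, Set.mem_insert_iff,
              Set.mem_union, Finset.mem_coe, Set.mem_inv]
            right; right; exact h
    · rintro ⟨a, ha, x, hx, rfl⟩
      rw [← ih] at ha
      obtain ⟨l, h1, h2, rfl⟩ := ha
      simp only [Finset.coe_insert, Finset.coe_union, Finset.coe_inv, Set.mem_insert_iff,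
        Set.mem_union, Finset.mem_coe, Set.mem_inv] at hx
      rcases hx with rfl | hx
      · exact ⟨l, by omega, h2, by simp⟩
      · refine ⟨l ++ [x], by simp; omega, ?_, by simp⟩
        intro y hy
        simp only [List.mem_append, List.mem_singleton] at hy
        rcases hy with hy | rfl
        · exact h2 y hy
        · exact hx

/-- The growth dichotomy for the powers of a finite set containing `1`. -/
lemma growth_dichotomy [DecidableEq G] (T : Finset G) (h1 : (1 : G) ∈ T) :
    Tendsto (fun n : ℕ => (((T ^ n).card : ℕ) : ℝ) ^ (1 / (n : ℝ))) atTop (𝓝 1) ∨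
      ∃ c : ℝ, 1 < c ∧ ∀ n : ℕ, c ^ n ≤ ((T ^ n).card : ℝ) := by
  have hpos : ∀ n : ℕ, 1 ≤ (T ^ n).card := by
    intro n
    rw [Nat.one_le_iff_ne_zero, Finset.card_ne_zero]
    exact ⟨1, Finset.one_mem_pow h1⟩
  have hposR : ∀ n : ℕ, (1 : ℝ) ≤ ((T ^ n).card : ℝ) := fun n => by exact_mod_cast hpos n
  set u : ℕ → ℝ := fun n => Real.log ((T ^ n).card : ℝ) with hu
  have hu0 : ∀ n, 0 ≤ u n := fun n => Real.log_nonneg (hposR n)
  have hsub : Subadditive u := by
    intro m n
    have h2 : ((T ^ (m + n)).card : ℝ) ≤ ((T ^ m).card : ℝ) * ((T ^ n).card : ℝ) := by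
      rw [pow_add]
      exact_mod_cast Finset.card_mul_le
    calc u (m + n) ≤ Real.log (((T ^ m).card : ℝ) * ((T ^ n).card : ℝ)) :=
          Real.log_le_log (by have := hposR (m + n); linarith) h2
      _ = u m + u n := Real.log_mul (by have := hposR m; linarith) (by have := hposR n; linarith)
  have hbdd : BddBelow (Set.range fun n => u n / n) := by
    refine ⟨0, ?_⟩
    rintro _ ⟨n, rfl⟩
    exact div_nonneg (hu0 n) (by positivity)
  have hlim := hsub.tendsto_lim hbdd
  have hlim0 : 0 ≤ hsub.lim := by
    apply ge_of_tendsto hlim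
    exact Eventually.of_forall fun n => div_nonneg (hu0 n) (by positivity)
  rcases hlim0.eq_or_lt with h0 | h0
  · left
    rw [← h0] at hlim
    have h3 := (Real.continuous_exp.tendsto 0).comp hlim
    rw [Real.exp_zero] at h3
    refine h3.congr fun n => ?_
    simp only [Function.comp, hu]
    rw [Real.rpow_def_of_pos (by have := hposR n; linarith)]
    congr 1
    ring
  · right
    refine ⟨Real.exp hsub.lim, by rw [← Real.exp_zero]; exact Real.exp_lt_exp.2 h0, fun n => ?_⟩
    rcases Nat.eq_zero_or_pos n with rfl | hn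
    · simp
    · have h4 := hsub.lim_le_div hbdd (show n ≠ 0 by omega)
      have hn' : (0 : ℝ) < n := by exact_mod_cast hn
      rw [le_div_iff₀ hn'] at h4
      calc Real.exp hsub.lim ^ n = Real.exp (hsub.lim * n) := by
            rw [← Real.exp_nat_mul]; ring_nf
        _ ≤ Real.exp (u n) := Real.exp_le_exp.2 h4
        _ = _ := Real.exp_log (by have := hposR n; linarith)

/-- A group which is not exponentially bounded has a finite subset of exponential growth. -/
lemma exists_growing (h : ¬ ExponentiallyBounded G) [DecidableEq G] :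
    ∃ T : Finset G, ∃ c : ℝ, 1 < c ∧ ∀ n : ℕ, c ^ n ≤ ((T ^ n).card : ℝ) := by
  unfold ExponentiallyBounded at h
  push Not at h
  obtain ⟨S, hS⟩ := h
  refine ⟨insert 1 (S ∪ S⁻¹), ?_⟩
  rcases growth_dichotomy (insert 1 (S ∪ S⁻¹)) (by simp) with h | h
  · exfalso
    apply hS
    refine h.congr fun n => ?_
    rw [Nat.card_coe_set_eq, ball_eq, Set.ncard_coe_finset]
  · exact h

/-- Exponential boundedness in the sense of the starting files. -/
lemma expBounded_of (h : ExponentiallyBounded G) : Pool.Agent.N485.BT.ExpBounded G := by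
  classical
  intro S b hb
  have h1 := h S
  have h2 : ∀ᶠ n : ℕ in atTop, ((Nat.card (ball S n) : ℕ) : ℝ) ^ (1 / (n : ℝ)) < b :=
    h1.eventually_lt_const hb
  obtain ⟨n0, hn0⟩ := eventually_atTop.mp (h2.and (eventually_ge_atTop 1))
  refine ⟨n0, fun n hn => ?_⟩
  obtain ⟨h3, h4⟩ := hn0 n hn
  have hn' : (n : ℝ) ≠ 0 := by
    have : n ≠ 0 := by omega
    exact_mod_cast this
  have h5 : (((Nat.card (ball S n) : ℕ) : ℝ) ^ (1 / (n : ℝ))) ^ n =
      ((Nat.card (ball S n) : ℕ) : ℝ) := by
    rw [← Real.rpow_natCast, ← Real.rpow_mul (by positivity), one_div_mul_cancel hn',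
      Real.rpow_one]
  calc (Nat.card {g : G | Pool.Agent.N485.BT.InB S n g} : ℝ)
      = ((Nat.card (ball S n) : ℕ) : ℝ) := by rfl
    _ = (((Nat.card (ball S n) : ℕ) : ℝ) ^ (1 / (n : ℝ))) ^ n := h5.symm
    _ ≤ b ^ n := by gcongr

end

end Pool.Agent.J6H4.Supra
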