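import Pool.Agent.J6H4.Supra.Sched

set_option autoImplicit false

namespace Pool.Agent.J6H4.Supra

variable {C : ℕ}

/-- new content of a component -/
def cont (S : SegData C) (c : ℕ × ℕ × ℕ) : ℕ := S.D c.1 c.2.1 - S.D c.1 c.2.2

def Big (𝒟 : Bool → SegData C) (a : ℕ) (st : St) : Prop :=
  ∃ τ, ∃ c ∈ st τ, a ≤ (C + 3) * cont (𝒟 τ) c + 2

def Has (𝒟 : Bool → SegData C) (x : ℕ) (st : St) : Prop :=
  x = 0 ∨ ∃ τ, ∃ c ∈ st τ, x ≤ cont (𝒟 τ) c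

lemma big_of {𝒟 : Bool → SegData C} {st : St} (hne : ∃ τ, ∃ c, c ∈ st τ) {x y z a : ℕ}
    (hx : Has 𝒟 x st) (hy : Has 𝒟 y st) (hz : Has 𝒟 z st)
    (h : a ≤ x + (C + 1) * y + z + 2) : Big 𝒟 a st := by
  have key : ∀ w, Has 𝒟 w st → a ≤ (C + 3) * w + 2 → Big 𝒟 a st := by
    intro w hw hle
    rcases hw with rfl | ⟨τ, c, hc, hw⟩
    · obtain ⟨τ, c, hc⟩ := hne
      exact ⟨τ, c, hc, hle.trans (by nlinarith)⟩
    · exact ⟨τ, c, hc, hle.trans (by nlinarith)⟩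
  rcases le_total x y with h1 | h1
  · rcases le_total y z with h2 | h2
    · exact key z hz (h.trans (by nlinarith))
    · exact key y hy (h.trans (by nlinarith))
  · rcases le_total x z with h2 | h2
    · exact key z hz (h.trans (by nlinarith))
    · exact key x hx (h.trans (by nlinarith))

lemma SegData.le (S : SegData C) (m l : ℕ) : S.D m l ≤ C * l := by
  induction l with
  | zero => simp [S.D0]
  | succ l ih =>
    have := S.inc m l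
    rw [Nat.mul_succ]
    omega

/-- return work of a garbage list -/
def wk (γ : List (ℕ × ℕ)) : ℕ := (γ.map fun c => c.2 + 1).sum

lemma wk_ret (c : ℕ × ℕ) (γ : List (ℕ × ℕ)) : wk (lact .ret (c :: γ)) + 1 = wk (c :: γ) := by
  rcases c with ⟨m, _ | l⟩
  · simp [lact, wk]; ring
  · simp [lact, wk]; ring

def Good (S : SegData C) (m i : ℕ) : Prop :=
  ∀ j, i ≤ j → j ≤ S.L m → S.D m i + (j - i) ≤ S.D m j

lemma good_or_jump (S : SegData C) (m i : ℕ) :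
    Good S m i ∨ ∃ i', i < i' ∧ i' ≤ S.L m ∧ Good S m i' ∧ S.D m i' < S.D m i + (i' - i) := by
  by_cases hg : Good S m i
  · exact Or.inl hg
  · right
    unfold Good at hg
    push Not at hg
    obtain ⟨j0, h1, h2, h3⟩ := hg
    have hne : ((Finset.range (S.L m + 1)).filter
        fun j => i ≤ j ∧ S.D m j < S.D m i + (j - i)).Nonempty :=
      ⟨j0, by simp; omega⟩
    obtain ⟨j, hj, hmax⟩ := Finset.exists_max_image _ (fun j => j) hne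
    simp only [Finset.mem_filter, Finset.mem_range] at hj hmax
    refine ⟨j, ?_, by omega, ?_, hj.2.2⟩
    · rcases Nat.lt_or_ge i j with h | h
      · exact h
      · have : i = j := by omega
        subst this
        omega
    · intro x hx hxL
      rcases Nat.lt_or_ge j x with h | h
      · by_contra hcon
        push Not at hcon
        have := hmax x ⟨by omega, by omega, by omega⟩
        omega
      · have : x = j := by omega
        subst this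
        omega

/-- the potential -/
def pot (S : SegData C) (m i : ℕ) : ℤ :=
  2 * ((S.D m (S.L m) : ℤ) - S.D m i) - 3 * ((S.L m : ℤ) - i)

lemma pot_nonneg (S : SegData C) (m i : ℕ) (hi : i ≤ S.L m) : (S.L m : ℤ) - i ≤ pot S m i := by
  have h := S.suf m i hi
  unfold pot
  zify [hi] at h
  linarith

lemma child_exists (S : SegData C) (hC : 1 ≤ C) (F : ℕ) (hF : 6 * C * C < F) :
    ∃ mc, 2 * C * (S.L mc + 1) ≤ F ∧ F ≤ 6 * C * C * S.L mc := by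
  have hpos : 0 < 6 * C * C := by positivity
  set x := F / (6 * C * C) with hx
  have h1 : 1 ≤ x := by
    rw [hx, Nat.le_div_iff_mul_le hpos]; omega
  have h2 : 6 * C * C * x ≤ F := Nat.mul_div_le F _
  have h3 : F < 6 * C * C * (x + 1) := by
    rw [hx]; exact Nat.lt_mul_div_succ F hpos
  have h4 := S.lo x
  have h5 := S.hi x
  refine ⟨x, ?_, ?_⟩
  · refine le_trans ?_ h2
    have : S.L x + 1 ≤ 3 * C * x := by nlinarith
    calc 2 * C * (S.L x + 1) ≤ 2 * C * (3 * C * x) := by gcongr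
      _ = 6 * C * C * x := by ring
  · calc F ≤ 6 * C * C * (x + 1) := h3.le
      _ ≤ 6 * C * C * S.L x := by gcongr

lemma sact_append (o : SOp) (c : ℕ × ℕ × ℕ) (g s : List (ℕ × ℕ × ℕ)) :
    sact o ((c :: g) ++ s) = sact o (c :: g) ++ s := by
  rcases o with k | _ | m
  · rcases c with ⟨x, l, r⟩; simp [sact]
  · rcases c with ⟨x, _ | l, r⟩ <;> simp [sact]
  · simp [sact]

lemma sact_adv_zero (s : List (ℕ × ℕ × ℕ)) : sact (.adv 0) s = s := by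
  rcases s with _ | ⟨⟨m, l, r⟩, s⟩ <;> simp [sact]

lemma lev_remark (g : List (ℕ × ℕ × ℕ)) : lev (remark g) = lev g := by
  simp [lev, remark]

lemma remark_append (g s : List (ℕ × ℕ × ℕ)) : remark (g ++ s) = remark g ++ remark s := by
  simp [remark]

/-- content of the garbage after a return -/
lemma cont_ret (S : SegData C) (c : ℕ × ℕ × ℕ) (g : List (ℕ × ℕ × ℕ)) (x : ℕ)
    (hx : x = 0 ∨ ∃ c' ∈ c :: g, x ≤ cont S c') :
    (x - C = 0 ∨ ∃ c' ∈ sact .ret (c :: g), x - C ≤ cont S c') := by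
  rcases hx with rfl | ⟨c', hc', hx⟩
  · left; simp
  · rw [List.mem_cons] at hc'
    rcases hc' with rfl | hc'
    · rcases c' with ⟨m, _ | l, r⟩
      · left
        unfold cont at hx
        simp only [S.D0, Nat.zero_sub, nonpos_iff_eq_zero] at hx
        simp [hx]
      · right
        refine ⟨(m, l, min r l), by simp [sact], ?_⟩
        unfold cont at hx ⊢
        simp only at hx ⊢
        have h1 := S.inc m l
        rcases le_total r l with h | h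
        · rw [min_eq_left h]; omega
        · have h2 : S.D m (min r l) = S.D m l := by rw [min_eq_right h]
          rcases Nat.lt_or_ge l r with h3 | h3
          · have h4 := S.mono m (show l + 1 ≤ r from h3)
            omega
          · have : r = l := by omega
            subst this
            rw [h2]; omega
    · right
      refine ⟨c', ?_, (Nat.sub_le _ _).trans hx⟩
      rcases c with ⟨m, _ | l, r⟩ <;> simp [sact, hc']

def Inv (𝒟 : Bool → SegData C) (σ : Bool) (m i a r0 : ℕ) (g : List (ℕ × ℕ × ℕ)) : Prop :=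
  a = 0 ∨ ∃ i0, r0 ≤ i0 ∧ i0 ≤ i ∧ Good (𝒟 σ) m i0 ∧
    ∃ x, (x = 0 ∨ ∃ c ∈ g, x ≤ cont (𝒟 (!σ)) c) ∧ a ≤ x + (C + 1) * (i - i0) + 1

structure At (σ : Bool) (m i r0 : ℕ) (b : List (ℕ × ℕ × ℕ)) (γ : List (ℕ × ℕ))
    (g : List (ℕ × ℕ × ℕ)) (m' j r : ℕ) (b' : List (ℕ × ℕ × ℕ)) (st : St) : Prop where
  lv : lev g = γ
  mark : r0 ≤ i
  own : st σ = (m, i, r0) :: b
  oth : st (!σ) = g ++ (m', j, r) :: b'

lemma inv_split {𝒟 : Bool → SegData C} {σ : Bool} {m i a r0 : ℕ} {g : List (ℕ × ℕ × ℕ)}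
    (h : Inv 𝒟 σ m i a r0 g) (hi : i ≤ (𝒟 σ).L m) :
    ∃ x y, (x = 0 ∨ ∃ c ∈ g, x ≤ cont (𝒟 (!σ)) c) ∧ y ≤ (𝒟 σ).D m i - (𝒟 σ).D m r0 ∧
      a ≤ x + (C + 1) * y + 1 := by
  rcases h with rfl | ⟨i0, h1, h2, h3, x, hx, ha⟩
  · exact ⟨0, 0, Or.inl rfl, by simp, by simp⟩
  · refine ⟨x, i - i0, hx, ?_, ha⟩
    have h4 := h3 i h2 hi
    have h5 := (𝒟 σ).mono m h1
    omega

lemma inv_big {𝒟 : Bool → SegData C} {σ : Bool} {m i a r0 : ℕ} {b : List (ℕ × ℕ × ℕ)}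
    {γ : List (ℕ × ℕ)} {g : List (ℕ × ℕ × ℕ)} {m' j r : ℕ} {b' : List (ℕ × ℕ × ℕ)} {st : St}
    (h : Inv 𝒟 σ m i a r0 g) (hi : i ≤ (𝒟 σ).L m) (hat : At σ m i r0 b γ g m' j r b' st) :
    Big 𝒟 a st := by
  obtain ⟨x, y, hx, hy, ha⟩ := inv_split h hi
  have hne : ∃ τ, ∃ c, c ∈ st τ := ⟨σ, (m, i, r0), by rw [hat.own]; simp⟩
  refine big_of (x := x) (y := y) (z := 0) hne ?_ ?_ (Or.inl rfl) (by omega)
  · rcases hx with hx | ⟨c, hc, hx⟩
    · exact Or.inl hx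
    · exact Or.inr ⟨!σ, c, by rw [hat.oth]; simp [hc], hx⟩
  · exact Or.inr ⟨σ, (m, i, r0), by rw [hat.own]; simp, hy⟩

/-- claims relative to a run: prefixes -/
def P1 (𝒟 : Bool → SegData C) (σ : Bool) (m : ℕ) (b : List (ℕ × ℕ × ℕ)) (m' jl J r : ℕ)
    (b' : List (ℕ × ℕ × ℕ)) (a : ℕ) (st : St) : Prop :=
  (∃ pre l, st σ = pre ++ (m, l, 0) :: b ∧ l ≤ (𝒟 σ).L m ∧ a ≤ (𝒟 σ).D m l) ∧
  (∃ pre' j', st (!σ) = pre' ++ (m', j', r) :: b' ∧ jl ≤ j' ∧ j' ≤ J)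

/-- claims relative to a run: suffixes -/
def Q3 (𝒟 : Bool → SegData C) (σ : Bool) (m : ℕ) (b : List (ℕ × ℕ × ℕ)) (m' J : ℕ)
    (b' : List (ℕ × ℕ × ℕ)) (a : ℕ) (st : St) : Prop :=
  (∃ l ≤ (𝒟 σ).L m, st σ = (m, (𝒟 σ).L m, l) :: remark b ∧
    (𝒟 σ).D m l + a ≤ (𝒟 σ).D m ((𝒟 σ).L m)) ∧
  (∃ μ ≤ J, st (!σ) = (m', J, μ) :: remark b')

structure RunOK (𝒟 : Bool → SegData C) (K : ℕ) (σ : Bool) (m F : ℕ) (R : List Op) : Prop where
  len : R.length ≤ (𝒟 σ).L m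
  lenF : F ≤ K * R.length
  lenL : (𝒟 σ).L m ≤ K * R.length
  bd : ∀ o ∈ R, ∀ τ, (o τ).le K
  fin : ∀ (st : St) (b : List (ℕ × ℕ × ℕ)) (m' j r : ℕ) (b' : List (ℕ × ℕ × ℕ)),
    st σ = (m, 0, 0) :: b → st (!σ) = (m', j, r) :: b' →
    exec R st σ = (m, (𝒟 σ).L m, 0) :: b ∧ exec R st (!σ) = (m', j + F, r) :: b'
  p1 : ∀ (st : St) (b : List (ℕ × ℕ × ℕ)) (m' j r : ℕ) (b' : List (ℕ × ℕ × ℕ)),
    st σ = (m, 0, 0) :: b → st (!σ) = (m', j, r) :: b' →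
    Runs (P1 𝒟 σ m b m' j (j + F) r b') 0 R st
  p5 : ∀ (st : St) (b : List (ℕ × ℕ × ℕ)) (m' j r : ℕ) (b' : List (ℕ × ℕ × ℕ)),
    st σ = (m, 0, 0) :: b → st (!σ) = (m', j, r) :: b' →
    Wins (Big 𝒟) (Q3 𝒟 σ m b m' (j + F) b') R st

structure InnerOK (𝒟 : Bool → SegData C) (K : ℕ) (σ : Bool) (m i : ℕ) (γ : List (ℕ × ℕ))
    (F : ℕ) (R : List Op) : Prop where
  len : R.length + i ≤ (𝒟 σ).L m
  lenF : F ≤ K * R.length
  lenL : (𝒟 σ).L m ≤ K * R.length + i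
  bd : ∀ o ∈ R, ∀ τ, (o τ).le K
  fin : ∀ (st : St) (b : List (ℕ × ℕ × ℕ)) (m' j r : ℕ) (b' : List (ℕ × ℕ × ℕ)) (r0 : ℕ)
    (g : List (ℕ × ℕ × ℕ)), At σ m i r0 b γ g m' j r b' st →
    exec R st σ = (m, (𝒟 σ).L m, r0) :: b ∧ exec R st (!σ) = (m', j + F, r) :: b'
  p1 : ∀ (st : St) (b : List (ℕ × ℕ × ℕ)) (m' j r : ℕ) (b' : List (ℕ × ℕ × ℕ))
    (g : List (ℕ × ℕ × ℕ)), At σ m i 0 b γ g m' j r b' st →
    ∀ a ≤ i, ∀ jl ≤ j, Runs (P1 𝒟 σ m b m' jl (j + F) r b') a R st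
  p4 : ∀ (st : St) (b : List (ℕ × ℕ × ℕ)) (m' j r : ℕ) (b' : List (ℕ × ℕ × ℕ)) (r0 : ℕ)
    (g : List (ℕ × ℕ × ℕ)), At σ m i r0 b γ g m' j r b' st →
    ∀ a, Inv 𝒟 σ m i a r0 g → Runs (Big 𝒟) a R st
  p5 : ∀ (st : St) (b : List (ℕ × ℕ × ℕ)) (m' j r : ℕ) (b' : List (ℕ × ℕ × ℕ)) (r0 : ℕ)
    (g : List (ℕ × ℕ × ℕ)), At σ m i r0 b γ g m' j r b' st →
    Wins (Big 𝒟) (Q3 𝒟 σ m b m' (j + F) b') R st

/-- the state at the beginning of a window -/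
lemma At.rm {σ : Bool} {m i r0 : ℕ} {b : List (ℕ × ℕ × ℕ)} {γ : List (ℕ × ℕ)}
    {g : List (ℕ × ℕ × ℕ)} {m' j r : ℕ} {b' : List (ℕ × ℕ × ℕ)} {st : St}
    (h : At σ m i r0 b γ g m' j r b' st) :
    At σ m i i (remark b) γ (remark g) m' j j (remark b') (rmk st) where
  lv := by rw [lev_remark]; exact h.lv
  mark := le_rfl
  own := by simp only [rmk, h.own]; simp [remark]
  oth := by simp only [rmk, h.oth]; simp [remark]

/-- windows starting at a macro boundary -/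
lemma head_window {𝒟 : Bool → SegData C} {σ : Bool} {m i : ℕ} {γ : List (ℕ × ℕ)}
    {F : ℕ} {R : List Op} (len : R.length + i ≤ (𝒟 σ).L m)
    (fin : ∀ (st : St) (b : List (ℕ × ℕ × ℕ)) (m' j r : ℕ) (b' : List (ℕ × ℕ × ℕ)) (r0 : ℕ)
      (g : List (ℕ × ℕ × ℕ)), At σ m i r0 b γ g m' j r b' st →
      exec R st σ = (m, (𝒟 σ).L m, r0) :: b ∧ exec R st (!σ) = (m', j + F, r) :: b')
    (p4 : ∀ (st : St) (b : List (ℕ × ℕ × ℕ)) (m' j r : ℕ) (b' : List (ℕ × ℕ × ℕ)) (r0 : ℕ)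
      (g : List (ℕ × ℕ × ℕ)), At σ m i r0 b γ g m' j r b' st →
      ∀ a, Inv 𝒟 σ m i a r0 g → Runs (Big 𝒟) a R st)
    (st : St) (b : List (ℕ × ℕ × ℕ)) (m' j r : ℕ) (b' : List (ℕ × ℕ × ℕ)) (r0 : ℕ)
    (g : List (ℕ × ℕ × ℕ)) (hat : At σ m i r0 b γ g m' j r b' st) :
    Runs (Big 𝒟) 0 R (rmk st) ∧
      Q3 𝒟 σ m b m' (j + F) b' R.length (exec R (rmk st)) := by
  have h := hat.rm
  refine ⟨p4 _ _ _ _ _ _ _ _ h 0 (Or.inl rfl), ?_⟩
  obtain ⟨h1, h2⟩ := fin _ _ _ _ _ _ _ _ h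
  refine ⟨⟨i, by omega, h1, ?_⟩, ⟨j, by omega, h2⟩⟩
  have := (𝒟 σ).suf m i (by omega)
  omega

end Pool.Agent.J6H4.Supra
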