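import Pool.Agent.J6H4.Supra.Inner

set_option autoImplicit false

namespace Pool.Agent.J6H4.Supra

variable {C : ℕ} {𝒟 : Bool → SegData C} {K : ℕ} {σ : Bool} {m : ℕ}

lemma lev_eq_nil {g : List (ℕ × ℕ × ℕ)} (h : lev g = []) : g = [] := by
  simpa [lev] using h

/-- the end of a run -/
lemma inner_nil : InnerOK 𝒟 K σ m ((𝒟 σ).L m) [] 0 [] where
  len := by simp
  lenF := by simp
  lenL := by simp
  bd := by simp
  fin := by
    intro st b m' j r b' r0 g h
    rw [exec_nil, h.own, h.oth, lev_eq_nil h.lv]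
    simp
  p1 := by
    intro st b m' j r b' g h a ha jl hjl
    refine ⟨⟨[], (𝒟 σ).L m, by rw [h.own]; simp, le_rfl, ?_⟩, ⟨g, j, h.oth, hjl, by simp⟩⟩
    have := (𝒟 σ).pre m _ le_rfl
    omega
  p4 := by
    intro st b m' j r b' r0 g h a ha
    exact inv_big ha le_rfl h
  p5 := by
    intro st b m' j r b' r0 g h
    refine head_window (i := (𝒟 σ).L m) (R := []) (γ := []) (by simp) ?_ ?_ st b m' j r b' r0 g h
    · intro st b m' j r b' r0 g h
      rw [exec_nil, h.own, h.oth, lev_eq_nil h.lv]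
      simp
    · intro st b m' j r b' r0 g h a ha
      exact inv_big ha le_rfl h

/-- one simple step -/
lemma inner_one {i i1 : ℕ} {γ γ1 : List (ℕ × ℕ)} {F F1 : ℕ} {R' : List Op} (o : Op)
    (hR : InnerOK 𝒟 K σ m i1 γ1 F1 R') (ho : ∀ τ, (o τ).le K) (hi : i < i1) (hF : F1 ≤ F)
    (hFK : F ≤ F1 + K) (hik : i1 ≤ i + K)
    (htr : ∀ (st : St) (b : List (ℕ × ℕ × ℕ)) (m' j r : ℕ) (b' : List (ℕ × ℕ × ℕ)) (r0 : ℕ)
      (g : List (ℕ × ℕ × ℕ)), At σ m i r0 b γ g m' j r b' st →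
      ∃ g1, At σ m i1 r0 b γ1 g1 m' (j + (F - F1)) r b' (act o st) ∧
        ∀ a, Inv 𝒟 σ m i a r0 g → Inv 𝒟 σ m i1 (a + 1) r0 g1) :
    InnerOK 𝒟 K σ m i γ F (o :: R') := by
  have len : (o :: R').length + i ≤ (𝒟 σ).L m := by
    have := hR.len
    simp only [List.length_cons]
    omega
  have fin : ∀ (st : St) (b : List (ℕ × ℕ × ℕ)) (m' j r : ℕ) (b' : List (ℕ × ℕ × ℕ)) (r0 : ℕ)
      (g : List (ℕ × ℕ × ℕ)), At σ m i r0 b γ g m' j r b' st →
      exec (o :: R') st σ = (m, (𝒟 σ).L m, r0) :: b ∧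
        exec (o :: R') st (!σ) = (m', j + F, r) :: b' := by
    intro st b m' j r b' r0 g h
    obtain ⟨g1, h1, _⟩ := htr _ _ _ _ _ _ _ _ h
    obtain ⟨h2, h3⟩ := hR.fin _ _ _ _ _ _ _ _ h1
    rw [exec_cons]
    refine ⟨h2, ?_⟩
    rw [h3, show j + (F - F1) + F1 = j + F by omega]
  have p4 : ∀ (st : St) (b : List (ℕ × ℕ × ℕ)) (m' j r : ℕ) (b' : List (ℕ × ℕ × ℕ)) (r0 : ℕ)
      (g : List (ℕ × ℕ × ℕ)), At σ m i r0 b γ g m' j r b' st →
      ∀ a, Inv 𝒟 σ m i a r0 g → Runs (Big 𝒟) a (o :: R') st := by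
    intro st b m' j r b' r0 g h a ha
    obtain ⟨g1, h1, h2⟩ := htr _ _ _ _ _ _ _ _ h
    exact ⟨inv_big ha (by have := hR.len; omega) h, hR.p4 _ _ _ _ _ _ _ _ h1 _ (h2 a ha)⟩
  refine ⟨len, ?_, ?_, ?_, fin, ?_, p4, ?_⟩
  · have := hR.lenF
    simp only [List.length_cons, Nat.mul_succ]
    omega
  · have := hR.lenL
    simp only [List.length_cons, Nat.mul_succ]
    omega
  · intro o' ho'
    rw [List.mem_cons] at ho'
    rcases ho' with rfl | ho'
    · exact ho
    · exact hR.bd _ ho'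
  · intro st b m' j r b' g h a ha jl hjl
    obtain ⟨g1, h1, _⟩ := htr _ _ _ _ _ _ _ _ h
    refine ⟨⟨⟨[], i, by rw [h.own]; simp, by have := hR.len; omega, ?_⟩,
      ⟨g, j, h.oth, hjl, by omega⟩⟩, ?_⟩
    · have := (𝒟 σ).pre m i (by have := hR.len; omega)
      omega
    · have := hR.p1 _ _ _ _ _ _ _ h1 (a + 1) (by omega) jl (by omega)
      rwa [show j + (F - F1) + F1 = j + F by omega] at this
  · intro st b m' j r b' r0 g h
    obtain ⟨g1, h1, _⟩ := htr _ _ _ _ _ _ _ _ h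
    refine ⟨head_window len fin p4 st b m' j r b' r0 g h, ?_⟩
    have := hR.p5 _ _ _ _ _ _ _ _ h1
    rwa [show j + (F - F1) + F1 = j + F by omega] at this

/-- the jump with a child -/
lemma inner_child {i : ℕ} {γ : List (ℕ × ℕ)} {F mc Fc : ℕ} {Rc R' : List Op} (hC : 1 ≤ C)
    (hc : RunOK 𝒟 K (!σ) mc Fc Rc)
    (hR : InnerOK 𝒟 K σ m (i + Fc) ((mc, (𝒟 (!σ)).L mc) :: γ) F R')
    (hLc : 2 * C * ((𝒟 (!σ)).L mc + 1) ≤ Fc) (hgood : Good (𝒟 σ) m (i + Fc))
    (hjump : (𝒟 σ).D m (i + Fc) < (𝒟 σ).D m i + Fc) :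
    InnerOK 𝒟 K σ m i γ F (mk σ (.adv 0) (.push mc) :: (Rc ++ R')) := by
  set Lc := (𝒟 (!σ)).L mc with hLcd
  have hnn : (!(!σ)) = σ := by simp
  have hCL : C * Lc + 1 ≤ Fc := by nlinarith
  have hL1 : Lc + 1 ≤ Fc := by nlinarith
  have hcl : (𝒟 (!σ)).D mc Lc ≤ C * Lc := (𝒟 (!σ)).le mc Lc
  have hlenR := hR.len
  have hiL : i + Fc ≤ (𝒟 σ).L m := by omega
  have hlenc := hc.len
  have hDi : 2 * i + Fc ≤ (𝒟 σ).D m i := by
    have := (𝒟 σ).pre m (i + Fc) hiL
    omega
  have hDL : (𝒟 σ).D m (i + Fc) + 2 * ((𝒟 σ).L m - (i + Fc)) + Fc ≤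
      (𝒟 σ).D m ((𝒟 σ).L m) := by
    have := (𝒟 σ).suf m i (by omega)
    omega
  set o : Op := mk σ (.adv 0) (.push mc) with ho
  -- states
  have st1own : ∀ (st : St) (b : List (ℕ × ℕ × ℕ)) (m' j r : ℕ) (b' : List (ℕ × ℕ × ℕ))
      (r0 : ℕ) (g : List (ℕ × ℕ × ℕ)), At σ m i r0 b γ g m' j r b' st →
      act o st (!(!σ)) = (m, i, r0) :: b := by
    intro st b m' j r b' r0 g h
    rw [hnn]
    simp only [act, ho, mk_self, sact_adv_zero]
    exact h.own
  have st1oth : ∀ (st : St) (b : List (ℕ × ℕ × ℕ)) (m' j r : ℕ) (b' : List (ℕ × ℕ × ℕ))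
      (r0 : ℕ) (g : List (ℕ × ℕ × ℕ)), At σ m i r0 b γ g m' j r b' st →
      act o st (!σ) = (mc, 0, 0) :: (g ++ (m', j, r) :: b') := by
    intro st b m' j r b' r0 g h
    simp only [act, ho, mk_not, h.oth, sact]
  have st2 : ∀ (st : St) (b : List (ℕ × ℕ × ℕ)) (m' j r : ℕ) (b' : List (ℕ × ℕ × ℕ))
      (r0 : ℕ) (g : List (ℕ × ℕ × ℕ)), At σ m i r0 b γ g m' j r b' st →
      At σ m (i + Fc) r0 b ((mc, Lc) :: γ) ((mc, Lc, 0) :: g) m' j r b'
        (exec Rc (act o st)) := by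
    intro st b m' j r b' r0 g h
    obtain ⟨h1, h2⟩ := hc.fin (act o st) _ _ _ _ _ (st1oth _ _ _ _ _ _ _ _ h)
      (st1own _ _ _ _ _ _ _ _ h)
    rw [hnn] at h2
    refine ⟨?_, ?_, h2, ?_⟩
    · simp only [lev, List.map_cons]
      have := h.lv
      rw [lev] at this
      rw [this]
    · have := h.mark
      omega
    · rw [h1]; simp [hLcd]
  have len : (o :: (Rc ++ R')).length + i ≤ (𝒟 σ).L m := by
    simp only [List.length_cons, List.length_append]
    omega
  have fin : ∀ (st : St) (b : List (ℕ × ℕ × ℕ)) (m' j r : ℕ) (b' : List (ℕ × ℕ × ℕ)) (r0 : ℕ)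
      (g : List (ℕ × ℕ × ℕ)), At σ m i r0 b γ g m' j r b' st →
      exec (o :: (Rc ++ R')) st σ = (m, (𝒟 σ).L m, r0) :: b ∧
        exec (o :: (Rc ++ R')) st (!σ) = (m', j + F, r) :: b' := by
    intro st b m' j r b' r0 g h
    rw [exec_cons, exec_append]
    exact hR.fin _ _ _ _ _ _ _ _ (st2 _ _ _ _ _ _ _ _ h)
  -- the invariant after the child
  have hinv : ∀ (a r0 : ℕ) (g : List (ℕ × ℕ × ℕ)), r0 ≤ i → Inv 𝒟 σ m i a r0 g →
      Inv 𝒟 σ m (i + Fc) (a + 1 + Rc.length) r0 ((mc, Lc, 0) :: g) := by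
    intro a r0 g hr0 ha
    right
    rcases ha with rfl | ⟨i0, h1, h2, h3, x, hx, ha⟩
    · refine ⟨i + Fc, by omega, le_rfl, hgood, (𝒟 (!σ)).D mc Lc,
        Or.inr ⟨(mc, Lc, 0), by simp, ?_⟩, ?_⟩
      · unfold cont
        simp [(𝒟 (!σ)).D0]
      · have := (𝒟 (!σ)).pre mc Lc le_rfl
        omega
    · refine ⟨i0, h1, by omega, h3, x, ?_, ?_⟩
      · rcases hx with hx | ⟨c, hc, hx⟩
        · exact Or.inl hx
        · exact Or.inr ⟨c, by simp [hc], hx⟩
      · have h4 : i + Fc - i0 = (i - i0) + Fc := by omega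
        rw [h4, Nat.mul_add]
        have h5 : Fc ≤ (C + 1) * Fc := by nlinarith
        omega
  have p4 : ∀ (st : St) (b : List (ℕ × ℕ × ℕ)) (m' j r : ℕ) (b' : List (ℕ × ℕ × ℕ)) (r0 : ℕ)
      (g : List (ℕ × ℕ × ℕ)), At σ m i r0 b γ g m' j r b' st →
      ∀ a, Inv 𝒟 σ m i a r0 g → Runs (Big 𝒟) a (o :: (Rc ++ R')) st := by
    intro st b m' j r b' r0 g h a ha
    refine ⟨inv_big ha (by omega) h, ?_⟩
    rw [runs_append]
    refine ⟨?_, hR.p4 _ _ _ _ _ _ _ _ (st2 _ _ _ _ _ _ _ _ h) _ (hinv a r0 g h.mark ha)⟩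
    have h1 := hc.p1 (act o st) _ _ _ _ _ (st1oth _ _ _ _ _ _ _ _ h)
      (st1own _ _ _ _ _ _ _ _ h)
    have h2 := Runs.imp (Q := Big 𝒟) (a + 1) ?_ h1
    · rwa [Nat.zero_add] at h2
    · rintro a' st' ⟨⟨pre, l, h3, h4, h5⟩, ⟨pre', j', h6, h7, h8⟩⟩
      rw [hnn] at h6
      obtain ⟨x, y, hx, hy, hle⟩ := inv_split ha (by omega)
      refine big_of (x := x) (y := y) (z := a')
        ⟨!σ, (mc, l, 0), by rw [h3]; simp⟩ ?_ ?_ ?_ (by omega)
      · rcases hx with hx | ⟨c, hc, hx⟩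
        · exact Or.inl hx
        · exact Or.inr ⟨!σ, c, by rw [h3]; simp [hc], hx⟩
      · refine Or.inr ⟨σ, (m, j', r0), by rw [h6]; simp, ?_⟩
        unfold cont
        simp only
        have := (𝒟 σ).mono m h7
        omega
      · refine Or.inr ⟨!σ, (mc, l, 0), by rw [h3]; simp, ?_⟩
        unfold cont
        simp only [(𝒟 (!σ)).D0]
        omega
  refine ⟨len, ?_, ?_, ?_, fin, ?_, p4, ?_⟩
  · have h1 := hR.lenF
    simp only [List.length_cons, List.length_append]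
    calc F ≤ K * R'.length := h1
      _ ≤ _ := by gcongr; omega
  · have h1 := hR.lenL
    have h2 := hc.lenF
    simp only [List.length_cons, List.length_append]
    have h3 : K * (Rc.length + R'.length + 1) = K * Rc.length + K * R'.length + K := by ring
    omega
  · intro o' ho'
    simp only [List.mem_cons, List.mem_append] at ho'
    rcases ho' with rfl | ho' | ho'
    · intro τ
      simp only [ho, mk]
      split_ifs <;> simp [SOp.le]
    · exact hc.bd _ ho'
    · exact hR.bd _ ho'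
  · intro st b m' j r b' g h a ha jl hjl
    refine ⟨⟨⟨[], i, by rw [h.own]; simp, by omega, by omega⟩,
      ⟨g, j, h.oth, hjl, by omega⟩⟩, ?_⟩
    rw [runs_append]
    refine ⟨?_, hR.p1 _ _ _ _ _ _ _ (st2 _ _ _ _ _ _ _ _ h) _ (by omega) jl hjl⟩
    have h1 := hc.p1 (act o st) _ _ _ _ _ (st1oth _ _ _ _ _ _ _ _ h)
      (st1own _ _ _ _ _ _ _ _ h)
    have h2 := Runs.imp (Q := P1 𝒟 σ m b m' jl (j + F) r b') (a + 1) ?_ h1
    · rwa [Nat.zero_add] at h2
    · rintro a' st' ⟨⟨pre, l, h3, h4, h5⟩, ⟨pre', j', h6, h7, h8⟩⟩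
      rw [hnn] at h6
      refine ⟨⟨pre', j', h6, by omega, ?_⟩,
        ⟨pre ++ (mc, l, 0) :: g, j, by rw [h3]; simp, hjl, by omega⟩⟩
      have h9 := (𝒟 σ).mono m h7
      have h10 := (𝒟 (!σ)).mono mc h4
      rw [← hLcd] at h10
      omega
  · intro st b m' j r b' r0 g h
    refine ⟨head_window len fin p4 st b m' j r b' r0 g h, ?_⟩
    refine wins_append (hc.p5 (act o st) _ _ _ _ _ (st1oth _ _ _ _ _ _ _ _ h)
      (st1own _ _ _ _ _ _ _ _ h)) ?_ (hR.p5 _ _ _ _ _ _ _ _ (st2 _ _ _ _ _ _ _ _ h))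
    rintro a st' ⟨⟨l, h1, h2, h3⟩, ⟨μ, h4, h5⟩⟩
    rw [hnn] at h5
    rw [← hLcd] at h3
    have hat : At σ m (i + Fc) μ (remark b) ((mc, Lc) :: γ) ((mc, Lc, l) :: remark g) m' j j
        (remark b') st' := by
      refine ⟨?_, h4, h5, ?_⟩
      · have := h.lv
        rw [← lev_remark] at this
        simp only [lev, List.map_cons] at this ⊢
        rw [this]
      · rw [h2, remark_append]
        simp [remark, hLcd]
    have hDc : (𝒟 (!σ)).D mc Lc ≤ C * Lc := hcl
    refine ⟨hR.p4 _ _ _ _ _ _ _ _ hat a ?_, ?_⟩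
    · right
      refine ⟨i + Fc, h4, le_rfl, hgood, (𝒟 (!σ)).D mc Lc - (𝒟 (!σ)).D mc l,
        Or.inr ⟨(mc, Lc, l), by simp, by simp [cont]⟩, ?_⟩
      omega
    · obtain ⟨h6, h7⟩ := hR.fin _ _ _ _ _ _ _ _ hat
      refine ⟨⟨μ, by omega, h6, ?_⟩, ⟨j, by omega, h7⟩⟩
      have h8 := (𝒟 σ).mono m h4
      omega

lemma inv_good {i a r0 : ℕ} {g g1 : List (ℕ × ℕ × ℕ)} (hg : Good (𝒟 σ) m i) (hr : r0 ≤ i)
    (hx : ∀ x, (x = 0 ∨ ∃ c ∈ g, x ≤ cont (𝒟 (!σ)) c) →
      (x - C = 0 ∨ ∃ c ∈ g1, x - C ≤ cont (𝒟 (!σ)) c))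
    (h : Inv 𝒟 σ m i a r0 g) : Inv 𝒟 σ m (i + 1) (a + 1) r0 g1 := by
  right
  rcases h with rfl | ⟨i0, h1, h2, h3, x, h4, ha⟩
  · exact ⟨i, hr, by omega, hg, 0, Or.inl rfl, by omega⟩
  · refine ⟨i0, h1, by omega, h3, x - C, hx x h4, ?_⟩
    rw [show i + 1 - i0 = (i - i0) + 1 by omega, Nat.mul_succ]
    omega

lemma pot_good (i : ℕ) : pot (𝒟 σ) m i ≤ pot (𝒟 σ) m (i + 1) + 2 * C := by
  have := (𝒟 σ).inc m i
  unfold pot
  push_cast
  zify at this
  linarith

lemma pot_jump (i Fc : ℕ) (h : (𝒟 σ).D m (i + Fc) < (𝒟 σ).D m i + Fc) :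
    pot (𝒟 σ) m i + Fc ≤ pot (𝒟 σ) m (i + Fc) := by
  unfold pot
  push_cast
  zify at h
  linarith

theorem inner_exists (hC : 1 ≤ C)
    (hIH : ∀ mc Fc, (𝒟 (!σ)).L mc < (𝒟 σ).L m → Fc ≤ 6 * C * C * (𝒟 (!σ)).L mc →
      ∃ R, RunOK 𝒟 (2 * C * (6 * C * C)) (!σ) mc Fc R) (n : ℕ) :
    ∀ (i : ℕ) (γ : List (ℕ × ℕ)) (F : ℕ), i + n = (𝒟 σ).L m →
      (2 * C * wk γ : ℤ) ≤ pot (𝒟 σ) m i →
      (F + 2 * C * (6 * C * C) * wk γ : ℤ) ≤ 6 * C * C * pot (𝒟 σ) m i →
      ∃ R, InnerOK 𝒟 (2 * C * (6 * C * C)) σ m i γ F R := by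
  have hCz : (1 : ℤ) ≤ C := by exact_mod_cast hC
  have hK0 : 6 * C * C ≤ 2 * C * (6 * C * C) := Nat.le_mul_of_pos_left _ (by omega)
  have hK1 : 1 ≤ 2 * C * (6 * C * C) := by nlinarith
  induction n using Nat.strong_induction_on with
  | _ n ih =>
    intro i γ F hi hG1 hG2
    rcases Nat.eq_zero_or_pos n with hn | hn
    · -- the end
      subst hn
      have hiL : i = (𝒟 σ).L m := by omega
      subst hiL
      have hp : pot (𝒟 σ) m ((𝒟 σ).L m) = 0 := by unfold pot; ring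
      rw [hp] at hG1 hG2
      have hw : wk γ = 0 := by
        have h0 : (0 : ℤ) ≤ wk γ := by positivity
        have : (wk γ : ℤ) ≤ 0 := by nlinarith
        exact_mod_cast le_antisymm this h0
      have hγ : γ = [] := by
        rcases γ with _ | ⟨c, γ⟩
        · rfl
        · simp [wk] at hw
      have hF : F = 0 := by
        rw [hw] at hG2
        simp at hG2
        exact hG2
      subst hγ hF
      exact ⟨[], inner_nil⟩
    · have hiL : i < (𝒟 σ).L m := by omega
      rcases good_or_jump (𝒟 σ) m i with hg | ⟨i', h1, h2, h3, h4⟩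
      · -- good step
        have hpg := pot_good (𝒟 := 𝒟) (σ := σ) (m := m) i
        have hpn := pot_nonneg (𝒟 σ) m (i + 1) (by omega)
        have hpn0 : 0 ≤ pot (𝒟 σ) m (i + 1) := by
          have : (0 : ℤ) ≤ ((𝒟 σ).L m : ℤ) - ((i + 1 : ℕ) : ℤ) := by
            have : ((i + 1 : ℕ) : ℤ) ≤ ((𝒟 σ).L m : ℤ) := by exact_mod_cast hiL
            linarith
          linarith
        rcases γ with _ | ⟨c, γ⟩
        · -- slot
          obtain ⟨R, hR⟩ := ih (n - 1) (by omega) (i + 1) [] (F - 2 * C * (6 * C * C)) (by omega)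
            (by simpa [wk] using hpn0) (by
              simp only [wk, List.map_nil, List.sum_nil, Nat.cast_zero, mul_zero, add_zero]
                at hG2 ⊢
              rcases le_total F (2 * C * (6 * C * C)) with h | h
              · rw [Nat.sub_eq_zero_of_le h]
                simp only [Nat.cast_zero]
                positivity
              · rw [Nat.cast_sub h]
                push_cast
                nlinarith)
          refine ⟨_, inner_one (mk σ (.adv 1) (.adv (min (2 * C * (6 * C * C)) F))) hR ?_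
            (by omega) (by omega) (by omega) (by omega) ?_⟩
          · intro τ
            simp only [mk]
            split_ifs
            · exact hK1
            · simp [SOp.le]
          · intro st b m' j r b' r0 g h
            have hg0 := lev_eq_nil h.lv
            subst hg0
            refine ⟨[], ⟨rfl, by have := h.mark; omega, ?_, ?_⟩, ?_⟩
            · simp only [act, mk_self, h.own, sact]
            · simp only [act, mk_not, h.oth, sact, List.nil_append, List.cons.injEq,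
                Prod.mk.injEq, true_and, and_true]
              omega
            · intro a ha
              refine inv_good hg h.mark ?_ ha
              rintro x (rfl | ⟨c, hc, _⟩)
              · left; simp
              · simp at hc
        · -- return
          have hw := wk_ret c γ
          have hwz : (wk (c :: γ) : ℤ) = wk (lact .ret (c :: γ)) + 1 := by
            rw [← hw]; push_cast; ring
          rw [hwz] at hG1 hG2
          obtain ⟨R, hR⟩ := ih (n - 1) (by omega) (i + 1) (lact .ret (c :: γ)) F (by omega)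
            (by linarith) (by nlinarith)
          refine ⟨_, inner_one (mk σ (.adv 1) .ret) hR ?_
            (by omega) (by omega) (by omega) (by omega) ?_⟩
          · intro τ
            simp only [mk]
            split_ifs
            · exact hK1
            · simp [SOp.le]
          · intro st b m' j r b' r0 g h
            rcases g with _ | ⟨cg, g⟩
            · have := h.lv
              simp [lev] at this
            refine ⟨sact .ret (cg :: g), ⟨?_, by have := h.mark; omega, ?_, ?_⟩, ?_⟩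
            · rw [lev_sact, h.lv]
            · simp only [act, mk_self, h.own, sact]
            · simp only [act, mk_not, h.oth, Nat.sub_self, Nat.add_zero]
              rw [sact_append]
            · intro a ha
              exact inv_good hg h.mark (fun x hx => cont_ret _ _ _ _ hx) ha
      · -- jumps
        obtain ⟨Fc, rfl⟩ : ∃ Fc, i' = i + Fc := ⟨i' - i, by omega⟩
        rw [Nat.add_sub_cancel_left] at h4
        have hpj := pot_jump (𝒟 := 𝒟) (σ := σ) (m := m) i Fc h4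
        rcases Nat.lt_or_ge (6 * C * C) Fc with hbig | hsmall
        · -- with a child
          obtain ⟨mc, hc1, hc2⟩ := child_exists (𝒟 (!σ)) hC Fc hbig
          have hLlt : (𝒟 (!σ)).L mc < (𝒟 σ).L m := by nlinarith
          obtain ⟨Rc, hRc⟩ := hIH mc Fc hLlt hc2
          have hwz : (wk ((mc, (𝒟 (!σ)).L mc) :: γ) : ℤ) = ((𝒟 (!σ)).L mc + 1) + wk γ := by
            simp [wk]
          have hc1z : (2 * C * ((𝒟 (!σ)).L mc + 1) : ℤ) ≤ Fc := by exact_mod_cast hc1
          obtain ⟨R, hR⟩ := ih (n - Fc) (by omega) (i + Fc) ((mc, (𝒟 (!σ)).L mc) :: γ) F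
            (by omega) (by rw [hwz]; linarith) (by
              rw [hwz]
              have : (6 * C * C : ℤ) * (2 * C * ((𝒟 (!σ)).L mc + 1)) ≤ 6 * C * C * Fc := by
                gcongr
              nlinarith)
          exact ⟨_, inner_child hC hRc hR hc1 h3 h4⟩
        · -- without
          obtain ⟨R, hR⟩ := ih (n - Fc) (by omega) (i + Fc) γ F (by omega)
            (by linarith) (by
              have : (6 * C * C : ℤ) * (pot (𝒟 σ) m i) ≤ 6 * C * C * pot (𝒟 σ) m (i + Fc) := by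
                gcongr
                linarith
              linarith)
          refine ⟨_, inner_one (mk σ (.adv Fc) (.adv 0)) hR ?_
            (by omega) (by omega) (by omega) (by omega) ?_⟩
          · intro τ
            simp only [mk]
            split_ifs
            · exact hsmall.trans hK0
            · simp [SOp.le]
          · intro st b m' j r b' r0 g h
            refine ⟨g, ⟨h.lv, by have := h.mark; omega, ?_, ?_⟩, ?_⟩
            · simp only [act, mk_self, h.own, sact]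
            · simp only [act, mk_not, sact_adv_zero, h.oth, Nat.sub_self, Nat.add_zero]
            · rintro a (rfl | ⟨i0, g1, g2, g3, x, hx, ha⟩)
              · right
                exact ⟨i + Fc, by have := h.mark; omega, le_rfl, h3, 0, Or.inl rfl, by omega⟩
              · right
                refine ⟨i0, g1, by omega, g3, x, hx, ?_⟩
                rw [show i + Fc - i0 = (i - i0) + Fc by omega, Nat.mul_add]
                have : Fc ≤ (C + 1) * Fc := by nlinarith
                omega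

theorem run_exists (hC : 1 ≤ C) (𝒟 : Bool → SegData C) (n : ℕ) :
    ∀ (σ : Bool) (m F : ℕ), (𝒟 σ).L m = n → F ≤ 6 * C * C * (𝒟 σ).L m →
      ∃ R, RunOK 𝒟 (2 * C * (6 * C * C)) σ m F R := by
  induction n using Nat.strong_induction_on with
  | _ n ih =>
    intro σ m F hL hF
    have hp := pot_nonneg (𝒟 σ) m 0 (by omega)
    have hp' : ((𝒟 σ).L m : ℤ) ≤ pot (𝒟 σ) m 0 := by simpa using hp
    obtain ⟨R, hR⟩ := inner_exists (𝒟 := 𝒟) (σ := σ) (m := m) hC
      (fun mc Fc h1 h2 => ih _ (by omega) (!σ) mc Fc rfl h2) ((𝒟 σ).L m) 0 [] F (by omega)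
      (by
        simp only [wk, List.map_nil, List.sum_nil, Nat.cast_zero, mul_zero]
        have : (0 : ℤ) ≤ (𝒟 σ).L m := by positivity
        linarith)
      (by
        simp only [wk, List.map_nil, List.sum_nil, Nat.cast_zero, mul_zero, add_zero]
        have h1 : (F : ℤ) ≤ 6 * C * C * (𝒟 σ).L m := by exact_mod_cast hF
        have h2 : (6 * C * C : ℤ) * ((𝒟 σ).L m : ℤ) ≤ 6 * C * C * pot (𝒟 σ) m 0 := by
          gcongr
        linarith)
    have hat : ∀ (st : St) (b : List (ℕ × ℕ × ℕ)) (m' j r : ℕ) (b' : List (ℕ × ℕ × ℕ)),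
        st σ = (m, 0, 0) :: b → st (!σ) = (m', j, r) :: b' →
        At σ m 0 0 b [] [] m' j r b' st := by
      intro st b m' j r b' h1 h2
      exact ⟨rfl, le_rfl, h1, by rw [h2]; rfl⟩
    refine ⟨R, ⟨?_, hR.lenF, ?_, hR.bd, ?_, ?_, ?_⟩⟩
    · have := hR.len; omega
    · have := hR.lenL; omega
    · intro st b m' j r b' h1 h2
      exact hR.fin _ _ _ _ _ _ _ _ (hat _ _ _ _ _ _ h1 h2)
    · intro st b m' j r b' h1 h2
      exact hR.p1 _ _ _ _ _ _ _ (hat _ _ _ _ _ _ h1 h2) 0 le_rfl j le_rfl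
    · intro st b m' j r b' h1 h2
      exact hR.p5 _ _ _ _ _ _ _ _ (hat _ _ _ _ _ _ h1 h2)

end Pool.Agent.J6H4.Supra
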