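import Pool.Agent.J6H4.Supra.TwoSide
import Pool.Agent.J6H4.Supra.Enc
import Pool.Agent.J6H4.Supra.Rec

set_option autoImplicit false

namespace Pool.Agent.J6H4.Supra

open scoped ENNReal Pointwise
open Pool.Agent.Helper241Spread

lemma commute_pow {Γ : Type*} [Group Γ] [DecidableEq Γ] {a : Γ} {B : Finset Γ}
    (h : ∀ b ∈ B, Commute a b) (k : ℕ) : ∀ y ∈ B ^ k, Commute a y := by
  induction k with
  | zero =>
    intro y hy
    simp only [pow_zero, Finset.mem_one] at hy
    rw [hy]; exact Commute.one_right a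
  | succ k ih =>
    intro y hy
    rw [pow_succ, Finset.mem_mul] at hy
    obtain ⟨u, hu, v, hv, rfl⟩ := hy
    exact (ih u hu).mul_right (h v hv)

/-- choice of the power -/
lemma exists_power {Γ : Type*} [Group Γ] [DecidableEq Γ] (A : Finset Γ) (c : ℝ) (hc : 1 < c)
    (hA : ∀ n : ℕ, c ^ n ≤ ((A ^ n).card : ℝ)) :
    ∃ k r : ℕ, Nat.log 2 (A ^ k).card ≤ r ∧ ∀ n, (32 * (r + 1)) ^ n ≤ ((A ^ k) ^ n).card := by
  set s := Nat.clog 2 A.card with hs
  have h1 : A.card ≤ 2 ^ s := Nat.le_pow_clog (by norm_num) _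
  have h2 : ∀ k, Nat.log 2 (A ^ k).card ≤ k * s := by
    intro k
    have h3 : (A ^ k).card ≤ 2 ^ (k * s) := by
      calc (A ^ k).card ≤ A.card ^ k := Finset.card_pow_le
        _ ≤ (2 ^ s) ^ k := by gcongr
        _ = 2 ^ (k * s) := by rw [← pow_mul, mul_comm]
    calc Nat.log 2 (A ^ k).card ≤ Nat.log 2 (2 ^ (k * s)) := Nat.log_mono_right h3
      _ = k * s := Nat.log_pow (by norm_num) _
  have hlim := tendsto_pow_const_div_const_pow_of_one_lt 1 hc
  have hev : ∀ᶠ k : ℕ in Filter.atTop, (k : ℝ) ^ 1 / c ^ k < 1 / (64 * ((s : ℝ) + 1)) :=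
    hlim.eventually_lt_const (by positivity)
  obtain ⟨k, hk, hk1⟩ := (hev.and (Filter.eventually_ge_atTop 1)).exists
  have hcpos : 0 < c ^ k := by positivity
  have h4 : (32 * ((k : ℝ) * s + 1)) ≤ c ^ k := by
    rw [pow_one, div_lt_div_iff₀ hcpos (by positivity)] at hk
    have hk1' : (1 : ℝ) ≤ k := by exact_mod_cast hk1
    have hs0 : (0 : ℝ) ≤ s := by positivity
    nlinarith
  refine ⟨k, k * s, h2 k, ?_⟩
  intro n
  have h5 := hA (k * n)
  rw [pow_mul, pow_mul] at h5
  have h6 : ((32 * ((k * s : ℕ) + 1) : ℕ) : ℝ) ^ n ≤ (c ^ k) ^ n := by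
    gcongr
    push_cast
    exact h4
  exact_mod_cast h6.trans h5

lemma closure_insert_pow {Γ : Type*} [Group Γ] [DecidableEq Γ] (A : Finset Γ) (k : ℕ) :
    Subgroup.closure ((insert 1 (A ^ k) : Finset Γ) : Set Γ) ≤ Subgroup.closure (A : Set Γ) := by
  rw [Subgroup.closure_le]
  have h : ∀ k, ∀ y ∈ A ^ k, y ∈ Subgroup.closure (A : Set Γ) := by
    intro k
    induction k with
    | zero =>
      intro y hy
      simp only [pow_zero, Finset.mem_one] at hy
      rw [hy]; exact one_mem _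
    | succ k ih =>
      intro y hy
      rw [pow_succ, Finset.mem_mul] at hy
      obtain ⟨u, hu, v, hv, rfl⟩ := hy
      exact mul_mem (ih u hu) (Subgroup.subset_closure (by simpa using hv))
  intro y hy
  simp only [Finset.coe_insert, Set.mem_insert_iff, Finset.mem_coe] at hy
  rcases hy with rfl | hy
  · exact one_mem _
  · exact h k y hy

/-- **Trees from two commuting finite sets of exponential growth.** If the finite subsets `A` and
`B` of a group acting on `X` commute and grow exponentially, and the subgroups they generate meet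
the stabiliser of `x₀` trivially, then there is an injective binary tree with bounded steps and
root `x₀` in `X`. -/
theorem exists_tree_of_commuting {Γ X : Type*} [Group Γ] [MulAction Γ X] [DecidableEq Γ] (x₀ : X)
    (A B : Finset Γ) (hcomm : ∀ a ∈ A, ∀ b ∈ B, a * b = b * a)
    (hstA : ∀ g ∈ Subgroup.closure (A : Set Γ), g • x₀ = x₀ → g = 1)
    (hstB : ∀ g ∈ Subgroup.closure (B : Set Γ), g • x₀ = x₀ → g = 1)
    (hA : ∃ c : ℝ, 1 < c ∧ ∀ n : ℕ, c ^ n ≤ ((A ^ n).card : ℝ))
    (hB : ∃ c : ℝ, 1 < c ∧ ∀ n : ℕ, c ^ n ≤ ((B ^ n).card : ℝ)) :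
    ∃ (K : Finset Γ) (τ : List Bool → X), τ [] = x₀ ∧ Function.Injective τ ∧
      ∀ b w, ∃ k ∈ K, τ (b :: w) = k • τ w := by
  obtain ⟨cA, hcA, hA⟩ := hA
  obtain ⟨cB, hcB, hB⟩ := hB
  obtain ⟨kA, rA, hrA, hgA⟩ := exists_power A cA hcA hA
  obtain ⟨kB, rB, hrB, hgB⟩ := exists_power B cB hcB hB
  set C : ℕ := max 1 (max rA rB) with hCd
  have hC : 1 ≤ C := le_max_left _ _
  have hrAC : rA ≤ C := (le_max_left _ _).trans (le_max_right _ _)
  have hrBC : rB ≤ C := (le_max_right _ _).trans (le_max_right _ _)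
  -- the two sides
  set S : Bool → Finset Γ := fun σ => cond σ (insert 1 (B ^ kB)) (insert 1 (A ^ kA)) with hS
  have hseg : ∀ (σ : Bool) (m : ℕ), ∃ (T : Seg Γ (S σ) (Fin (2 ^ C))) (L : ℕ),
      T.D 0 = 0 ∧ Monotone T.D ∧ (∀ i, T.D (i + 1) ≤ T.D i + C) ∧ (∀ i ≤ L, 2 * i ≤ T.D i) ∧
      (∀ i ≤ L, T.D i + 2 * (L - i) ≤ T.D L) ∧ m + 1 ≤ L ∧ L ≤ C * (m + 1) := by
    intro σ m
    cases σ with
    | false => exact exists_segments (A ^ kA) C rA hrAC hrA hgA (m + 1) (by omega)
    | true => exact exists_segments (B ^ kB) C rB hrBC hrB hgB (m + 1) (by omega)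
  choose sg L h0 hmono hinc hpre hsuf hlo hhi using hseg
  set 𝒟 : Bool → SegData C := fun σ =>
    { D := fun m => (sg σ m).D
      L := L σ
      D0 := h0 σ
      mono := hmono σ
      inc := hinc σ
      pre := hpre σ
      suf := hsuf σ
      lo := hlo σ
      hi := hhi σ } with h𝒟
  refine exists_tree_of_schedule (Λ := Fin (2 ^ C)) x₀ S ?_ ?_ sg (2 * C * (6 * C * C)) (C + 3) 2
    (Nat.succ_le_of_lt (by positivity)) ?_
  · intro a ha b hb
    simp only [hS, cond_false, cond_true, Finset.mem_insert] at ha hb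
    rcases ha with rfl | ha
    · simp
    · rcases hb with rfl | hb
      · simp
      · have h1 : ∀ b ∈ B, Commute a b := by
          intro b hb
          have h2 : ∀ a' ∈ A, Commute b a' := fun a' ha' => (hcomm a' ha' b hb).symm
          exact (commute_pow h2 kA a ha).symm
        exact commute_pow h1 kB b hb
  · intro σ g hg hgx
    cases σ with
    | false => exact hstA g (closure_insert_pow A kA hg) hgx
    | true => exact hstB g (closure_insert_pow B kB hg) hgx
  · intro H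
    obtain ⟨R, hR⟩ := run_exists hC 𝒟 _ false (2 * C * (6 * C * C) * H) 0 rfl (by omega)
    set m₀ : Bool → ℕ := fun σ => cond σ 0 (2 * C * (6 * C * C) * H) with hm₀
    refine ⟨R, m₀, ?_, hR.bd, ?_⟩
    · have h1 := hR.lenL
      have h2 := (𝒟 false).lo (2 * C * (6 * C * C) * H)
      have h3 : 2 * C * (6 * C * C) * H ≤ 2 * C * (6 * C * C) * R.length := by omega
      exact Nat.le_of_mul_le_mul_left h3 (by positivity)
    · intro s n hsn
      set st₀ : St := fun σ => [(m₀ σ, 0, 0)] with hst₀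
      have hw := hR.p5 st₀ [] 0 0 0 [] rfl rfl
      obtain ⟨τ, c, hc, hle⟩ := hw.window s n hsn
      refine ⟨τ, c, ?_, hle⟩
      rw [exec_apply] at hc
      simp only [rmk, exec_apply] at hc
      rw [List.map_take, List.map_drop, List.map_take] at hc
      exact hc

/-- **Two commuting finite sets of exponential growth obstruct supramenability.** -/
theorem not_actSupramenable_of_commuting {Γ X : Type*} [Group Γ] [MulAction Γ X] [DecidableEq Γ]
    (x₀ : X) (A B : Finset Γ) (hcomm : ∀ a ∈ A, ∀ b ∈ B, a * b = b * a)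
    (hstA : ∀ g ∈ Subgroup.closure (A : Set Γ), g • x₀ = x₀ → g = 1)
    (hstB : ∀ g ∈ Subgroup.closure (B : Set Γ), g • x₀ = x₀ → g = 1)
    (hA : ∃ c : ℝ, 1 < c ∧ ∀ n : ℕ, c ^ n ≤ ((A ^ n).card : ℝ))
    (hB : ∃ c : ℝ, 1 < c ∧ ∀ n : ℕ, c ^ n ≤ ((B ^ n).card : ℝ)) :
    ¬ ActSupramenable Γ X := by
  obtain ⟨K, τ, _, h1, h2⟩ := exists_tree_of_commuting x₀ A B hcomm hstA hstB hA hB
  exact not_act_of_tree K τ h1 h2

end Pool.Agent.J6H4.Supra
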