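import Pool.Agent.J6H4.Supra.Growth
import Pool.Agent.N485.BT.Crit

set_option autoImplicit false

namespace Pool.Agent.J6H4.Supra

open scoped ENNReal Pointwise Topology
open Filter

section

variable {Γ Δ X : Type*} [Group Γ] [Group Δ] [MulAction Γ X]

lemma supramenable_iff_act : Supramenable Γ ↔ ActSupramenable Γ Γ := Iff.rfl

lemma supramenable_iff_M : Supramenable Γ ↔ Pool.Agent.N485.BT.SupramenableM Γ := Iff.rfl

/-- every action of a supramenable group is supramenable -/
lemma act_of_supramenable (h : Supramenable Γ) : ActSupramenable Γ X := by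
  intro A hA
  obtain ⟨x₀, hx₀⟩ := hA
  obtain ⟨μ, h0, h1, h2, h3⟩ := h {γ | γ • x₀ ∈ A} ⟨1, by simpa using hx₀⟩
  refine ⟨fun B => μ {γ | γ • x₀ ∈ B}, by simpa using h0, ?_, ?_, h3⟩
  · intro B C hBC
    have : {γ : Γ | γ • x₀ ∈ B ∪ C} = {γ | γ • x₀ ∈ B} ∪ {γ | γ • x₀ ∈ C} := rfl
    simp only
    rw [this]
    apply h1
    rw [Set.disjoint_left] at hBC ⊢
    exact fun γ h => hBC h
  · intro g B
    have : {γ : Γ | γ • x₀ ∈ g • B} = g • {γ | γ • x₀ ∈ B} := by
      ext γ
      rw [Set.mem_smul_set_iff_inv_smul_mem]
      simp only [Set.mem_ofPred_eq]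
      rw [Set.mem_smul_set_iff_inv_smul_mem, smul_eq_mul, mul_smul]
    simp only
    rw [this, h2]

/-- quotients of supramenable groups are supramenable -/
lemma supramenable_of_surjective (π : Γ →* Δ) (hπ : Function.Surjective π)
    (h : Supramenable Γ) : Supramenable Δ := by
  intro A hA
  obtain ⟨x, hx⟩ := hA
  obtain ⟨y, rfl⟩ := hπ x
  obtain ⟨μ, h0, h1, h2, h3⟩ := h (π ⁻¹' A) ⟨y, hx⟩
  refine ⟨fun B => μ (π ⁻¹' B), by simpa using h0, ?_, ?_, h3⟩
  · intro B C hBC
    simp only [Set.preimage_union]
    exact h1 _ _ (hBC.preimage π)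
  · intro g B
    obtain ⟨γ, rfl⟩ := hπ g
    have : π ⁻¹' (π γ • B) = γ • (π ⁻¹' B) := by
      ext z
      simp only [Set.mem_preimage, Set.mem_smul_set_iff_inv_smul_mem, smul_eq_mul, map_mul,
        map_inv]
    simp only
    rw [this, h2]

/-- subgroups of supramenable groups are supramenable -/
lemma supramenable_of_injective (ι : Δ →* Γ) (hι : Function.Injective ι)
    (h : Supramenable Γ) : Supramenable Δ := by
  have h1 : Pool.Agent.N485.BT.SupramenableM ι.range :=
    Pool.Agent.N485.BT.supramenable_iff.2 (Pool.Agent.N485.BT.supramenable_subgroup ι.range h)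
  exact supramenable_of_surjective (MonoidHom.ofInjective hι).symm.toMonoidHom
    (MonoidHom.ofInjective hι).symm.surjective h1

lemma supramenable_of_subsingleton {G : Type*} [Group G] [Subsingleton G] : Supramenable G := by
  intro A hA
  classical
  refine ⟨fun B => if (1 : G) ∈ B then 1 else 0, by simp, ?_, ?_, ?_⟩
  · intro B C hBC
    by_cases h : (1 : G) ∈ B
    · have : (1 : G) ∉ C := Set.disjoint_left.1 hBC h
      simp [h, this]
    · simp [h]
  · intro g B
    obtain rfl : g = 1 := Subsingleton.elim _ _
    simp only [one_smul]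
  · obtain ⟨x, hx⟩ := hA
    have : x = 1 := Subsingleton.elim _ _
    simp [this ▸ hx]

/-- the product of a supramenable and an exponentially bounded group (starting files) -/
lemma supramenable_prod_right {G H : Type*} [Group G] [Group H] (hG : Supramenable G)
    (hH : ExponentiallyBounded H) : Supramenable (G × H) :=
  Pool.Agent.N485.BT.supramenable_prod hG (expBounded_of hH)

lemma supramenable_prod_left {G H : Type*} [Group G] [Group H] (hG : ExponentiallyBounded G)
    (hH : Supramenable H) : Supramenable (G × H) :=
  supramenable_of_surjective (MulEquiv.prodComm (M := H) (N := G)).toMonoidHom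
    (MulEquiv.prodComm (M := H) (N := G)).surjective (supramenable_prod_right hH hG)

lemma supramenable_of_expBounded {G : Type*} [Group G] (hG : ExponentiallyBounded G) :
    Supramenable G :=
  supramenable_of_surjective (MonoidHom.snd PUnit.{1} G) Prod.snd_surjective
    (supramenable_prod_right supramenable_of_subsingleton hG)

/-- growth of the image under an injective homomorphism -/
lemma card_image_pow [DecidableEq Γ] [DecidableEq Δ] (ι : Δ →* Γ) (hι : Function.Injective ι)
    (T : Finset Δ) (n : ℕ) : ((T.image ι) ^ n).card = (T ^ n).card := by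
  have : (T.image ι) ^ n = (T ^ n).image ι := (Finset.image_pow ι T n).symm
  rw [this, Finset.card_image_of_injective _ hι]

/-- **Main theorem for actions.** If the action of `Γ` on `X` is supramenable and two commuting
subgroups of `Γ` meet the stabiliser of a point trivially, then one of them is exponentially
bounded. -/
theorem expBounded_or_of_act (x₀ : X) (H K : Subgroup Γ) (hcomm : ∀ h ∈ H, ∀ k ∈ K, h * k = k * h)
    (hH : ∀ h ∈ H, h • x₀ = x₀ → h = 1) (hK : ∀ k ∈ K, k • x₀ = x₀ → k = 1)
    (hact : ActSupramenable Γ X) : ExponentiallyBounded H ∨ ExponentiallyBounded K := by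
  classical
  by_contra hcon
  push Not at hcon
  obtain ⟨T, c, hc, hT⟩ := exists_growing hcon.1
  obtain ⟨T', c', hc', hT'⟩ := exists_growing hcon.2
  have hclH : Subgroup.closure ((T.image H.subtype : Finset Γ) : Set Γ) ≤ H := by
    rw [Subgroup.closure_le]
    intro x hx
    simp only [Finset.coe_image, Set.mem_image, Finset.mem_coe] at hx
    obtain ⟨y, _, rfl⟩ := hx
    exact y.2
  have hclK : Subgroup.closure ((T'.image K.subtype : Finset Γ) : Set Γ) ≤ K := by
    rw [Subgroup.closure_le]
    intro x hx
    simp only [Finset.coe_image, Set.mem_image, Finset.mem_coe] at hx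
    obtain ⟨y, _, rfl⟩ := hx
    exact y.2
  refine not_actSupramenable_of_commuting x₀ (T.image H.subtype) (T'.image K.subtype) ?_ ?_ ?_
    ⟨c, hc, ?_⟩ ⟨c', hc', ?_⟩ hact
  · intro a ha b hb
    simp only [Finset.mem_image] at ha hb
    obtain ⟨x, _, rfl⟩ := ha
    obtain ⟨y, _, rfl⟩ := hb
    exact hcomm x x.2 y y.2
  · exact fun g hg => hH g (hclH hg)
  · exact fun g hg => hK g (hclK hg)
  · intro n
    rw [card_image_pow H.subtype H.subtype_injective]
    exact hT n
  · intro n
    rw [card_image_pow K.subtype K.subtype_injective]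
    exact hT' n

/-- two commuting subgroups of a supramenable group -/
theorem expBounded_or_of_supramenable (H K : Subgroup Γ) (hcomm : ∀ h ∈ H, ∀ k ∈ K, h * k = k * h)
    (h : Supramenable Γ) : ExponentiallyBounded H ∨ ExponentiallyBounded K := by
  refine expBounded_or_of_act (X := Γ) 1 H K hcomm ?_ ?_ h
  · intro h _ h1; simpa using h1
  · intro h _ h1; simpa using h1

/-- exponential boundedness is invariant under injective homomorphisms onto -/
lemma expBounded_of_injective (ι : Δ →* Γ) (hι : Function.Injective ι)
    (h : ExponentiallyBounded Γ) : ExponentiallyBounded Δ := by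
  classical
  intro S
  have h1 := h (S.image ι)
  have h2 : ∀ n : ℕ, (1 : ℝ) ≤ ((Nat.card (ball S n) : ℕ) : ℝ) := by
    intro n
    have : 1 ≤ Nat.card (ball S n) := by
      rw [Nat.card_coe_set_eq, ball_eq, Set.ncard_coe_finset, Nat.one_le_iff_ne_zero,
        Finset.card_ne_zero]
      exact ⟨1, Finset.one_mem_pow (by simp)⟩
    exact_mod_cast this
  have h3 : ∀ n : ℕ, ((Nat.card (ball S n) : ℕ) : ℝ) ≤
      ((Nat.card (ball (S.image ι) n) : ℕ) : ℝ) := by
    intro n
    have : Nat.card (ball S n) ≤ Nat.card (ball (S.image ι) n) := by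
      rw [Nat.card_coe_set_eq, Nat.card_coe_set_eq]
      refine Set.ncard_le_ncard_of_injOn ι ?_ (hι.injOn) ?_
      · rintro g ⟨l, hl1, hl2, rfl⟩
        refine ⟨l.map ι, by simpa using hl1, ?_, by rw [map_list_prod]⟩
        intro x hx
        rw [List.mem_map] at hx
        obtain ⟨y, hy, rfl⟩ := hx
        rcases hl2 y hy with h | h
        · left; exact Finset.mem_image_of_mem _ h
        · right; rw [← map_inv]; exact Finset.mem_image_of_mem _ h
      · rw [ball_eq]; exact Finset.finite_toSet _
    exact_mod_cast this
  refine tendsto_of_tendsto_of_tendsto_of_le_of_le tendsto_const_nhds h1 ?_ ?_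
  · intro n
    exact Real.one_le_rpow (h2 n) (by positivity)
  · intro n
    exact Real.rpow_le_rpow (by positivity) (h3 n) (by positivity)

/-- **Direct products.** -/
theorem supramenable_prod_iff {G H : Type*} [Group G] [Group H] :
    Supramenable (G × H) ↔
      Supramenable G ∧ Supramenable H ∧ (ExponentiallyBounded G ∨ ExponentiallyBounded H) := by
  constructor
  · intro h
    refine ⟨supramenable_of_surjective (MonoidHom.fst G H) Prod.fst_surjective h,
      supramenable_of_surjective (MonoidHom.snd G H) Prod.snd_surjective h, ?_⟩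
    have h1 := expBounded_or_of_supramenable (MonoidHom.inl G H).range (MonoidHom.inr G H).range
      (by
        rintro _ ⟨a, rfl⟩ _ ⟨b, rfl⟩
        simp) h
    have hinl : Function.Injective (MonoidHom.inl G H) := fun a b hab => by simpa using hab
    have hinr : Function.Injective (MonoidHom.inr G H) := fun a b hab => by simpa using hab
    rcases h1 with h1 | h1
    · left
      exact expBounded_of_injective (MonoidHom.ofInjective hinl).toMonoidHom
        (MonoidHom.ofInjective hinl).injective h1
    · right
      exact expBounded_of_injective (MonoidHom.ofInjective hinr).toMonoidHom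
        (MonoidHom.ofInjective hinr).injective h1
  · rintro ⟨hG, hH, h | h⟩
    · exact supramenable_prod_left h hH
    · exact supramenable_prod_right hG h

/-- **Squares.** -/
theorem supramenable_square_iff {G : Type*} [Group G] :
    Supramenable (G × G) ↔ ExponentiallyBounded G := by
  rw [supramenable_prod_iff]
  constructor
  · rintro ⟨_, _, h | h⟩ <;> exact h
  · intro h
    exact ⟨supramenable_of_expBounded h, supramenable_of_expBounded h, Or.inl h⟩

end

end Pool.Agent.J6H4.Supra
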