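import Pool.Agent.J6H4.Supra.Families

set_option autoImplicit false

namespace Pool.Agent.J6H4.Supra

open scoped ENNReal Pointwise Topology
open Filter

/-- The restricted direct product of a family of groups: the elements of the direct product all but
finitely many coordinates of which are trivial. -/
def RestrictedProduct {ι : Type*} (G : ι → Type*) [∀ i, Group (G i)] : Subgroup (∀ i, G i) where
  carrier := {f | {i | f i ≠ 1}.Finite}
  one_mem' := by simp
  mul_mem' := by
    intro f g hf hg
    refine (hf.union hg).subset ?_
    intro i hi
    simp only [Set.mem_ofPred_eq, Set.mem_union, Pi.mul_apply] at hi ⊢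
    by_contra hcon
    push Not at hcon
    exact hi (by rw [hcon.1, hcon.2, mul_one])
  inv_mem' := by
    intro f hf
    simpa using hf

section

variable {ι : Type*} {G : ι → Type*} [∀ i, Group (G i)] [DecidableEq ι]

/-- the embedding of a factor -/
def factor (i : ι) : G i →* RestrictedProduct G where
  toFun x := ⟨Pi.mulSingle i x, by
    refine (Set.finite_singleton i).subset ?_
    intro j hj
    by_contra hcon
    exact hj (Pi.mulSingle_eq_of_ne hcon x)⟩
  map_one' := by ext1; simp
  map_mul' x y := by ext1; simp [Pi.mulSingle_mul]

lemma factor_injective (i : ι) : Function.Injective (factor (G := G) i) := by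
  intro x y h
  have := congrArg (fun f : RestrictedProduct G => (f : ∀ i, G i) i) h
  simpa [factor] using this

lemma factor_iSup : (⨆ i, (factor (G := G) i).range : Subgroup (RestrictedProduct G)) = ⊤ := by
  rw [eq_top_iff]
  rintro ⟨f, hf⟩ -
  -- induction on the support
  have key : ∀ (s : Finset ι) (f : ∀ i, G i) (hf : f ∈ RestrictedProduct G),
      (∀ i, f i ≠ 1 → i ∈ s) →
      (⟨f, hf⟩ : RestrictedProduct G) ∈ (⨆ i, (factor (G := G) i).range :
        Subgroup (RestrictedProduct G)) := by
    intro s
    induction s using Finset.induction_on with
    | empty =>
      intro f hf hs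
      have : (⟨f, hf⟩ : RestrictedProduct G) = 1 := by
        ext i
        by_contra hcon
        simpa using hs i hcon
      rw [this]
      exact one_mem _
    | insert a s ha ih =>
      intro f hf hs
      have hu : Function.update f a 1 ∈ RestrictedProduct G := by
        refine hf.subset ?_
        intro i hi
        simp only [Set.mem_ofPred_eq] at hi ⊢
        intro h1
        apply hi
        by_cases hia : i = a
        · subst hia; simp
        · rw [Function.update_of_ne hia, h1]
      have h1 := ih (Function.update f a 1) hu (by
        intro i hi
        by_cases hia : i = a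
        · subst hia; simp at hi
        · rw [Function.update_of_ne hia] at hi
          rcases Finset.mem_insert.1 (hs i hi) with h | h
          · exact absurd h hia
          · exact h)
      have h2 : factor (G := G) a (f a) ∈ (⨆ i, (factor (G := G) i).range :
          Subgroup (RestrictedProduct G)) :=
        le_iSup (fun i => (factor (G := G) i).range) a ⟨f a, rfl⟩
      have h3 : (⟨f, hf⟩ : RestrictedProduct G) =
          factor (G := G) a (f a) * ⟨Function.update f a 1, hu⟩ := by
        ext i
        by_cases hia : i = a
        · subst hia
          simp [factor]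
        · simp [factor, Pi.mulSingle_eq_of_ne hia, Function.update_of_ne hia]
      rw [h3]
      exact mul_mem h2 h1
  have hf' : {i | f i ≠ 1}.Finite := hf
  exact key hf'.toFinset f hf (fun i hi => (Set.Finite.mem_toFinset hf').2 hi)

lemma factor_comm (i j : ι) (hij : i ≠ j) : ∀ x ∈ (factor (G := G) i).range,
    ∀ y ∈ (factor (G := G) j).range, x * y = y * x := by
  rintro _ ⟨x, rfl⟩ _ ⟨y, rfl⟩
  ext1
  exact (Pi.mulSingle_commute hij x y).eq

end

/-- **Restricted direct products.** -/
theorem supramenable_restrictedProduct_iff {ι : Type*} {G : ι → Type*} [∀ i, Group (G i)] :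
    Supramenable (RestrictedProduct G) ↔ (∀ i, Supramenable (G i)) ∧
      ∀ i j, i ≠ j → ExponentiallyBounded (G i) ∨ ExponentiallyBounded (G j) := by
  classical
  rw [supramenable_iff_of_commuting_family (fun i => (factor (G := G) i).range) factor_comm
    factor_iSup]
  have hinj : ∀ i, Function.Injective (factor (G := G) i).rangeRestrict :=
    fun i x y h => factor_injective i (congrArg Subtype.val h)
  have hsur : ∀ i, Function.Surjective (factor (G := G) i).rangeRestrict :=
    fun i => MonoidHom.rangeRestrict_surjective _
  have h1 : ∀ i, Supramenable (factor (G := G) i).range ↔ Supramenable (G i) := fun i =>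
    ⟨supramenable_of_injective _ (hinj i), supramenable_of_surjective _ (hsur i)⟩
  have h2 : ∀ i, ExponentiallyBounded (factor (G := G) i).range ↔
      ExponentiallyBounded (G i) := fun i =>
    ⟨expBounded_of_injective _ (hinj i), expBounded_of_surjective _ (hsur i)⟩
  simp only [h1, h2]

end Pool.Agent.J6H4.Supra
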