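import Pool.Agent.J6H4.Supra.Stack

set_option autoImplicit false

namespace Pool.Agent.J6H4.Supra

/-- numerical data of a family of segments; segment `m` has length `L m ∈ [m+1, C (m+1)]` -/
structure SegData (C : ℕ) where
  D : ℕ → ℕ → ℕ
  L : ℕ → ℕ
  D0 : ∀ m, D m 0 = 0
  mono : ∀ m, Monotone (D m)
  inc : ∀ m i, D m (i + 1) ≤ D m i + C
  pre : ∀ m i, i ≤ L m → 2 * i ≤ D m i
  suf : ∀ m i, i ≤ L m → D m i + 2 * (L m - i) ≤ D m (L m)
  lo : ∀ m, m + 1 ≤ L m
  hi : ∀ m, L m ≤ C * (m + 1)

abbrev Op := Bool → SOp
abbrev St := Bool → List (ℕ × ℕ × ℕ)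

def act (o : Op) (st : St) : St := fun τ => sact (o τ) (st τ)
def exec (l : List Op) (st : St) : St := l.foldl (fun st o => act o st) st
def rmk (st : St) : St := fun τ => remark (st τ)
def mk (σ : Bool) (a b : SOp) : Op := fun τ => if τ = σ then a else b

lemma mk_self (σ : Bool) (a b : SOp) : mk σ a b σ = a := by simp [mk]
lemma mk_not (σ : Bool) (a b : SOp) : mk σ a b (!σ) = b := by
  cases σ <;> simp [mk]

lemma exec_nil (st : St) : exec [] st = st := rfl
lemma exec_cons (o : Op) (l : List Op) (st : St) : exec (o :: l) st = exec l (act o st) := rfl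
lemma exec_append (l l' : List Op) (st : St) : exec (l ++ l') st = exec l' (exec l st) := by
  simp [exec, List.foldl_append]

lemma exec_apply (l : List Op) (st : St) (τ : Bool) :
    exec l st τ = sexec (l.map fun o => o τ) (st τ) := by
  induction l generalizing st with
  | nil => rfl
  | cons o l ih =>
    rw [exec_cons, ih, List.map_cons]
    rfl

/-- `P` holds at all times, the clock starting at `a` -/
def Runs (P : ℕ → St → Prop) : ℕ → List Op → St → Prop
  | a, [], st => P a st
  | a, o :: l, st => P a st ∧ Runs P (a + 1) l (act o st)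

lemma Runs.head {P : ℕ → St → Prop} {a : ℕ} {l : List Op} {st : St} (h : Runs P a l st) :
    P a st := by
  cases l with
  | nil => exact h
  | cons o l => exact h.1

lemma runs_append {P : ℕ → St → Prop} {a : ℕ} {l l' : List Op} {st : St} :
    Runs P a (l ++ l') st ↔ Runs P a l st ∧ Runs P (a + l.length) l' (exec l st) := by
  induction l generalizing a st with
  | nil =>
    simp only [List.nil_append, List.length_nil, Nat.add_zero, exec_nil]
    exact ⟨fun h => ⟨h.head, h⟩, fun h => h.2⟩
  | cons o l ih =>
    simp only [List.cons_append, Runs, List.length_cons, exec_cons, ih]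
    rw [show a + 1 + l.length = a + (l.length + 1) by ring, and_assoc]

lemma Runs.imp {P Q : ℕ → St → Prop} (c : ℕ) (h : ∀ a st, P a st → Q (a + c) st) {a : ℕ}
    {l : List Op} {st : St} (hr : Runs P a l st) : Runs Q (a + c) l st := by
  induction l generalizing a st with
  | nil => exact h _ _ hr
  | cons o l ih =>
    refine ⟨h _ _ hr.1, ?_⟩
    have := ih hr.2
    rwa [show a + 1 + c = a + c + 1 by ring] at this

lemma Runs.take {P : ℕ → St → Prop} {a : ℕ} {l : List Op} {st : St} (h : Runs P a l st)
    (n : ℕ) (hn : n ≤ l.length) : P (a + n) (exec (l.take n) st) := by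
  induction n generalizing a l st with
  | zero => simpa [exec] using h.head
  | succ n ih =>
    cases l with
    | nil => simp at hn
    | cons o l =>
      have := ih h.2 (by simpa using hn)
      rw [List.take_succ_cons, exec_cons]
      rwa [show a + 1 + n = a + (n + 1) by ring] at this

/-- all windows: `P` inside every window, `Q` for windows reaching the end -/
def Wins (P Q : ℕ → St → Prop) : List Op → St → Prop
  | [], st => Runs P 0 [] (rmk st) ∧ Q 0 (rmk st)
  | o :: l, st => (Runs P 0 (o :: l) (rmk st) ∧ Q (l.length + 1) (exec (o :: l) (rmk st))) ∧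
      Wins P Q l (act o st)

lemma Wins.head {P Q : ℕ → St → Prop} {l : List Op} {st : St} (h : Wins P Q l st) :
    Runs P 0 l (rmk st) ∧ Q l.length (exec l (rmk st)) := by
  cases l with
  | nil => exact h
  | cons o l => exact h.1

lemma wins_append {P Q Q' : ℕ → St → Prop} {l l' : List Op} {st : St} (h : Wins P Q' l st)
    (hQ : ∀ a st', Q' a st' → Runs P a l' st' ∧ Q (a + l'.length) (exec l' st'))
    (h' : Wins P Q l' (exec l st)) : Wins P Q (l ++ l') st := by
  induction l generalizing st with
  | nil => exact h'
  | cons o l ih =>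
    rw [List.cons_append]
    refine ⟨⟨?_, ?_⟩, ih h.2 h'⟩
    · have h1 := h.head
      have h2 := hQ _ _ h1.2
      rw [← List.cons_append, runs_append]
      refine ⟨h1.1, ?_⟩
      rw [Nat.zero_add]
      exact h2.1
    · have h1 := h.head
      have h2 := hQ _ _ h1.2
      rw [← List.cons_append, exec_append]
      have h3 := h2.2
      simp only [List.length_cons] at h3
      rw [List.length_append, show l.length + l'.length + 1 = l.length + 1 + l'.length by ring]
      exact h3

lemma Wins.window {P Q : ℕ → St → Prop} {l : List Op} {st : St} (h : Wins P Q l st)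
    (s n : ℕ) (hs : s + n ≤ l.length) :
    P n (exec ((l.drop s).take n) (rmk (exec (l.take s) st))) := by
  induction s generalizing l st with
  | zero =>
    simp only [List.drop_zero, List.take_zero, exec_nil]
    have := h.head.1.take n (by omega)
    rwa [Nat.zero_add] at this
  | succ s ih =>
    cases l with
    | nil => simp at hs
    | cons o l =>
      simp only [List.length_cons] at hs
      rw [List.drop_succ_cons, List.take_succ_cons, exec_cons]
      exact ih h.2 (by omega)

end Pool.Agent.J6H4.Supra
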