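import Pool.Agent.J6H4.Supra.Crit

set_option autoImplicit false

namespace Pool.Agent.J6H4.Supra

open scoped ENNReal Pointwise
open Pool.Agent.Helper241Spread Pool.Agent.Helper241Spread.TTree

section general

variable {α β γ : Type*}

lemma pmf_bind_congr (p : PMF α) (f g : α → PMF β) (h : ∀ a ∈ p.support, f a = g a) :
    p.bind f = p.bind g := by
  apply PMF.ext
  intro b
  rw [PMF.bind_apply, PMF.bind_apply]
  apply tsum_congr
  intro a
  by_cases ha : a ∈ p.support
  · rw [h a ha]
  · rw [(PMF.apply_eq_zero_iff _ _).2 ha]; simp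

lemma pmf_map_congr (p : PMF α) (f g : α → β) (h : ∀ a ∈ p.support, f a = g a) :
    p.map f = p.map g := by
  rw [PMF.map, PMF.map]
  exact pmf_bind_congr p _ _ (fun a ha => by simp [h a ha])

lemma law_map {V W : Type*} (s : V → PMF V) (t : W → PMF W) (f : V → W)
    (h : ∀ u, (s u).map f = t (f u)) (n : ℕ) (u : V) :
    (law s n u).map f = law t n (f u) := by
  induction n generalizing u with
  | zero => simp [law, PMF.pure_map]
  | succ n ih =>
    rw [law, law, ← h u, PMF.bind_map, PMF.map_bind]
    congr 1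
    funext v
    exact ih v

end general

section ext

variable {Λ : Type} [Fintype Λ] [Nonempty Λ]

/-- append `n` uniform letters (the latest letter comes first) -/
noncomputable def ext : ℕ → List Λ → PMF (List Λ)
  | 0, w => PMF.pure w
  | n + 1, w => (ext n w).bind fun w' => (PMF.uniformOfFintype Λ).map fun a => a :: w'

lemma ext_add (m n : ℕ) (w : List Λ) : ext (m + n) w = (ext m w).bind (ext n) := by
  induction n with
  | zero => simp [ext]
  | succ n ih =>
    rw [← add_assoc, ext, ih, PMF.bind_bind]
    rfl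

lemma ext_length (n : ℕ) (w w' : List Λ) (h : w' ∈ (ext n w).support) :
    w'.length = w.length + n := by
  induction n generalizing w' with
  | zero =>
    simp only [ext, PMF.mem_support_pure_iff] at h
    simp [h]
  | succ n ih =>
    simp only [ext, PMF.mem_support_bind_iff, PMF.mem_support_map_iff] at h
    obtain ⟨w'', h1, a, _, rfl⟩ := h
    rw [List.length_cons, ih w'' h1]; ring

lemma ext_append (n : ℕ) (w : List Λ) : (ext n ([] : List Λ)).map (fun v => v ++ w) = ext n w := by
  induction n with
  | zero => simp [ext, PMF.pure_map]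
  | succ n ih =>
    rw [ext, ext, ← ih, PMF.map_bind, PMF.bind_map]
    congr 1
    funext v
    rw [PMF.map_comp]
    rfl

lemma ext_drop (j k : ℕ) (w : List Λ) : (ext (k + j) w).map (fun v => v.drop j) = ext k w := by
  induction j with
  | zero => exact PMF.map_id _
  | succ j ih =>
    rw [← add_assoc, ext, PMF.map_bind, ← ih, PMF.map]
    congr 1
    funext v
    rw [PMF.map_comp]
    have : ((fun v : List Λ => v.drop (j + 1)) ∘ fun a => a :: v) =
        Function.const _ (v.drop j) := by
      funext a; simp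
    rw [this, PMF.map_const]
    rfl

lemma ext_letters (K k : ℕ) (hk : k ≤ K) (w : List Λ) :
    (ext K ([] : List Λ)).map (fun v => v.drop (K - k) ++ w) = ext k w := by
  have h := ext_drop (K - k) k ([] : List Λ)
  rw [show k + (K - k) = K by omega] at h
  rw [← ext_append k w, ← h, PMF.map_comp]
  rfl

end ext

/-- operations on a stack -/
inductive SOp
  | adv (k : ℕ)
  | ret
  | push (m : ℕ)

/-- the bound on the advances -/
def SOp.le (K : ℕ) : SOp → Prop
  | .adv k => k ≤ K
  | _ => True

/-- stacks of levels with marks: (identifier, level, mark) -/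
def sact : SOp → List (ℕ × ℕ × ℕ) → List (ℕ × ℕ × ℕ)
  | .adv k, (m, l, r) :: s => (m, l + k, r) :: s
  | .adv _, [] => []
  | .ret, (m, l + 1, r) :: s => (m, l, min r l) :: s
  | .ret, (_, 0, _) :: s => s
  | .ret, [] => []
  | .push m, s => (m, 0, 0) :: s

/-- forget the marks -/
def lev (s : List (ℕ × ℕ × ℕ)) : List (ℕ × ℕ) := s.map fun c => (c.1, c.2.1)

/-- set the marks to the present levels -/
def remark (s : List (ℕ × ℕ × ℕ)) : List (ℕ × ℕ × ℕ) := s.map fun c => (c.1, c.2.1, c.2.1)

/-- stack with marks equal to levels -/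
def ofLev (s : List (ℕ × ℕ)) : List (ℕ × ℕ × ℕ) := s.map fun c => (c.1, c.2, c.2)

lemma remark_eq (s : List (ℕ × ℕ × ℕ)) : remark s = ofLev (lev s) := by
  simp [remark, ofLev, lev]

/-- level stacks -/
def lact : SOp → List (ℕ × ℕ) → List (ℕ × ℕ)
  | .adv k, (m, l) :: s => (m, l + k) :: s
  | .adv _, [] => []
  | .ret, (m, l + 1) :: s => (m, l) :: s
  | .ret, (_, 0) :: s => s
  | .ret, [] => []
  | .push m, s => (m, 0) :: s

lemma lev_sact (o : SOp) (s : List (ℕ × ℕ × ℕ)) : lev (sact o s) = lact o (lev s) := by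
  rcases o with k | _ | m
  · rcases s with _ | ⟨⟨m, l, r⟩, s⟩ <;> simp [sact, lact, lev]
  · rcases s with _ | ⟨⟨m, _ | l, r⟩, s⟩ <;> simp [sact, lact, lev]
  · simp [sact, lact, lev]

section words

variable {Λ : Type} [Fintype Λ] [Inhabited Λ]

/-- actual stacks -/
def aact (K : ℕ) (v : List Λ) : SOp → List (ℕ × List Λ) → List (ℕ × List Λ)
  | .adv k, (m, w) :: s => (m, v.drop (K - k) ++ w) :: s
  | .adv _, [] => []
  | .ret, (m, _ :: w) :: s => (m, w) :: s
  | .ret, (_, []) :: s => s
  | .ret, [] => []
  | .push m, s => (m, []) :: s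

/-- patterns: (identifier, number of fresh letters, old word) -/
def pact : SOp → List (ℕ × ℕ × List Λ) → List (ℕ × ℕ × List Λ)
  | .adv k, (m, f, w) :: s => (m, f + k, w) :: s
  | .adv _, [] => []
  | .ret, (m, f + 1, w) :: s => (m, f, w) :: s
  | .ret, (m, 0, _ :: w) :: s => (m, 0, w) :: s
  | .ret, (_, 0, []) :: s => s
  | .ret, [] => []
  | .push m, s => (m, 0, []) :: s

/-- the pattern of an actual stack -/
def pat (u : List (ℕ × List Λ)) : List (ℕ × ℕ × List Λ) := u.map fun c => (c.1, 0, c.2)

/-- the shape of a pattern -/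
def shp (P : List (ℕ × ℕ × List Λ)) : List (ℕ × ℕ × ℕ) :=
  P.map fun c => (c.1, c.2.1 + c.2.2.length, c.2.2.length)

/-- the levels of an actual stack -/
def alv (u : List (ℕ × List Λ)) : List (ℕ × ℕ) := u.map fun c => (c.1, c.2.length)

omit [Fintype Λ] [Inhabited Λ] in
lemma shp_pat (u : List (ℕ × List Λ)) : shp (pat u) = ofLev (alv u) := by
  simp [shp, pat, ofLev, alv]

omit [Fintype Λ] [Inhabited Λ] in
lemma shp_pact (o : SOp) (P : List (ℕ × ℕ × List Λ)) : shp (pact o P) = sact o (shp P) := by
  rcases o with k | _ | m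
  · rcases P with _ | ⟨⟨m, f, w⟩, P⟩
    · simp [pact, sact, shp]
    · simp [pact, sact, shp]; omega
  · rcases P with _ | ⟨⟨m, _ | f, w⟩, P⟩
    · simp [pact, sact, shp]
    · rcases w with _ | ⟨a, w⟩
      · simp [pact, sact, shp]
      · simp [pact, sact, shp]
    · simp only [pact, shp, List.map_cons]
      rw [show f + 1 + w.length = (f + w.length) + 1 by ring, sact]
      simp
  · simp [pact, sact, shp]

/-- a word of length `K` in any case -/
def fit (K : ℕ) (v : List Λ) : List Λ := if v.length = K then v else List.replicate K default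

omit [Fintype Λ] in
lemma fit_length (K : ℕ) (v : List Λ) : (fit K v).length = K := by
  unfold fit
  split_ifs with h
  · exact h
  · simp

omit [Fintype Λ] [Inhabited Λ] in
lemma alv_aact (K : ℕ) (v : List Λ) (hv : v.length = K) (o : SOp) (ho : o.le K)
    (u : List (ℕ × List Λ)) : alv (aact K v o u) = lact o (alv u) := by
  rcases o with k | _ | m
  · rcases u with _ | ⟨⟨m, w⟩, u⟩
    · simp [aact, lact, alv]
    · simp only [SOp.le] at ho
      simp only [aact, lact, alv, List.map_cons, List.length_append, List.length_drop, hv,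
        List.cons.injEq, Prod.mk.injEq, true_and, and_true]
      omega
  · rcases u with _ | ⟨⟨m, _ | ⟨a, w⟩⟩, u⟩ <;> simp [aact, lact, alv]
  · simp [aact, lact, alv]

/-- the random stack of a pattern -/
noncomputable def smp : List (ℕ × ℕ × List Λ) → PMF (List (ℕ × List Λ))
  | [] => PMF.pure []
  | (m, f, w) :: s => (ext f w).bind fun w' => (smp s).map fun s' => (m, w') :: s'

lemma smp_pat (u : List (ℕ × List Λ)) : smp (pat u) = PMF.pure u := by
  induction u with
  | nil => simp [pat, smp]
  | cons c u ih =>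
    rcases c with ⟨m, w⟩
    simp only [pat, List.map_cons, smp, ext] at ih ⊢
    rw [ih, PMF.pure_bind, PMF.pure_map]

lemma smp_step (K : ℕ) (o : SOp) (ho : o.le K) (u : List (ℕ × List Λ)) :
    (ext K ([] : List Λ)).map (fun v => aact K v o u) = smp (pact o (pat u)) := by
  rcases o with k | _ | m
  · rcases u with _ | ⟨⟨m, w⟩, u⟩
    · simp only [aact, pat, pact, smp, List.map_nil]
      exact PMF.map_const _ _
    · simp only [SOp.le] at ho
      simp only [aact, pat, pact, smp, List.map_cons]
      have := smp_pat u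
      rw [pat] at this
      rw [this, Nat.zero_add, ← ext_letters K k ho w, PMF.bind_map, PMF.map]
      congr 1
      funext v
      simp [PMF.pure_map]
  · rcases u with _ | ⟨⟨m, _ | ⟨a, w⟩⟩, u⟩
    · simp only [aact, pat, pact, smp, List.map_nil]
      exact PMF.map_const _ _
    · simp only [aact, pat, pact, List.map_cons]
      have := smp_pat u
      rw [pat] at this
      rw [this]
      exact PMF.map_const _ _
    · simp only [aact, pat, pact, List.map_cons]
      have := smp_pat ((m, w) :: u)
      rw [pat, List.map_cons] at this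
      rw [this]
      exact PMF.map_const _ _
  · simp only [aact, pact]
    have := smp_pat ((m, []) :: u)
    rw [pat, List.map_cons] at this
    rw [pat, this]
    exact PMF.map_const _ _

lemma smp_pat' (u : List (ℕ × List Λ)) :
    smp (List.map (fun c => (c.1, 0, c.2)) u) = PMF.pure u := smp_pat u

lemma smp_bind (o : SOp) (P : List (ℕ × ℕ × List Λ)) :
    (smp P).bind (fun u => smp (pact o (pat u))) = smp (pact o P) := by
  rcases o with k | _ | m
  · rcases P with _ | ⟨⟨m, f, w⟩, P⟩
    · simp [smp, pact, pat]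
    · simp only [smp, pact, PMF.bind_bind, PMF.bind_map, Function.comp_def, pat, List.map_cons,
        Nat.zero_add, smp_pat', PMF.pure_map]
      rw [ext_add, PMF.bind_bind]
      congr 1
      funext w'
      rw [PMF.bind_comm]
      rfl
  · rcases P with _ | ⟨⟨m, _ | f, w⟩, P⟩
    · simp [smp, pact, pat]
    · rcases w with _ | ⟨a, w⟩
      · simp only [smp, pact, ext, PMF.pure_bind, PMF.bind_map, Function.comp_def, pat,
          List.map_cons, smp_pat']
        exact PMF.bind_pure _
      · simp only [smp, pact, ext, PMF.pure_bind, PMF.bind_map, Function.comp_def, pat,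
          List.map_cons, smp_pat', PMF.pure_map]
        rfl
    · simp only [smp, pact, ext, PMF.bind_bind, PMF.bind_map, Function.comp_def, pat,
          List.map_cons, smp_pat', PMF.pure_map, PMF.pure_bind]
      congr 1
      funext w'
      rw [PMF.bind_const]
      rfl
  · simp only [smp, pact, ext, PMF.pure_bind, pat, smp_pat', PMF.pure_map]
    rfl

/-- the kernel drawing `K` letters -/
noncomputable def hstep (Λ : Type) [Fintype Λ] [Inhabited Λ] (K : ℕ) (h : List (List Λ)) :
    PMF (List (List Λ)) :=
  (ext K ([] : List Λ)).map fun v => v :: h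

/-- the stack at a history -/
def stk (K : ℕ) (l : List SOp) (u₀ : List (ℕ × List Λ)) : List (List Λ) → List (ℕ × List Λ)
  | [] => u₀
  | v :: h => aact K (fit K v) (l.getD h.length (.adv 0)) (stk K l u₀ h)

/-- execution on patterns -/
def pexec (l : List SOp) (P : List (ℕ × ℕ × List Λ)) : List (ℕ × ℕ × List Λ) :=
  l.foldl (fun P o => pact o P) P

end words

/-- execution on marked stacks -/
def sexec (l : List SOp) (s : List (ℕ × ℕ × ℕ)) : List (ℕ × ℕ × ℕ) :=
  l.foldl (fun P o => sact o P) s

/-- execution on level stacks -/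
def lexec (l : List SOp) (s : List (ℕ × ℕ)) : List (ℕ × ℕ) :=
  l.foldl (fun P o => lact o P) s

lemma lev_sexec (l : List SOp) (s : List (ℕ × ℕ × ℕ)) :
    lev (sexec l s) = lexec l (lev s) := by
  induction l generalizing s with
  | nil => rfl
  | cons o l ih =>
    simp only [sexec, lexec, List.foldl_cons] at ih ⊢
    rw [ih, lev_sact]

section words2

variable {Λ : Type} [Fintype Λ] [Inhabited Λ]

omit [Fintype Λ] [Inhabited Λ] in
lemma shp_pexec (l : List SOp) (P : List (ℕ × ℕ × List Λ)) :
    shp (pexec l P) = sexec l (shp P) := by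
  induction l generalizing P with
  | nil => rfl
  | cons o l ih =>
    simp only [sexec, pexec, List.foldl_cons] at ih ⊢
    rw [ih, shp_pact]

lemma hstep_length (K n : ℕ) (h h' : List (List Λ))
    (hh : h' ∈ (law (hstep Λ K) n h).support) : h'.length = h.length + n := by
  refine law_time (fun h : List (List Λ) => h.length) (hstep Λ K) ?_ n h h' hh
  intro u v hv
  simp only [hstep, PMF.mem_support_map_iff] at hv
  obtain ⟨w, _, rfl⟩ := hv
  simp

omit [Fintype Λ] in
lemma alv_stk (K : ℕ) (l : List SOp) (hl : ∀ o ∈ l, SOp.le K o) (u₀ : List (ℕ × List Λ))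
    (h : List (List Λ)) (hh : h.length ≤ l.length) :
    alv (stk K l u₀ h) = lexec (l.take h.length) (alv u₀) := by
  induction h with
  | nil => simp [stk, lexec]
  | cons v h ih =>
    simp only [List.length_cons] at hh
    have hlt : h.length < l.length := by omega
    rw [stk, alv_aact K _ (fit_length K v), ih (by omega), List.length_cons,
      List.take_add_one, lexec, lexec, List.foldl_append, List.getD_eq_getElem _ _ hlt,
      List.getElem?_eq_getElem hlt]
    · simp
    · rw [List.getD_eq_getElem _ _ hlt]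
      exact hl _ (List.getElem_mem _)

lemma law_stk (K : ℕ) (l : List SOp) (hl : ∀ o ∈ l, SOp.le K o) (u₀ : List (ℕ × List Λ))
    (n : ℕ) (h : List (List Λ)) (hh : h.length + n ≤ l.length) :
    (law (hstep Λ K) n h).map (stk K l u₀) =
      smp (pexec ((l.drop h.length).take n) (pat (stk K l u₀ h))) := by
  induction n with
  | zero =>
    simp [law, PMF.pure_map, pexec, smp_pat]
  | succ n ih =>
    have hlt : h.length + n < l.length := by omega
    rw [law_add, PMF.map_bind]
    have e1 : ∀ h' ∈ (law (hstep Λ K) n h).support,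
        (law (hstep Λ K) 1 h').map (stk K l u₀) =
          smp (pact (l[h.length + n]) (pat (stk K l u₀ h'))) := by
      intro h' hh'
      have hlen := hstep_length K n h h' hh'
      rw [law_one, hstep, PMF.map_comp]
      have ho : SOp.le K (l[h.length + n]) := hl _ (List.getElem_mem _)
      rw [← smp_step K _ ho]
      apply pmf_map_congr
      intro v hv
      have hv' := ext_length K _ _ hv
      simp only [List.length_nil, Nat.zero_add] at hv'
      simp only [Function.comp, stk, hlen]
      rw [List.getD_eq_getElem _ _ hlt, fit, if_pos hv']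
    rw [pmf_bind_congr _ _ _ e1]
    have e2 : (law (hstep Λ K) n h).bind
        (fun h' => smp (pact (l[h.length + n]) (pat (stk K l u₀ h')))) =
        ((law (hstep Λ K) n h).map (stk K l u₀)).bind
          (fun u => smp (pact (l[h.length + n]) (pat u))) := by
      rw [PMF.bind_map]; rfl
    rw [e2, ih (by omega), smp_bind, pexec, pexec, List.take_add_one, List.foldl_append,
      List.getElem?_drop, List.getElem?_eq_getElem hlt]
    simp

/-- A segment: an encoder with a guaranteed number `D` of bits. -/
structure Seg (Γ : Type*) [Group Γ] (B : Finset Γ) (Λ : Type) [Fintype Λ] [Inhabited Λ] where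
  enc : List Λ → Γ
  D : ℕ → ℕ
  enc_nil : enc [] = 1
  enc_cons : ∀ a w, ∃ b ∈ B, enc (a :: w) = enc w * b
  spread : ∀ (n : ℕ) (w : List Λ) (g : Γ),
    ((ext n w).map enc) g ≤ (2⁻¹ : ℝ≥0∞) ^ (D (w.length + n) - D w.length)

variable {Γ : Type*} [Group Γ] {B : Finset Γ}

/-- the value of a stack -/
def sval (sg : ℕ → Seg Γ B Λ) : List (ℕ × List Λ) → Γ
  | [] => 1
  | (m, w) :: s => sval sg s * (sg m).enc w

end words2

section bounds

variable {α β Γ : Type*} [Group Γ]

lemma pmf_map_mul_right (p : PMF α) (φ : α → Γ) (g y : Γ) :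
    (p.map fun a => φ a * g) y = (p.map φ) (y * g⁻¹) := by
  classical
  rw [PMF.map_apply, PMF.map_apply]
  apply tsum_congr
  intro a
  congr 1
  rw [eq_iff_iff, mul_inv_eq_iff_eq_mul]

lemma pmf_map_mul_left (p : PMF α) (φ : α → Γ) (g y : Γ) :
    (p.map fun a => g * φ a) y = (p.map φ) (g⁻¹ * y) := by
  classical
  rw [PMF.map_apply, PMF.map_apply]
  apply tsum_congr
  intro a
  congr 1
  rw [eq_iff_iff, inv_mul_eq_iff_eq_mul]

lemma pmf_map_inv (p : PMF α) (φ : α → Γ) (y : Γ) :
    (p.map fun a => (φ a)⁻¹) y = (p.map φ) y⁻¹ := by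
  classical
  rw [PMF.map_apply, PMF.map_apply]
  apply tsum_congr
  intro a
  congr 1
  rw [eq_iff_iff]
  exact inv_eq_iff_eq_inv.symm

lemma pmf_bind_le (p : PMF α) (q : α → PMF β) (y : β) (c : ℝ≥0∞) (h : ∀ a, q a y ≤ c) :
    (p.bind q) y ≤ c := by
  rw [PMF.bind_apply]
  calc ∑' a, p a * q a y ≤ ∑' a, p a * c := by
        apply ENNReal.tsum_le_tsum
        intro a
        gcongr
        exact h a
    _ = c := by rw [ENNReal.tsum_mul_right, PMF.tsum_coe, one_mul]

end bounds

section side

variable {Λ : Type} [Fintype Λ] [Inhabited Λ] {Γ : Type*} [Group Γ] {B : Finset Γ}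

/-- the spreading of the random stack of a pattern -/
lemma smp_spread (sg : ℕ → Seg Γ B Λ) (P : List (ℕ × ℕ × List Λ)) (c : ℕ × ℕ × ℕ)
    (hc : c ∈ shp P) (y : Γ) :
    ((smp P).map (sval sg)) y ≤ (2⁻¹ : ℝ≥0∞) ^ ((sg c.1).D c.2.1 - (sg c.1).D c.2.2) := by
  induction P generalizing y with
  | nil => simp [shp] at hc
  | cons p P ih =>
    rcases p with ⟨m, f, w⟩
    have e1 : (smp ((m, f, w) :: P)).map (sval sg) =
        (ext f w).bind fun w' => (smp P).map fun s' => sval sg s' * (sg m).enc w' := by
      rw [smp, PMF.map_bind]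
      congr 1
      funext w'
      rw [PMF.map_comp]
      rfl
    have e2 : (smp ((m, f, w) :: P)).map (sval sg) =
        (smp P).bind fun s' => (ext f w).map fun w' => sval sg s' * (sg m).enc w' := by
      rw [e1]
      simp only [PMF.map]
      rw [PMF.bind_comm]
      rfl
    simp only [shp, List.map_cons, List.mem_cons] at hc
    rcases hc with hc | hc
    · subst hc
      rw [e2]
      apply pmf_bind_le
      intro s'
      rw [pmf_map_mul_left]
      refine ((sg m).spread f w _).trans ?_
      simp [add_comm]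
    · rw [e1]
      apply pmf_bind_le
      intro w'
      rw [pmf_map_mul_right]
      exact ih hc _

/-- the bounded steps -/
noncomputable def stepSet [DecidableEq Γ] (B : Finset Γ) (K : ℕ) : Finset Γ :=
  (insert 1 (B ∪ B⁻¹)) ^ K

lemma enc_append (S : Seg Γ B Λ) [DecidableEq Γ] (v w : List Λ) :
    ∃ b ∈ (insert 1 (B ∪ B⁻¹)) ^ v.length, S.enc (v ++ w) = S.enc w * b := by
  induction v with
  | nil => exact ⟨1, by simp, by simp⟩
  | cons a v ih =>
    obtain ⟨b, hb, h⟩ := ih
    obtain ⟨b', hb', h'⟩ := S.enc_cons a (v ++ w)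
    refine ⟨b * b', ?_, ?_⟩
    · rw [List.length_cons, pow_succ]
      exact Finset.mul_mem_mul hb (by simp [hb'])
    · rw [List.cons_append, h', h, mul_assoc]

lemma pow_le_stepSet [DecidableEq Γ] {k K : ℕ} (h : k ≤ K) :
    (insert 1 (B ∪ B⁻¹)) ^ k ⊆ stepSet B K :=
  Finset.pow_subset_pow_right (by simp) h

lemma sval_aact [DecidableEq Γ] (sg : ℕ → Seg Γ B Λ) (K : ℕ) (hK : 1 ≤ K) (v : List Λ)
    (hv : v.length = K) (o : SOp) (ho : o.le K) (u : List (ℕ × List Λ)) :
    ∃ b ∈ stepSet B K, sval sg (aact K v o u) = sval sg u * b := by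
  have h1 : (1 : Γ) ∈ stepSet B K := Finset.one_mem_pow (by simp)
  rcases o with k | _ | m
  · rcases u with _ | ⟨⟨m, w⟩, u⟩
    · exact ⟨1, h1, by simp [aact]⟩
    · simp only [aact, sval]
      obtain ⟨b, hb, h⟩ := enc_append (sg m) (v.drop (K - k)) w
      refine ⟨b, ?_, by rw [h, mul_assoc]⟩
      apply pow_le_stepSet _ hb
      simp only [List.length_drop, hv]
      omega
  · rcases u with _ | ⟨⟨m, _ | ⟨a, w⟩⟩, u⟩
    · exact ⟨1, h1, by simp [aact]⟩
    · exact ⟨1, h1, by simp [aact, sval, (sg m).enc_nil]⟩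
    · simp only [aact, sval]
      obtain ⟨b, hb, h⟩ := (sg m).enc_cons a w
      refine ⟨b⁻¹, ?_, by rw [h]; group⟩
      apply pow_le_stepSet hK
      simp [hb]
  · exact ⟨1, h1, by simp [aact, sval, (sg m).enc_nil]⟩

lemma enc_mem (S : Seg Γ B Λ) (w : List Λ) : S.enc w ∈ Subgroup.closure (B : Set Γ) := by
  induction w with
  | nil => rw [S.enc_nil]; exact one_mem _
  | cons a w ih =>
    obtain ⟨b, hb, h⟩ := S.enc_cons a w
    rw [h]
    exact mul_mem ih (Subgroup.subset_closure (by simpa using hb))

lemma sval_mem (sg : ℕ → Seg Γ B Λ) (u : List (ℕ × List Λ)) :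
    sval sg u ∈ Subgroup.closure (B : Set Γ) := by
  induction u with
  | nil => exact one_mem _
  | cons c u ih =>
    rcases c with ⟨m, w⟩
    exact mul_mem ih (enc_mem _ _)

lemma stepSet_mem [DecidableEq Γ] (K : ℕ) (b : Γ) (hb : b ∈ stepSet B K) :
    b ∈ Subgroup.closure (B : Set Γ) := by
  have h : ((insert 1 (B ∪ B⁻¹) : Finset Γ) : Set Γ) ⊆ Subgroup.closure (B : Set Γ) := by
    intro x hx
    simp only [Finset.coe_insert, Finset.coe_union, Finset.coe_inv, Set.mem_insert_iff,
      Set.mem_union, Finset.mem_coe, Set.mem_inv] at hx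
    rcases hx with rfl | hx | hx
    · exact one_mem _
    · exact Subgroup.subset_closure (by simpa using hx)
    · rw [← inv_inv x]
      exact inv_mem (Subgroup.subset_closure (by simpa using hx))
  unfold stepSet at hb
  induction K generalizing b with
  | zero => simp at hb; rw [hb]; exact one_mem _
  | succ K ih =>
    rw [pow_succ, Finset.mem_mul] at hb
    obtain ⟨x, hx, y, hy, rfl⟩ := hb
    exact mul_mem (ih x hx) (h (by simpa using hy))

end side

end Pool.Agent.J6H4.Supra
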