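import Pool.Agent.J6H4.Supra.Stack

set_option autoImplicit false

namespace Pool.Agent.J6H4.Supra

open scoped ENNReal Pointwise
open Pool.Agent.Helper241Spread Pool.Agent.Helper241Spread.TTree

variable {Λ : Type} [Fintype Λ] [Inhabited Λ] {Γ : Type*} [Group Γ]

/-- one side: spreading of the value -/
lemma side_spread {B : Finset Γ} (sg : ℕ → Seg Γ B Λ) (K : ℕ) (l : List SOp)
    (hl : ∀ o ∈ l, SOp.le K o) (u₀ : List (ℕ × List Λ)) (n : ℕ) (h : List (List Λ))
    (hh : h.length + n ≤ l.length) (S₀ : List (ℕ × ℕ × ℕ)) (hS : lev S₀ = alv u₀)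
    (c : ℕ × ℕ × ℕ)
    (hc : c ∈ sexec ((l.drop h.length).take n) (remark (sexec (l.take h.length) S₀))) (y : Γ) :
    ((law (hstep Λ K) n h).map fun h' => sval sg (stk K l u₀ h')) y ≤
      (2⁻¹ : ℝ≥0∞) ^ ((sg c.1).D c.2.1 - (sg c.1).D c.2.2) := by
  have e : ((law (hstep Λ K) n h).map fun h' => sval sg (stk K l u₀ h')) =
      ((law (hstep Λ K) n h).map (stk K l u₀)).map (sval sg) := by
    rw [PMF.map_comp]; rfl
  rw [e, law_stk K l hl u₀ n h hh]
  apply smp_spread
  rw [shp_pexec, shp_pat, alv_stk K l hl u₀ h (by omega), ← hS, ← lev_sexec, ← remark_eq]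
  exact hc

/-- the joint kernel -/
noncomputable def jstep (Λ : Type) [Fintype Λ] [Inhabited Λ] (K : ℕ)
    (h : List (List Λ × List Λ)) : PMF (List (List Λ × List Λ)) :=
  ((ext K ([] : List Λ)).bind fun v => (ext K ([] : List Λ)).map fun w => (v, w)).map
    fun p => p :: h

/-- the two histories -/
def unz (h : List (List Λ × List Λ)) : List (List Λ) × List (List Λ) :=
  (h.map fun p => p.1, h.map fun p => p.2)

lemma jstep_unz (K : ℕ) (h : List (List Λ × List Λ)) :
    (jstep Λ K h).map unz = prodStep (hstep Λ K) (hstep Λ K) (unz h) := by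
  simp only [jstep, prodStep, hstep, PMF.map_bind, PMF.map_comp, PMF.bind_map]
  rfl

lemma half_pow_le (Cc C' : ℕ) : ∃ (C θ : NNReal), θ < 1 ∧ ∀ n d : ℕ, n ≤ Cc * d + C' →
    (2⁻¹ : ℝ≥0∞) ^ d ≤ C * (θ : ℝ≥0∞) ^ n := by
  have hpos : (0 : ℝ) < 1 / (2 * ((Cc : ℝ) + 1)) := by positivity
  have hle : 1 / (2 * ((Cc : ℝ) + 1)) ≤ 1 / 2 := by
    apply one_div_le_one_div_of_le (by norm_num)
    have : (0 : ℝ) ≤ Cc := by positivity
    linarith
  set t : ℝ := 1 - 1 / (2 * ((Cc : ℝ) + 1)) with ht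
  have ht0 : 0 < t := by rw [ht]; linarith
  have ht1 : t < 1 := by rw [ht]; linarith
  set θ : NNReal := ⟨t, ht0.le⟩ with hθ
  have hθ1 : θ < 1 := by rw [← NNReal.coe_lt_coe]; exact ht1
  have hθ0 : 0 < θ := by rw [← NNReal.coe_lt_coe]; exact ht0
  have hb : (1 : ℝ) / 2 ≤ t ^ Cc := by
    have h1 := one_add_mul_le_pow (a := -(1 / (2 * ((Cc : ℝ) + 1)))) (by linarith) Cc
    have h2 : (Cc : ℝ) * (1 / (2 * ((Cc : ℝ) + 1))) ≤ 1 / 2 := by
      rw [mul_one_div, div_le_div_iff₀ (by positivity) (by norm_num)]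
      linarith
    have h3 : (1 : ℝ) + -(1 / (2 * ((Cc : ℝ) + 1))) = t := by rw [ht]; ring
    rw [h3] at h1
    linarith
  have hb' : (2⁻¹ : NNReal) ≤ θ ^ Cc := by
    rw [← NNReal.coe_le_coe]
    simp only [NNReal.coe_inv, NNReal.coe_ofNat, NNReal.coe_pow]
    have : ((θ : NNReal) : ℝ) = t := rfl
    rw [this]
    linarith
  refine ⟨(θ⁻¹) ^ C', θ, hθ1, ?_⟩
  intro n d hn
  have h1 : (2⁻¹ : NNReal) ^ d ≤ (θ⁻¹) ^ C' * θ ^ n := by
    calc (2⁻¹ : NNReal) ^ d ≤ (θ ^ Cc) ^ d := by gcongr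
      _ = (θ⁻¹) ^ C' * (θ ^ (Cc * d + C')) := by
          rw [pow_add, ← pow_mul]
          rw [mul_comm (θ ^ (Cc * d)), ← mul_assoc, ← mul_pow, inv_mul_cancel₀ hθ0.ne']
          simp
      _ ≤ (θ⁻¹) ^ C' * θ ^ n := by
          have h5 : θ ^ (Cc * d + C') ≤ θ ^ n := pow_le_pow_of_le_one (by positivity) hθ1.le hn
          exact mul_le_mul' le_rfl h5
  have h2 : (2⁻¹ : ℝ≥0∞) = ((2⁻¹ : NNReal) : ℝ≥0∞) := by
    rw [ENNReal.coe_inv (by norm_num)]; simp
  rw [h2]
  exact_mod_cast h1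

section orbit

variable {α X : Type*} [MulAction Γ X]

omit [Fintype Λ] [Inhabited Λ] in
lemma pmf_map_smul (p : PMF α) (ψ : α → X) (g : Γ) (y : X) :
    (p.map fun a => g • ψ a) y = (p.map ψ) (g⁻¹ • y) := by
  classical
  rw [PMF.map_apply, PMF.map_apply]
  apply tsum_congr
  intro a
  congr 1
  rw [eq_iff_iff]
  constructor
  · intro h; rw [h, inv_smul_smul]
  · intro h; rw [← h, smul_inv_smul]

omit [Fintype Λ] [Inhabited Λ] in
lemma pmf_map_orbit (p : PMF α) (φ : α → Γ) (Hs : Subgroup Γ) (hφ : ∀ a, φ a ∈ Hs) (x₀ : X)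
    (hst : ∀ g ∈ Hs, g • x₀ = x₀ → g = 1) (z : X) (c : ℝ≥0∞) (hc : ∀ g, (p.map φ) g ≤ c) :
    (p.map fun a => (φ a)⁻¹ • x₀) z ≤ c := by
  classical
  by_cases hz : ∃ a₀, (φ a₀)⁻¹ • x₀ = z
  · obtain ⟨a₀, rfl⟩ := hz
    refine le_trans ?_ (hc (φ a₀))
    rw [PMF.map_apply, PMF.map_apply]
    apply le_of_eq
    apply tsum_congr
    intro a
    congr 1
    rw [eq_iff_iff]
    constructor
    · intro h
      have h1 : (φ a * (φ a₀)⁻¹) • x₀ = x₀ := by rw [mul_smul, h, smul_inv_smul]
      have h2 := hst _ (mul_mem (hφ a) (inv_mem (hφ a₀))) h1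
      exact (mul_inv_eq_one.1 h2).symm
    · intro h; rw [h]
  · have : (p.map fun a => (φ a)⁻¹ • x₀) z = 0 := by
      rw [PMF.apply_eq_zero_iff]
      intro hmem
      simp only [PMF.mem_support_map_iff] at hmem
      obtain ⟨a, _, ha⟩ := hmem
      exact hz ⟨a, ha⟩
    rw [this]
    exact bot_le

end orbit

/-- **From schedules to trees.** -/
theorem exists_tree_of_schedule {X : Type*} [MulAction Γ X] (x₀ : X) (A : Bool → Finset Γ)
    (hcomm : ∀ a ∈ A false, ∀ b ∈ A true, a * b = b * a)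
    (hst : ∀ σ, ∀ g ∈ Subgroup.closure (A σ : Set Γ), g • x₀ = x₀ → g = 1)
    (sg : ∀ σ : Bool, ℕ → Seg Γ (A σ) Λ) (K Cc C' : ℕ) (hK : 1 ≤ K)
    (hsched : ∀ H : ℕ, ∃ (l : List (Bool → SOp)) (m₀ : Bool → ℕ), H ≤ l.length ∧
      (∀ o ∈ l, ∀ σ, (o σ).le K) ∧
      ∀ s n, s + n ≤ l.length → ∃ σ : Bool,
        ∃ c ∈ sexec (((l.map fun o => o σ).drop s).take n)
          (remark (sexec ((l.map fun o => o σ).take s) [(m₀ σ, 0, 0)])),
        n ≤ Cc * ((sg σ c.1).D c.2.1 - (sg σ c.1).D c.2.2) + C') :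
    ∃ (K' : Finset Γ) (τ : List Bool → X), τ [] = x₀ ∧ Function.Injective τ ∧
      ∀ b w, ∃ k ∈ K', τ (b :: w) = k • τ w := by
  classical
  -- commutation
  have hcc : ∀ x ∈ Subgroup.closure (A false : Set Γ), ∀ y ∈ Subgroup.closure (A true : Set Γ),
      x * y = y * x := by
    intro x hx y hy
    have h1 : ∀ b ∈ A true, x * b = b * x := by
      intro b hb
      have : Subgroup.closure (A false : Set Γ) ≤ Subgroup.centralizer {b} := by
        rw [Subgroup.closure_le]
        intro a ha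
        rw [SetLike.mem_coe, Subgroup.mem_centralizer_singleton_iff]
        exact (hcomm a (by simpa using ha) b hb)
      exact Subgroup.mem_centralizer_singleton_iff.1 (this hx)
    have : Subgroup.closure (A true : Set Γ) ≤ Subgroup.centralizer {x} := by
      rw [Subgroup.closure_le]
      intro b hb
      rw [SetLike.mem_coe, Subgroup.mem_centralizer_singleton_iff]
      exact (h1 b (by simpa using hb)).symm
    exact (Subgroup.mem_centralizer_singleton_iff.1 (this hy)).symm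
  obtain ⟨C, θ, hθ, hCθ⟩ := half_pow_le Cc C'
  apply exists_tree_of_finite_spread x₀
    (((stepSet (A false) K) * (stepSet (A true) K))⁻¹) C θ hθ
  intro H
  obtain ⟨l, m₀, hHl, hl, hwin⟩ := hsched H
  set l1 : List SOp := l.map fun o => o false with hl1
  set l2 : List SOp := l.map fun o => o true with hl2
  have hlen1 : l1.length = l.length := by simp [hl1]
  have hlen2 : l2.length = l.length := by simp [hl2]
  have hle1 : ∀ o ∈ l1, SOp.le K o := by
    intro o ho
    simp only [hl1, List.mem_map] at ho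
    obtain ⟨o', ho', rfl⟩ := ho
    exact hl o' ho' _
  have hle2 : ∀ o ∈ l2, SOp.le K o := by
    intro o ho
    simp only [hl2, List.mem_map] at ho
    obtain ⟨o', ho', rfl⟩ := ho
    exact hl o' ho' _
  -- `getD` is bounded as well
  have hget : ∀ (l' : List SOp), (∀ o ∈ l', SOp.le K o) → ∀ i, SOp.le K (l'.getD i (.adv 0)) := by
    intro l' hl' i
    rw [List.getD_eq_getElem?_getD]
    by_cases hi : i < l'.length
    · rw [List.getElem?_eq_getElem hi]
      exact hl' _ (List.getElem_mem _)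
    · rw [List.getElem?_eq_none (by omega)]
      simp [SOp.le]
  set u1 : List (ℕ × List Λ) := [(m₀ false, [])] with hu1
  set u2 : List (ℕ × List Λ) := [(m₀ true, [])] with hu2
  set P : List (List Λ) → Γ := fun h => sval (sg false) (stk K l1 u1 h) with hP
  set Q : List (List Λ) → Γ := fun h => sval (sg true) (stk K l2 u2 h) with hQ
  refine ⟨List (List Λ × List Λ), fun h => (P (unz h).1 * Q (unz h).2)⁻¹ • x₀, jstep Λ K,
    fun h => h.length, [], ?_, rfl, ?_, ?_, ?_⟩
  · simp [hP, hQ, unz, stk, hu1, hu2, sval, (sg false _).enc_nil, (sg true _).enc_nil]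
  · intro u v hv
    simp only [jstep, PMF.mem_support_map_iff] at hv
    obtain ⟨p, _, rfl⟩ := hv
    simp
  · intro u v hv
    simp only [jstep, PMF.mem_support_map_iff] at hv
    obtain ⟨p, _, rfl⟩ := hv
    simp only [unz, List.map_cons]
    obtain ⟨b1, hb1, e1⟩ := sval_aact (sg false) K hK (fit K p.1) (fit_length K p.1)
      (l1.getD (u.map fun p => p.1).length (.adv 0)) (hget l1 hle1 _) (stk K l1 u1 (u.map fun p => p.1))
    obtain ⟨b2, hb2, e2⟩ := sval_aact (sg true) K hK (fit K p.2) (fit_length K p.2)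
      (l2.getD (u.map fun p => p.2).length (.adv 0)) (hget l2 hle2 _) (stk K l2 u2 (u.map fun p => p.2))
    refine ⟨(b1 * b2)⁻¹, ?_, ?_⟩
    · rw [Finset.mem_inv]
      exact ⟨b1 * b2, Finset.mul_mem_mul hb1 hb2, rfl⟩
    · simp only [hP, hQ, stk]
      rw [e1, e2]
      have hcm : b1 * sval (sg true) (stk K l2 u2 (u.map fun p => p.2)) =
          sval (sg true) (stk K l2 u2 (u.map fun p => p.2)) * b1 :=
        hcc b1 (stepSet_mem K b1 hb1) _ (sval_mem _ _)
      rw [← mul_smul, ← mul_inv_rev]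
      congr 2
      calc _ = sval (sg false) (stk K l1 u1 (u.map fun p => p.1)) *
            (b1 * sval (sg true) (stk K l2 u2 (u.map fun p => p.2))) * b2 := by group
        _ = _ := by rw [hcm]; group
  · intro n u y hn
    have hn' : u.length + n ≤ l.length := by simp only at hn; omega
    obtain ⟨σ, c, hc, hnc⟩ := hwin u.length n hn'
    refine le_trans ?_ (hCθ n _ hnc)
    have e0 : (law (jstep Λ K) n u).map (fun h => (P (unz h).1 * Q (unz h).2)⁻¹ • x₀) =
        ((law (hstep Λ K) n (unz u).1).bind fun v => (law (hstep Λ K) n (unz u).2).map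
          fun w => (P v * Q w)⁻¹ • x₀) := by
      have e1 : (law (jstep Λ K) n u).map (fun h => (P (unz h).1 * Q (unz h).2)⁻¹ • x₀) =
          ((law (jstep Λ K) n u).map unz).map (fun p => (P p.1 * Q p.2)⁻¹ • x₀) := by
        rw [PMF.map_comp]; rfl
      rw [e1, law_map (jstep Λ K) (prodStep (hstep Λ K) (hstep Λ K)) unz (jstep_unz K) n u,
        law_prodStep, PMF.map_bind]
      congr 1
      funext v
      rw [PMF.map_comp]
      rfl
    rw [e0]
    cases σ with
    | false =>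
      have hb : ∀ z : Γ, ((law (hstep Λ K) n (unz u).1).map P) z ≤
          (2⁻¹ : ℝ≥0∞) ^ ((sg false c.1).D c.2.1 - (sg false c.1).D c.2.2) := by
        intro z
        refine side_spread (sg false) K l1 hle1 u1 n (unz u).1 ?_ [(m₀ false, 0, 0)] ?_ c ?_ z
        · simp only [unz, List.length_map]; omega
        · simp [lev, alv, hu1]
        · simpa [unz] using hc
      have e2 : ((law (hstep Λ K) n (unz u).1).bind fun v => (law (hstep Λ K) n (unz u).2).map
          fun w => (P v * Q w)⁻¹ • x₀) = ((law (hstep Λ K) n (unz u).2).bind fun w =>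
            (law (hstep Λ K) n (unz u).1).map fun v => (P v * Q w)⁻¹ • x₀) := by
        simp only [PMF.map]
        rw [PMF.bind_comm]
        rfl
      rw [e2]
      apply pmf_bind_le
      intro w
      have e3 : (fun v => (P v * Q w)⁻¹ • x₀) = fun v => (Q w)⁻¹ • (P v)⁻¹ • x₀ := by
        funext v
        rw [mul_inv_rev, mul_smul]
      rw [e3, pmf_map_smul]
      exact pmf_map_orbit _ P (Subgroup.closure (A false : Set Γ)) (fun v => sval_mem _ _) x₀
        (hst false) _ _ hb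
    | true =>
      have hb : ∀ z : Γ, ((law (hstep Λ K) n (unz u).2).map Q) z ≤
          (2⁻¹ : ℝ≥0∞) ^ ((sg true c.1).D c.2.1 - (sg true c.1).D c.2.2) := by
        intro z
        refine side_spread (sg true) K l2 hle2 u2 n (unz u).2 ?_ [(m₀ true, 0, 0)] ?_ c ?_ z
        · simp only [unz, List.length_map]; omega
        · simp [lev, alv, hu2]
        · simpa [unz] using hc
      apply pmf_bind_le
      intro v
      have e3 : (fun w => (P v * Q w)⁻¹ • x₀) = fun w => (P v)⁻¹ • (Q w)⁻¹ • x₀ := by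
        funext w
        rw [hcc (P v) (sval_mem _ _) (Q w) (sval_mem _ _), mul_inv_rev, mul_smul]
      rw [e3, pmf_map_smul]
      exact pmf_map_orbit _ Q (Subgroup.closure (A true : Set Γ)) (fun v => sval_mem _ _) x₀
        (hst true) _ _ hb

end Pool.Agent.J6H4.Supra
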