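import Pool.Agent.J6H4.Supra.Products

set_option autoImplicit false

namespace Pool.Agent.J6H4.Supra

open scoped ENNReal Pointwise Topology
open Filter

section

variable {G : Type*} [Group G]

/-- the action of `G × G` on `G` by left and right translations -/
@[instance_reducible]
def lrAction : MulAction (G × G) G where
  smul p x := p.1 * x * p.2⁻¹
  one_smul x := by
    change (1 : G × G).1 * x * (1 : G × G).2⁻¹ = x
    simp
  mul_smul p q x := by
    change (p * q).1 * x * (p * q).2⁻¹ = p.1 * (q.1 * x * q.2⁻¹) * p.2⁻¹
    simp [mul_assoc]

attribute [local instance] lrAction in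
lemma lr_smul (p : G × G) (x : G) : p • x = p.1 * x * p.2⁻¹ := rfl

attribute [local instance] lrAction in
/-- two-sided supramenability is supramenability of the action of `G × G` on `G` -/
lemma twoSided_iff : TwoSidedSupramenable G ↔ ActSupramenable (G × G) G := by
  constructor
  · intro h A hA
    obtain ⟨μ, h0, h1, h2, h3, h4⟩ := h A hA
    refine ⟨μ, h0, h1, ?_, h4⟩
    intro g B
    have : g • B = (fun x => g.1 * x) '' ((fun x => x * g.2⁻¹) '' B) := by
      ext y
      simp only [Set.mem_smul_set, Set.mem_image, exists_exists_and_eq_and, lr_smul, mul_assoc]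
    rw [this, h2, h3]
  · intro h A hA
    obtain ⟨μ, h0, h1, h2, h3⟩ := h A hA
    refine ⟨μ, h0, h1, ?_, ?_, h3⟩
    · intro g B
      rw [← h2 (g, 1) B]
      congr 1
      ext y
      simp only [Set.mem_smul_set, Set.mem_image, lr_smul, inv_one, mul_one]
    · intro g B
      rw [← h2 (1, g⁻¹) B]
      congr 1
      ext y
      simp only [Set.mem_smul_set, Set.mem_image, lr_smul, inv_inv, one_mul]

attribute [local instance] lrAction in
/-- **Two-sided supramenability is exponential boundedness.** -/
theorem expBounded_iff_twoSided : ExponentiallyBounded G ↔ TwoSidedSupramenable G := by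
  rw [twoSided_iff]
  constructor
  · intro h
    exact act_of_supramenable (supramenable_square_iff.2 h)
  · intro h
    have hinl : Function.Injective (MonoidHom.inl G G) := fun a b hab => by simpa using hab
    have hinr : Function.Injective (MonoidHom.inr G G) := fun a b hab => by simpa using hab
    have h1 := expBounded_or_of_act (Γ := G × G) (X := G) 1 (MonoidHom.inl G G).range
      (MonoidHom.inr G G).range
      (by
        rintro _ ⟨a, rfl⟩ _ ⟨b, rfl⟩
        simp)
      (by
        rintro _ ⟨a, rfl⟩ h
        simp only [lr_smul, MonoidHom.inl_apply, mul_one, inv_one] at h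
        simp [h])
      (by
        rintro _ ⟨a, rfl⟩ h
        simp only [lr_smul, MonoidHom.inr_apply, mul_one, one_mul, inv_eq_one] at h
        simp [h]) h
    rcases h1 with h1 | h1
    · exact expBounded_of_injective (MonoidHom.ofInjective hinl).toMonoidHom
        (MonoidHom.ofInjective hinl).injective h1
    · exact expBounded_of_injective (MonoidHom.ofInjective hinr).toMonoidHom
        (MonoidHom.ofInjective hinr).injective h1

/-- centralisers in supramenable groups -/
theorem expBounded_or_centralizer (H : Subgroup G) (h : Supramenable G) :
    ExponentiallyBounded H ∨ ExponentiallyBounded (Subgroup.centralizer (H : Set G)) :=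
  expBounded_or_of_supramenable H _
    (fun x hx _ hk => (Subgroup.mem_centralizer_iff.1 hk x hx)) h

end

end Pool.Agent.J6H4.Supra
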